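import Pool.Agent.Dilation.Space

namespace Pool.Agent.Dilation

open Topology Filter

/-- A barrier of direction `d`: the surface is cut along a single saddle connection of direction
`d` (the zero set of `S` outside of the cone points), with `S = 1` on its left and `S = -1` on its
right. -/
structure IsBarrier (s : TriSurf) (d : ℂ) (S : Space s.1.2 → SignType) : Prop where
  dir : d ≠ 0
  zero : ∀ i b, ¬ IsVertex b → S (point s.1.2 i b) = 0 → ∀ᶠ b₁ in 𝓝 b,
    S (point s.1.2 i b₁) = SignType.sign (det d (pos s.2.1 i b₁ - pos s.2.1 i b))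
  ne_zero : ∀ i b, ¬ IsVertex b → S (point s.1.2 i b) ≠ 0 → ∀ᶠ b₁ in 𝓝 b,
    S (point s.1.2 i b₁) = S (point s.1.2 i b)
  conn : IsPreconnected {q | q ∉ conePoints s.1.2 ∧ S q = 0}
  not_closed : ¬ IsClosed {q | q ∉ conePoints s.1.2 ∧ S q = 0}

/-- The set of directions of barriers. -/
def barrierDirs (s : TriSurf) : Set ℂ := {d | ∃ S, IsBarrier s d S}

lemma det_smul_right (d : ℂ) (a : ℝ) (z : ℂ) : det d (a * z) = a * det d z := by
  simp [det]; ring

lemma det_smul_left (a : ℝ) (d z : ℂ) : det (a * d) z = a * det d z := by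
  simp [det]; ring

lemma sign_pos_mul {a : ℝ} (ha : 0 < a) (x : ℝ) : SignType.sign (a * x) = SignType.sign x := by
  rw [sign_mul, sign_pos ha, one_mul]

lemma Iso.symm {s s' : TriSurf} (h : Iso s s') : Iso s' s := by
  obtain ⟨F, hF, h⟩ := h
  refine ⟨F.symm, ?_, ?_⟩
  · rw [← hF, ← Set.image_comp]
    simp
  · intro i' b' i b hb' hFb
    have hFb' : F (point s.1.2 i b) = point s'.1.2 i' b' := by rw [← hFb]; simp
    have hb : ¬ IsVertex b := by
      intro hb
      apply hb'
      have : F (point s.1.2 i b) ∈ conePoints s'.1.2 := by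
        rw [← hF]; exact ⟨_, point_mem_conePoints.mpr hb, rfl⟩
      rw [hFb'] at this
      exact point_mem_conePoints.mp this
    obtain ⟨a, β, ha, hev⟩ := h i b i' b' hb hFb'
    refine ⟨a⁻¹, -(a⁻¹ * β), inv_pos.mpr ha, ?_⟩
    have hsw : Tendsto (fun p : Tri × Tri => (p.2, p.1)) (𝓝 (b', b)) (𝓝 (b, b')) := by
      have : Continuous fun p : Tri × Tri => (p.2, p.1) := by fun_prop
      exact this.tendsto' _ _ rfl
    filter_upwards [hsw.eventually hev] with p hp h1
    have h2 : F (point s.1.2 i p.2) = point s'.1.2 i' p.1 := by rw [← h1]; simp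
    have h3 := hp h2
    rw [h3]
    have ha' : (a : ℂ) ≠ 0 := by exact_mod_cast ha.ne'
    push_cast
    field_simp
    ring

lemma barrierDirs_mono {s s' : TriSurf} (h : Iso s s') {d : ℂ} (hd : d ∈ barrierDirs s) :
    d ∈ barrierDirs s' := by
  obtain ⟨F, hF, h⟩ := h
  obtain ⟨S, hS⟩ := hd
  have hcone : ∀ q, F q ∈ conePoints s'.1.2 ↔ q ∈ conePoints s.1.2 := by
    intro q
    rw [← hF]
    exact F.injective.mem_set_image
  have hset : {q | q ∉ conePoints s'.1.2 ∧ (S ∘ F.symm) q = 0} =
      F '' {q | q ∉ conePoints s.1.2 ∧ S q = 0} := by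
    ext q
    constructor
    · rintro ⟨h1, h2⟩
      refine ⟨F.symm q, ⟨?_, h2⟩, by simp⟩
      rw [← hcone]; simpa using h1
    · rintro ⟨q, ⟨h1, h2⟩, rfl⟩
      exact ⟨by rw [hcone]; exact h1, by simpa using h2⟩
  -- the local situation at a point
  have hloc : ∀ i' b', ¬ IsVertex b' → ∃ i b, ¬ IsVertex b ∧
      F (point s.1.2 i b) = point s'.1.2 i' b' := by
    intro i' b' hb'
    obtain ⟨i, b, hib⟩ := exists_point (F.symm (point s'.1.2 i' b'))
    have h1 : F (point s.1.2 i b) = point s'.1.2 i' b' := by rw [← hib]; simp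
    refine ⟨i, b, ?_, h1⟩
    intro hb
    apply hb'
    rw [← point_mem_conePoints (P := s'.1.2) (i := i'), ← h1, hcone, point_mem_conePoints]
    exact hb
  refine ⟨S ∘ F.symm, hS.dir, ?_, ?_, ?_, ?_⟩
  · intro i' b' hb' hz
    obtain ⟨i, b, hb, hFb⟩ := hloc i' b' hb'
    have hq : F.symm (point s'.1.2 i' b') = point s.1.2 i b := by rw [← hFb]; simp
    have hT : ∀ k bk, ¬ IsVertex bk → point s.1.2 k bk = point s.1.2 i b →
        ∃ pb : Tri → Prop, (∀ᶠ y in 𝓝 b', pb y) ∧ ∀ᶠ x in 𝓝 bk, ∀ y, pb y →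
          F (point s.1.2 k x) = point s'.1.2 i' y → S (point s.1.2 k x) =
            SignType.sign (det d (pos s'.2.1 i' y - pos s'.2.1 i' b')) := by
      intro k bk hbk hk
      have hFk : F (point s.1.2 k bk) = point s'.1.2 i' b' := by rw [hk, hFb]
      obtain ⟨a, β, ha, hev⟩ := h k bk i' b' hbk hFk
      have h0 : pos s'.2.1 i' b' = a * pos s.2.1 k bk + β := hev.self_of_nhds hFk
      rw [nhds_prod_eq, Filter.eventually_prod_iff] at hev
      obtain ⟨pa, hpa, pb, hpb, hab⟩ := hev
      refine ⟨pb, hpb, ?_⟩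
      have hz' : S (point s.1.2 k bk) = 0 := by
        rw [hk, ← hq]; exact hz
      filter_upwards [hpa, hS.zero k bk hbk hz'] with x hx hSx y hy hxy
      have h1 := hab hx hy hxy
      simp only at h1
      rw [hSx, h1, h0]
      have : (a : ℂ) * pos s.2.1 k x + β - (a * pos s.2.1 k bk + β) =
          a * (pos s.2.1 k x - pos s.2.1 k bk) := by ring
      rw [this, det_smul_right, sign_pos_mul ha]
    have hcont : Tendsto (fun y => F.symm (point s'.1.2 i' y)) (𝓝 b')
        (𝓝 (point s.1.2 i b)) := by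
      rw [← hq]
      exact (F.symm.continuous.comp (continuous_point i')).continuousAt
    obtain ⟨pb₁, hpb₁, hx₁⟩ := hT i b hb rfl
    by_cases hpart : ∃ p, Glued s.1.2 (i, b) p
    · obtain ⟨⟨i₂, b₂⟩, hg⟩ := hpart
      have hb₂ : ¬ IsVertex b₂ := fun hc => hb (hg.symm.isVertex hc)
      obtain ⟨pb₂, hpb₂, hx₂⟩ := hT i₂ b₂ hb₂ hg.point_eq.symm
      have key := eventually_exists_point hb (R := fun k x => ∀ y, pb₁ y ∧ pb₂ y →
          F (point s.1.2 k x) = point s'.1.2 i' y → S (point s.1.2 k x) =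
            SignType.sign (det d (pos s'.2.1 i' y - pos s'.2.1 i' b')))
        (hx₁.mono fun x hx y hy => hx y hy.1) (by
          intro i₃ b₃ hg'
          have := hg.unique hg' hb
          rw [Prod.mk.injEq] at this
          rw [← this.1, ← this.2]
          exact hx₂.mono fun x hx y hy => hx y hy.2)
      filter_upwards [hcont.eventually key, hpb₁, hpb₂] with y hy h1 h2
      obtain ⟨k, x, hkx, hR⟩ := hy
      have hFk : F (point s.1.2 k x) = point s'.1.2 i' y := by rw [← hkx]; simp
      have := hR y ⟨h1, h2⟩ hFk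
      show S (F.symm (point s'.1.2 i' y)) = _
      rw [hkx, this]
    · have key := eventually_exists_point hb (R := fun k x => ∀ y, pb₁ y →
          F (point s.1.2 k x) = point s'.1.2 i' y → S (point s.1.2 k x) =
            SignType.sign (det d (pos s'.2.1 i' y - pos s'.2.1 i' b'))) hx₁
          (fun i₃ b₃ hg' => absurd ⟨_, hg'⟩ hpart)
      filter_upwards [hcont.eventually key, hpb₁] with y hy h1
      obtain ⟨k, x, hkx, hR⟩ := hy
      have hFk : F (point s.1.2 k x) = point s'.1.2 i' y := by rw [← hkx]; simp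
      have := hR y h1 hFk
      show S (F.symm (point s'.1.2 i' y)) = _
      rw [hkx, this]
  · intro i' b' hb' hz
    obtain ⟨i, b, hb, hFb⟩ := hloc i' b' hb'
    have hq : F.symm (point s'.1.2 i' b') = point s.1.2 i b := by rw [← hFb]; simp
    have hz' : S (point s.1.2 i b) ≠ 0 := by rw [← hq]; exact hz
    have hcont : Tendsto (fun y => F.symm (point s'.1.2 i' y)) (𝓝 b')
        (𝓝 (point s.1.2 i b)) := by
      rw [← hq]
      exact (F.symm.continuous.comp (continuous_point i')).continuousAt
    have hn : {q | S q = S (point s.1.2 i b)} ∈ 𝓝 (point s.1.2 i b) := by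
      refine mem_nhds_point hb (hS.ne_zero i b hb hz') ?_
      intro i₂ b₂ hg
      have hb₂ : ¬ IsVertex b₂ := fun hc => hb (hg.symm.isVertex hc)
      have := hS.ne_zero i₂ b₂ hb₂ (by rw [← hg.point_eq]; exact hz')
      filter_upwards [this] with x hx
      show S _ = S _
      rw [hx, hg.point_eq]
    filter_upwards [hcont.eventually hn] with y hy
    show S (F.symm (point s'.1.2 i' y)) = S (F.symm (point s'.1.2 i' b'))
    rw [hq]
    exact hy
  · rw [hset]
    exact hS.conn.image _ F.continuous.continuousOn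
  · rw [hset, F.isClosed_image]
    exact hS.not_closed

lemma barrierDirs_eq {s s' : TriSurf} (h : Iso s s') : barrierDirs s = barrierDirs s' :=
  Set.Subset.antisymm (fun _ hd => barrierDirs_mono h hd) (fun _ hd => barrierDirs_mono h.symm hd)

/-- Barriers of `act A s` are barriers of `s`. -/
lemma mem_barrierDirs_act {s : TriSurf} {A} {d : ℂ} (hd : d ∈ barrierDirs s) :
    lin A d ∈ barrierDirs (act A s) := by
  obtain ⟨S, hS⟩ := hd
  have hpos : ∀ i b, pos (act A s).2.1 i b = lin A (pos s.2.1 i b) := by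
    intro i b
    simp only [pos, act, lin_add, lin_smul]
  refine ⟨S, ?_, ?_, hS.ne_zero, hS.conn, hS.not_closed⟩
  · intro h
    apply hS.dir
    have h1 : det (lin A d) (lin A (-d.im + d.re * Complex.I)) = 0 := by
      rw [h]; simp [det]
    rw [det_lin] at h1
    simp only [det, Complex.add_re, Complex.neg_re, Complex.ofReal_re, Complex.mul_re,
      Complex.I_re, mul_zero, Complex.ofReal_im, Complex.I_im, mul_one, sub_self, add_zero,
      Complex.add_im, Complex.neg_im, Complex.mul_im, neg_zero, zero_add] at h1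
    have h2 : d.re * d.re + d.im * d.im = 0 := by linarith
    have h3 := mul_self_nonneg d.re
    have h4 := mul_self_nonneg d.im
    apply Complex.ext
    · simpa using (mul_self_eq_zero.mp (by linarith : d.re * d.re = 0))
    · simpa using (mul_self_eq_zero.mp (by linarith : d.im * d.im = 0))
  · intro i b hb hz
    filter_upwards [hS.zero i b hb hz] with b₁ hb₁
    refine hb₁.trans ?_
    rw [hpos, hpos]
    have : lin A (pos s.2.1 i b₁) - lin A (pos s.2.1 i b) =
        lin A (pos s.2.1 i b₁ - pos s.2.1 i b) := by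
      rw [sub_eq_add_neg, sub_eq_add_neg, lin_add, lin_neg]
    rw [this, det_lin]

end Pool.Agent.Dilation
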