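import Pool.Agent.Dilation.Global

namespace Pool.Agent.Dilation

open Topology Filter

variable {n : ℕ} {P : Pattern n} {e : Side n → ℂ} {d : ℂ} {S : Space P → SignType}

lemma convex_coord (k : Fin 3) {I : Set ℝ} (hI : Convex ℝ I) :
    Convex ℝ {x : Fin 3 → ℝ | x k ∈ I} := by
  intro x hx y hy a b ha hb hab
  exact hI hx hy ha hb hab

lemma det_side (he : IsShape P e) (h : Side n) {t : ℝ} (ht : t ∈ Set.Icc (0 : ℝ) 1) (b : Tri) :
    det (e h) (pos e h.1 b - pos e h.1 (side h.2 t)) =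
      b.1 (h.2 + 2) * det (e h) (e (h.1, h.2 + 1)) := by
  rw [det_pos_sub, aff_side _ _ ht, aff_eq _ _ h.2]
  have h2 := vert_succ he h.1 h.2
  have h3 := vert_succ he h.1 (h.2 + 1)
  rw [(fin3_add h.2).2.1] at h3
  rw [show ((h.1, h.2) : Side n) = h from rfl] at h2
  have h5 := tri_sum b h.2
  rw [h3, h2]
  simp only [det, Complex.add_re, Complex.add_im]
  linear_combination ((e h).re * (vert e h.1 h.2).im - (e h).im * (vert e h.1 h.2).re) * h5

/-- The centre of the triangle. -/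
noncomputable def bary : Tri := ⟨fun _ => 1 / 3, fun _ => by norm_num, by
  rw [Fin.sum_univ_three]; norm_num⟩

/-- A barrier running along a side: this side separates the surface. -/
theorem exists_labels {he : IsShape P e} (hS : IsBarrier ⟨⟨n, P⟩, e, he⟩ d S) {h₀ : Side n}
    {ρ : ℝ} (hρ : 0 < ρ) (hd : d = ρ * e h₀) {t₀ : ℝ} (ht₀ : t₀ ∈ Set.Ioo (0 : ℝ) 1)
    (hz : S (point P h₀.1 (side h₀.2 t₀)) = 0) :
    ∃ l : Fin n → ℝ, (∀ i, l i = 1 ∨ l i = -1) ∧ l h₀.1 = 1 ∧ l (P.glue h₀).1 = -1 ∧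
      ∀ h, h ≠ h₀ → h ≠ P.glue h₀ → l h.1 = l (P.glue h).1 := by
  classical
  set h₁ := P.glue h₀ with hh₁
  have hh₀ : P.glue h₁ = h₀ := P.glue_glue h₀
  have hr := ratio_pos he h₀
  have hd1 : d = ((-(ρ / ratio P e h₀) : ℝ) : ℂ) * e h₁ := by
    rw [hd, hh₁, glue_eq he h₀]
    have : (ratio P e h₀ : ℂ) ≠ 0 := by exact_mod_cast hr.ne'
    push_cast
    field_simp
  have hdet0 : det d (e h₀) = 0 := by
    rw [hd, det_smul_left]
    have : det (e h₀) (e h₀) = 0 := by simp only [det]; ring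
    rw [this, mul_zero]
  -- the open side belongs to the zero set
  have hside0 : ∀ t ∈ Set.Ioo (0 : ℝ) 1, S (point P h₀.1 (side h₀.2 t)) = 0 := by
    intro t ht
    rw [← hz]
    have hmem : ∀ t ∈ Set.Ioo (0 : ℝ) 1, side h₀.2 t ∈
        {x : Tri | ¬ IsVertex x ∧ x.1 ∈ {x : Fin 3 → ℝ | x (h₀.2 + 2) ∈ ({0} : Set ℝ)}} :=
      fun t ht => ⟨not_isVertex_side _ ht, (side_apply _ ⟨ht.1.le, ht.2.le⟩).2.2⟩
    refine const_on (i := h₀.1) hS (preconn_tri (convex_coord (h₀.2 + 2)
      (convex_singleton (0 : ℝ)))) (fun x hx => hx.1) ?_ (hmem t ht) (hmem t₀ ht₀)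
    intro x hx _ y hy
    obtain ⟨hx1, hx2⟩ := eq_side hx.1 hx.2
    obtain ⟨hy1, hy2⟩ := eq_side hy.1 hy.2
    rw [hx2, hy2, pos_side_sub he d h₀ ⟨hx1.1.le, hx1.2.le⟩ ⟨hy1.1.le, hy1.2.le⟩, hdet0, mul_zero]
  let E : Set (Space P) := {q | ∃ t ∈ Set.Ioo (0 : ℝ) 1, q = point P h₀.1 (side h₀.2 t)}
  have hglue : ∀ t ∈ Set.Ioo (0 : ℝ) 1, point P h₁.1 (side h₁.2 t) =
      point P h₀.1 (side h₀.2 (1 - t)) := by
    intro t ht
    have := (glued_side (P := P) h₁ ⟨ht.1.le, ht.2.le⟩).point_eq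
    rw [hh₀] at this
    exact this
  have hsub1 : ∀ t ∈ Set.Ioo (0 : ℝ) 1, 1 - t ∈ Set.Ioo (0 : ℝ) 1 :=
    fun t ht => ⟨by linarith [ht.2], by linarith [ht.1]⟩
  have memE : ∀ i b, ¬ IsVertex b → (point P i b ∈ E ↔
      (i = h₀.1 ∧ b.1 (h₀.2 + 2) = 0) ∨ (i = h₁.1 ∧ b.1 (h₁.2 + 2) = 0)) := by
    intro i b hb
    constructor
    · rintro ⟨t, ht, hq⟩
      have hI : t ∈ Set.Icc (0 : ℝ) 1 := ⟨ht.1.le, ht.2.le⟩
      rcases point_eq hb hq with h | h
      · rw [Prod.mk.injEq] at h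
        left
        rw [h.2]
        exact ⟨h.1, (side_apply _ hI).2.2⟩
      · right
        have h2 := h.symm.unique (glued_side h₀ hI) (not_isVertex_side _ ht)
        rw [Prod.mk.injEq] at h2
        rw [h2.2]
        exact ⟨h2.1, (side_apply _ ⟨(hsub1 t ht).1.le, (hsub1 t ht).2.le⟩).2.2⟩
    · rintro (⟨hi, h⟩ | ⟨hi, h⟩)
      · obtain ⟨h3, h4⟩ := eq_side hb h
        exact ⟨_, h3, by rw [hi, ← h4]⟩
      · obtain ⟨h3, h4⟩ := eq_side hb h
        refine ⟨_, hsub1 _ h3, ?_⟩
        rw [← hglue _ h3, hi, ← h4]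
  -- near the side `h` (one of `h₀`, `h₁`) the sign is given by the third coordinate
  have hnear : ∀ (h : Side n) (c : ℝ), d = c * e h → (h = h₀ ∨ h = h₁) →
      ∀ t ∈ Set.Ioo (0 : ℝ) 1, ∀ᶠ b₁ in 𝓝 (side h.2 t),
        S (point P h.1 b₁) = SignType.sign (c * b₁.1 (h.2 + 2)) := by
    intro h c hc hcase t ht
    have hI : t ∈ Set.Icc (0 : ℝ) 1 := ⟨ht.1.le, ht.2.le⟩
    have hz' : S (point P h.1 (side h.2 t)) = 0 := by
      rcases hcase with h' | h'
      · rw [h']; exact hside0 t ht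
      · rw [h', hglue t ht]; exact hside0 _ (hsub1 t ht)
    filter_upwards [hS.zero h.1 _ (not_isVertex_side _ ht) hz'] with b₁ hb₁
    refine hb₁.trans ?_
    show SignType.sign (det d (pos e h.1 b₁ - pos e h.1 (side h.2 t))) = _
    rw [hc, det_smul_left, det_side he h hI, ← mul_assoc, mul_comm,
      sign_pos_mul (det_cyc he h.1 h.2)]
  have hcne : -(ρ / ratio P e h₀) ≠ 0 := by
    have := div_pos hρ hr
    linarith
  -- the zero set is the open side
  have hZE : ∀ q, q ∉ conePoints P → S q = 0 → q ∈ E := by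
    by_contra hcon
    push Not at hcon
    obtain ⟨q₁, hq₁, hq₁z, hq₁E⟩ := hcon
    have hcl0 : IsClosed (E ∪ conePoints P) := by
      apply isClosed_space
      intro i
      have hpre : point P i ⁻¹' (E ∪ conePoints P) = {b | IsVertex b} ∪
          ({b | i = h₀.1 ∧ b.1 (h₀.2 + 2) = 0} ∪ {b | i = h₁.1 ∧ b.1 (h₁.2 + 2) = 0}) := by
        ext b
        by_cases hb : IsVertex b
        · constructor
          · intro _; exact Or.inl hb
          · intro _; exact Or.inr (point_mem_conePoints.mpr hb)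
        · constructor
          · rintro (h | h)
            · exact Or.inr ((memE i b hb).mp h)
            · exact absurd (point_mem_conePoints.mp h) hb
          · rintro (h | h)
            · exact absurd h hb
            · exact Or.inl ((memE i b hb).mpr h)
      rw [hpre]
      refine isClosed_isVertex.union (IsClosed.union ?_ ?_)
      · by_cases hi : i = h₀.1
        · simp only [hi, true_and]
          exact isClosed_eq (continuous_coord _) continuous_const
        · simp only [hi, false_and]; exact isClosed_empty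
      · by_cases hi : i = h₁.1
        · simp only [hi, true_and]
          exact isClosed_eq (continuous_coord _) continuous_const
        · simp only [hi, false_and]; exact isClosed_empty
    have hcl1 : IsClosed ({q | q ∉ conePoints P ∧ S q = 0 ∧ q ∉ E} ∪ conePoints P) := by
      apply isClosed_space
      intro i
      rw [← isOpen_compl_iff, isOpen_iff_mem_nhds]
      intro b hb
      have hb1 : ¬ IsVertex b := fun h => hb (Or.inr (point_mem_conePoints.mpr h))
      by_cases hSb : S (point P i b) = 0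
      · have hbE : point P i b ∈ E := by
          by_contra hc
          exact hb (Or.inl ⟨by rw [point_mem_conePoints]; exact hb1, hSb, hc⟩)
        have key : ∀ (h : Side n) (c : ℝ), c ≠ 0 → d = c * e h → (h = h₀ ∨ h = h₁) → i = h.1 →
            b.1 (h.2 + 2) = 0 → ∀ᶠ b₁ in 𝓝 b, S (point P i b₁) = 0 → b₁.1 (h.2 + 2) = 0 := by
          intro h c hc0 hc hcase hi hbh
          obtain ⟨h3, h4⟩ := eq_side hb1 hbh
          have := hnear h c hc hcase _ h3
          rw [← h4] at this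
          filter_upwards [this] with b₁ hb₁ hz₁
          rw [hi, hb₁, sign_eq_zero_iff] at hz₁
          rcases mul_eq_zero.mp hz₁ with h5 | h5
          · exact absurd h5 hc0
          · exact h5
        rcases (memE i b hb1).mp hbE with ⟨hi, h⟩ | ⟨hi, h⟩
        · filter_upwards [eventually_not_isVertex hb1, key h₀ ρ hρ.ne' hd (Or.inl rfl) hi h]
            with b₁ h1 h2
          rintro (⟨_, h3, h4⟩ | h3)
          · exact h4 ((memE i b₁ h1).mpr (Or.inl ⟨hi, h2 h3⟩))
          · exact h1 (point_mem_conePoints.mp h3)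
        · filter_upwards [eventually_not_isVertex hb1, key h₁ _ hcne hd1 (Or.inr rfl) hi h]
            with b₁ h1 h2
          rintro (⟨_, h3, h4⟩ | h3)
          · exact h4 ((memE i b₁ h1).mpr (Or.inr ⟨hi, h2 h3⟩))
          · exact h1 (point_mem_conePoints.mp h3)
      · filter_upwards [eventually_not_isVertex hb1, hS.ne_zero i b hb1 hSb] with b₁ h1 h2
        rintro (⟨_, h3, _⟩ | h3)
        · exact hSb (h2.symm.trans h3)
        · exact h1 (point_mem_conePoints.mp h3)
    have hpc := isPreconnected_closed_iff.mp hS.conn _ _ hcl0 hcl1 (by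
      rintro q ⟨h1, h2⟩
      by_cases hqE : q ∈ E
      · exact Or.inl (Or.inl hqE)
      · exact Or.inr (Or.inl ⟨h1, h2, hqE⟩)) (by
      refine ⟨point P h₀.1 (side h₀.2 t₀), ⟨?_, hz⟩, Or.inl ⟨t₀, ht₀, rfl⟩⟩
      rw [point_mem_conePoints]; exact not_isVertex_side _ ht₀)
      ⟨q₁, ⟨hq₁, hq₁z⟩, Or.inl ⟨hq₁, hq₁z, hq₁E⟩⟩
    obtain ⟨q, ⟨h1, h2⟩, h3, h4⟩ := hpc
    rcases h3 with h3 | h3
    · rcases h4 with h4 | h4
      · exact h4.2.2 h3
      · exact h1 h4
    · exact h1 h3
  -- the sign is constant in each triangle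
  let W : Fin n → Set Tri := fun i => {x : Tri | ¬ IsVertex x ∧ x.1 ∈
    ({x : Fin 3 → ℝ | i = h₀.1 → x (h₀.2 + 2) ∈ Set.Ioi (0 : ℝ)} ∩
      {x : Fin 3 → ℝ | i = h₁.1 → x (h₁.2 + 2) ∈ Set.Ioi (0 : ℝ)})}
  have hWpre : ∀ i, IsPreconnected (W i) := by
    intro i
    apply preconn_tri
    apply Convex.inter
    · by_cases hi : i = h₀.1
      · simp only [hi, forall_true_left]; exact convex_coord _ (convex_Ioi 0)
      · simp only [hi, IsEmpty.forall_iff]; exact convex_univ
    · by_cases hi : i = h₁.1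
      · simp only [hi, forall_true_left]; exact convex_coord _ (convex_Ioi 0)
      · simp only [hi, IsEmpty.forall_iff]; exact convex_univ
  have hWE : ∀ i, ∀ b, ¬ IsVertex b → (b ∈ W i ↔ point P i b ∉ E) := by
    intro i b hb
    rw [memE i b hb]
    constructor
    · rintro ⟨_, h1, h2⟩ (⟨hi, h⟩ | ⟨hi, h⟩)
      · have := h1 hi; rw [h] at this; exact lt_irrefl _ (Set.mem_Ioi.mp this)
      · have := h2 hi; rw [h] at this; exact lt_irrefl _ (Set.mem_Ioi.mp this)
    · intro h
      push Not at h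
      exact ⟨hb, fun hi => lt_of_le_of_ne (tri_nonneg _ _) (Ne.symm (h.1 hi)),
        fun hi => lt_of_le_of_ne (tri_nonneg _ _) (Ne.symm (h.2 hi))⟩
  have hWconst : ∀ i, ∀ b ∈ W i, ∀ b' ∈ W i, S (point P i b) = S (point P i b') := by
    intro i b hb b' hb'
    refine const_on (i := i) hS (hWpre i) (fun x hx => hx.1) ?_ hb hb'
    intro x hx hx0
    exact absurd (hZE _ (by rw [point_mem_conePoints]; exact hx.1) hx0) ((hWE i x hx.1).mp hx)
  have hbary : ∀ j, bary.1 j = 1 / 3 := fun j => rfl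
  have hbv : ¬ IsVertex bary := by
    rw [not_isVertex_iff]; intro j; rw [hbary]; norm_num
  have hbW : ∀ i, bary ∈ W i := by
    intro i
    refine ⟨hbv, fun _ => ?_, fun _ => ?_⟩
    · show 0 < bary.1 _; rw [hbary]; norm_num
    · show 0 < bary.1 _; rw [hbary]; norm_num
  let l : Fin n → ℝ := fun i => if S (point P i bary) = 1 then 1 else -1
  have hl : ∀ i, ∀ b ∈ W i, S (point P i b) = SignType.sign (l i) := by
    intro i b hb
    rw [hWconst i b hb bary (hbW i)]
    have h1 : S (point P i bary) ≠ 0 := by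
      intro h
      exact (hWE i bary hbv).mp (hbW i)
        (hZE _ (by rw [point_mem_conePoints]; exact hbv) h)
    show _ = SignType.sign (if S (point P i bary) = 1 then (1 : ℝ) else -1)
    split_ifs with h2
    · rw [h2, sign_pos one_pos]
    · rw [sign_neg (by norm_num)]
      revert h1 h2
      generalize S (point P i bary) = x
      revert x
      decide
  have hl1 : ∀ i, l i = 1 ∨ l i = -1 := by
    intro i
    show (if S (point P i bary) = 1 then (1 : ℝ) else -1) = 1 ∨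
      (if S (point P i bary) = 1 then (1 : ℝ) else -1) = -1
    split_ifs
    · exact Or.inl rfl
    · exact Or.inr rfl
  -- sides of `h₀` and `h₁`
  have hlside : ∀ (h : Side n) (c : ℝ), c ≠ 0 → d = c * e h → (h = h₀ ∨ h = h₁) →
      SignType.sign (l h.1) = SignType.sign c := by
    intro h c hc0 hc hcase
    have hm : (1 / 2 : ℝ) ∈ Set.Ioo (0 : ℝ) 1 := by norm_num
    have h1 := hnear h c hc hcase _ hm
    have h2 : Tendsto (fun t => mix (side h.2 (1 / 2)) bary t) (𝓝[>] 0)
        (𝓝 (side h.2 (1 / 2))) :=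
      ((continuous_mix _ _).tendsto' 0 _ (mix_zero _ _)).mono_left nhdsWithin_le_nhds
    have h3 : ∀ᶠ t in 𝓝[>] (0 : ℝ), t ∈ Set.Ioo (0 : ℝ) 1 := Ioo_mem_nhdsGT zero_lt_one
    obtain ⟨t, ht1, ht2⟩ := ((h2.eventually h1).and h3).exists
    have hIcc : t ∈ Set.Icc (0 : ℝ) 1 := ⟨ht2.1.le, ht2.2.le⟩
    have hcoord : ∀ j, 0 < (mix (side h.2 (1 / 2)) bary t).1 j := by
      intro j
      rw [mix_apply _ _ hIcc, hbary]
      have := tri_nonneg (side h.2 (1 / 2)) j
      have h5 := mul_nonneg (show 0 ≤ 1 - t by linarith [ht2.2]) this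
      linarith [ht2.1]
    have hW : mix (side h.2 (1 / 2)) bary t ∈ W h.1 :=
      ⟨not_isVertex_mix' ⟨ht2.1.le, ht2.2⟩ (not_isVertex_side _ hm),
        fun _ => hcoord _, fun _ => hcoord _⟩
    rw [← hl h.1 _ hW, ht1, mul_comm, sign_pos_mul (hcoord _)]
  refine ⟨l, hl1, ?_, ?_, ?_⟩
  · have h1 := hlside h₀ ρ hρ.ne' hd (Or.inl rfl)
    rw [sign_pos hρ] at h1
    rcases hl1 h₀.1 with h2 | h2
    · exact h2
    · rw [h2, sign_neg (by norm_num)] at h1
      exact absurd h1 (by decide)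
  · have h1 := hlside h₁ _ hcne hd1 (Or.inr rfl)
    rw [sign_neg (show -(ρ / ratio P e h₀) < 0 by have := div_pos hρ hr; linarith)] at h1
    rcases hl1 h₁.1 with h2 | h2
    · rw [h2, sign_pos one_pos] at h1
      exact absurd h1 (by decide)
    · exact h2
  · intro h hn0 hn1
    have hm : (1 / 2 : ℝ) ∈ Set.Ioo (0 : ℝ) 1 := by norm_num
    have hmI : (1 / 2 : ℝ) ∈ Set.Icc (0 : ℝ) 1 := by norm_num
    have hW : ∀ h : Side n, h ≠ h₀ → h ≠ h₁ → side h.2 (1 / 2) ∈ W h.1 := by
      intro h hn0 hn1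
      rw [hWE _ _ (not_isVertex_side _ hm), memE _ _ (not_isVertex_side _ hm)]
      rintro (⟨hi, hc⟩ | ⟨hi, hc⟩)
      · exact hn0 (Prod.ext hi
          (side_unique (not_isVertex_side _ hm) (side_apply _ hmI).2.2 hc))
      · exact hn1 (Prod.ext hi
          (side_unique (not_isVertex_side _ hm) (side_apply _ hmI).2.2 hc))
    have hc2 : P.glue h ≠ h₀ := fun hh => hn1 (by rw [hh₁, ← hh, P.glue_glue])
    have hc3 : P.glue h ≠ h₁ := fun hh => hn0 (by rw [← hh₀, ← hh, P.glue_glue])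
    have h1 := hl _ _ (hW h hn0 hn1)
    have h2 := hl _ _ (hW _ hc2 hc3)
    have h3 := (glued_side (P := P) h hmI).point_eq
    rw [show (1 : ℝ) - 1 / 2 = 1 / 2 by norm_num] at h3
    rw [← h3, h1] at h2
    rcases hl1 h.1 with h4 | h4 <;> rcases hl1 (P.glue h).1 with h5 | h5
    · rw [h4, h5]
    · exfalso
      rw [h4, h5, sign_pos one_pos, sign_neg (by norm_num)] at h2
      exact absurd h2 (by decide)
    · exfalso
      rw [h4, h5, sign_pos one_pos, sign_neg (by norm_num)] at h2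
      exact absurd h2 (by decide)
    · rw [h4, h5]

end Pool.Agent.Dilation
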