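import Pool.Agent.Dilation.Structure

namespace Pool.Agent.Dilation

open Topology Filter

/-- Following an injective partial function on a finite type from a point which is not in its
image, one arrives at a point where it is not defined. -/
lemma chain_aux {α : Type*} [Finite α] (R : α → α → Prop)
    (hinj : ∀ a b c, R a c → R b c → a = b) (x₀ : α) (hx₀ : ∀ a, ¬ R a x₀) :
    ∃ (k : ℕ) (seq : ℕ → α), seq 0 = x₀ ∧ (∀ r < k, R (seq r) (seq (r + 1))) ∧
      (∀ y, ¬ R (seq k) y) ∧ Set.InjOn seq (Set.Iic k) := by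
  classical
  let next : α → α := fun a => if h : ∃ b, R a b then h.choose else a
  have hnext : ∀ a, (∃ b, R a b) → R a (next a) := by
    intro a h
    show R a (if h : ∃ b, R a b then h.choose else a)
    rw [dif_pos h]
    exact h.choose_spec
  let seq : ℕ → α := fun r => next^[r] x₀
  have hseq : ∀ r, seq (r + 1) = next (seq r) := fun r => Function.iterate_succ_apply' next r x₀
  have hdesc : ∀ k, (∀ r < k, R (seq r) (seq (r + 1))) → Set.InjOn seq (Set.Iic k) := by
    intro k hk
    have key : ∀ a b, a < b → b ≤ k → seq a ≠ seq b := by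
      intro a
      induction a with
      | zero =>
        intro b hb hbk hab
        obtain ⟨c, rfl⟩ : ∃ c, b = c + 1 := ⟨b - 1, by omega⟩
        have := hk c (by omega)
        rw [← hab] at this
        exact hx₀ _ this
      | succ a ih =>
        intro b hb hbk hab
        obtain ⟨c, rfl⟩ : ∃ c, b = c + 1 := ⟨b - 1, by omega⟩
        have h1 := hk c (by omega)
        have h2 := hk a (by omega)
        rw [hab] at h2
        exact ih c (by omega) (by omega) (hinj _ _ _ h2 h1)
    intro a ha b hb hab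
    rcases lt_trichotomy a b with h | h | h
    · exact absurd hab (key a b h hb)
    · exact h
    · exact absurd hab.symm (key b a h ha)
  have hex : ∃ k, ∀ y, ¬ R (seq k) y := by
    by_contra hcon
    push Not at hcon
    have hR : ∀ r, R (seq r) (seq (r + 1)) := fun r => by
      rw [hseq]; exact hnext _ (hcon r)
    have hinjective : Function.Injective seq := by
      intro a b hab
      exact hdesc (max a b) (fun r _ => hR r) (le_max_left a b) (le_max_right a b) hab
    exact not_injective_infinite_finite seq hinjective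
  refine ⟨Nat.find hex, seq, rfl, ?_, Nat.find_spec hex, ?_⟩
  · intro r hr
    have := Nat.find_min hex hr
    push Not at this
    rw [hseq]; exact hnext _ this
  · apply hdesc
    intro r hr
    have := Nat.find_min hex hr
    push Not at this
    rw [hseq]; exact hnext _ this

variable {n : ℕ} {P : Pattern n} {e : Side n → ℂ}

/-- The dilation ratio across a side. -/
noncomputable def ratio (P : Pattern n) (e : Side n → ℂ) (h : Side n) : ℝ :=
  ‖e (P.glue h)‖ / ‖e h‖

/-- The change of coordinates across a side. -/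
noncomputable def trans (P : Pattern n) (e : Side n → ℂ) (h : Side n) (z : ℂ) : ℂ :=
  vert e (P.glue h).1 ((P.glue h).2 + 1) + ratio P e h * (z - vert e h.1 h.2)

/-- The developed images of the initial vertex `v₀` along the sides `seq`. -/
noncomputable def dev (P : Pattern n) (e : Side n → ℂ) (v₀ : Side n) (seq : ℕ → Side n) : ℕ → ℂ
  | 0 => vert e v₀.1 v₀.2
  | (r + 1) => trans P e (seq r) (dev P e v₀ seq r)

lemma det_cyc (he : IsShape P e) (i : Fin n) (j : Fin 3) : 0 < det (e (i, j)) (e (i, j + 1)) := by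
  have h := he.closed i
  have h0 := he.pos i
  have h2 : e (i, 2) = -(e (i, 0) + e (i, 1)) := by linear_combination h
  fin_cases j
  · exact h0
  · show 0 < det (e (i, 1)) (e (i, 2))
    have : det (e (i, 1)) (e (i, 2)) = det (e (i, 0)) (e (i, 1)) := by
      rw [h2]; simp only [det, Complex.neg_re, Complex.neg_im, Complex.add_re, Complex.add_im]; ring
    rw [this]; exact h0
  · show 0 < det (e (i, 2)) (e (i, 0))
    have : det (e (i, 2)) (e (i, 0)) = det (e (i, 0)) (e (i, 1)) := by
      rw [h2]; simp only [det, Complex.neg_re, Complex.neg_im, Complex.add_re, Complex.add_im]; ring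
    rw [this]; exact h0

lemma shape_ne_zero (he : IsShape P e) (h : Side n) : e h ≠ 0 := by
  intro h0
  have := det_cyc he h.1 h.2
  rw [show ((h.1, h.2) : Side n) = h from rfl, h0] at this
  simp [det] at this

lemma ratio_pos (he : IsShape P e) (h : Side n) : 0 < ratio P e h := by
  unfold ratio
  have h1 := norm_pos_iff.mpr (shape_ne_zero he h)
  have h2 := norm_pos_iff.mpr (shape_ne_zero he (P.glue h))
  positivity

lemma glue_eq (he : IsShape P e) (h : Side n) : e (P.glue h) = -((ratio P e h : ℂ) * e h) := by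
  obtain ⟨r, hr, h1⟩ := he.parallel h
  have h2 := norm_pos_iff.mpr (shape_ne_zero he h)
  have h3 : ratio P e h = r := by
    unfold ratio
    rw [h1, norm_neg, norm_mul, Complex.norm_real, Real.norm_of_nonneg hr.le]
    field_simp
  rw [h3, h1]

lemma sum_fin3 {M : Type*} [AddCommMonoid M] (f : Fin 3 → M) (j : Fin 3) :
    ∑ k, f k = f j + f (j + 1) + f (j + 2) := by
  rw [Fin.sum_univ_three]
  fin_cases j
  · rfl
  · show f 0 + f 1 + f 2 = f 1 + f 2 + f 0
    abel
  · show f 0 + f 1 + f 2 = f 2 + f 0 + f 1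
    abel

lemma pos_side (he : IsShape P e) (i : Fin n) (j : Fin 3) {t : ℝ} (ht : t ∈ Set.Icc (0 : ℝ) 1) :
    pos e i (side j t) = vert e i j + t * e (i, j) := by
  have h1 := vert_succ he i j
  obtain ⟨h2, h3, h4⟩ := side_apply j ht
  rw [pos_eq, sum_fin3 _ j, h1, h2, h3, h4]
  push_cast
  ring

lemma trans_pos_side (he : IsShape P e) (h : Side n) {t : ℝ} (ht : t ∈ Set.Icc (0 : ℝ) 1) :
    trans P e h (pos e h.1 (side h.2 t)) =
      pos e (P.glue h).1 (side (P.glue h).2 (1 - t)) := by
  have ht' : 1 - t ∈ Set.Icc (0 : ℝ) 1 := ⟨by linarith [ht.2], by linarith [ht.1]⟩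
  rw [pos_side he _ _ ht, pos_side he _ _ ht', trans, vert_succ he,
    show ((P.glue h).1, (P.glue h).2) = P.glue h from rfl, glue_eq he h,
    show ((h.1, h.2) : Side n) = h from rfl]
  push_cast
  ring

lemma exists_real_of_det {d z : ℂ} (hd : d ≠ 0) (h : det d z = 0) : ∃ ρ : ℝ, z = ρ * d := by
  have hn : 0 < d.re * d.re + d.im * d.im := by
    by_contra hc
    apply hd
    have h1 := mul_self_nonneg d.re
    have h2 := mul_self_nonneg d.im
    apply Complex.ext
    · simpa using (mul_self_eq_zero.mp (by linarith : d.re * d.re = 0))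
    · simpa using (mul_self_eq_zero.mp (by linarith : d.im * d.im = 0))
  refine ⟨(d.re * z.re + d.im * z.im) / (d.re * d.re + d.im * d.im), ?_⟩
  simp only [det] at h
  apply Complex.ext
  · rw [Complex.re_ofReal_mul, div_mul_eq_mul_div, eq_div_iff hn.ne']
    linear_combination (-d.im) * h
  · rw [Complex.im_ofReal_mul, div_mul_eq_mul_div, eq_div_iff hn.ne']
    linear_combination d.re * h

/-- If a point `b` outside of the line of the side `h` and a point of this side lie on a line of
direction `d`, the position of `b` is given by the sign of `det (e h) d`. -/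
lemma forward (he : IsShape P e) {d : ℂ} (hd : d ≠ 0) (h : Side n) {t : ℝ}
    (ht : t ∈ Set.Icc (0 : ℝ) 1) {b : Tri} (hb : 0 < b.1 (h.2 + 2))
    (h0 : det d (pos e h.1 b - pos e h.1 (side h.2 t)) = 0) :
    ∃ ρ : ℝ, pos e h.1 b = pos e h.1 (side h.2 t) + ρ * d ∧ 0 < ρ * det (e h) d := by
  obtain ⟨ρ, hρ⟩ := exists_real_of_det hd h0
  refine ⟨ρ, by rw [← hρ]; ring, ?_⟩
  have h1 : 0 < det (e h) (pos e h.1 b - pos e h.1 (side h.2 t)) := by
    rw [det_pos_sub, aff_side _ _ ht, aff_eq _ _ h.2]
    have h2 := vert_succ he h.1 h.2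
    have h3 := vert_succ he h.1 (h.2 + 1)
    rw [(fin3_add h.2).2.1] at h3
    have h4 := det_cyc he h.1 h.2
    rw [show ((h.1, h.2) : Side n) = h from rfl] at h2 h4
    have h5 := tri_sum b h.2
    rw [h3, h2]
    have h6 : b.1 h.2 * det (e h) (vert e h.1 h.2) + b.1 (h.2 + 1) *
        det (e h) (vert e h.1 h.2 + e h) + b.1 (h.2 + 2) *
        det (e h) (vert e h.1 h.2 + e h + e (h.1, h.2 + 1)) -
        ((1 - t) * det (e h) (vert e h.1 h.2) + t * det (e h) (vert e h.1 h.2 + e h)) =
        b.1 (h.2 + 2) * det (e h) (e (h.1, h.2 + 1)) := by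
      simp only [det, Complex.add_re, Complex.add_im]
      linear_combination ((e h).re * (vert e h.1 h.2).im - (e h).im * (vert e h.1 h.2).re) * h5
    rw [h6]
    positivity
  rw [hρ, det_smul_right] at h1
  exact h1


section Chain

variable {d : ℂ} {K : Set (Fin n)} {g : Fin n → Fin 3 → ℝ}

/-- The barrier leaves the triangle `h.1` through the side `h`. -/
def Out (g : Fin n → Fin 3 → ℝ) (h : Side n) : Prop := g h.1 h.2 < 0 ∧ 0 < g h.1 (h.2 + 1)

/-- The barrier enters the triangle `h.1` through the side `h`. -/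
def In (g : Fin n → Fin 3 → ℝ) (h : Side n) : Prop := 0 < g h.1 h.2 ∧ g h.1 (h.2 + 1) < 0

lemma Out.unique {h h' : Side n} (h1 : Out g h) (h2 : Out g h') (hh : h.1 = h'.1) : h = h' := by
  obtain ⟨i, j⟩ := h
  obtain ⟨i', k⟩ := h'
  simp only [Out] at h1 h2 hh
  subst hh
  rcases fin3_cases j k with rfl | rfl | rfl
  · rfl
  · exfalso; linarith [h1.2, h2.1]
  · exfalso
    rw [(fin3_add j).1] at h2
    linarith [h1.1, h2.2]

lemma In.unique {h h' : Side n} (h1 : In g h) (h2 : In g h') (hh : h.1 = h'.1) : h = h' := by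
  obtain ⟨i, j⟩ := h
  obtain ⟨i', k⟩ := h'
  simp only [In] at h1 h2 hh
  subst hh
  rcases fin3_cases j k with rfl | rfl | rfl
  · rfl
  · exfalso; linarith [h1.2, h2.1]
  · exfalso
    rw [(fin3_add j).1] at h2
    linarith [h1.1, h2.2]

lemma mem_K_of_lt (hg : IsComb P e d K g) {i : Fin n} {j j' : Fin 3} (h : g i j < g i j') :
    i ∈ K := by
  by_contra hi
  rcases hg.off i hi with h' | h' <;> (rw [h', h'] at h; exact lt_irrefl _ h)

/-- In a triangle crossed by the barrier there is a side through which it leaves, or it ends at a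
vertex. -/
lemma out_or_end {i : Fin n} (h1 : ∃ j, g i j < 0) (h2 : ∃ j, 0 < g i j) :
    (∃ j, Out g (i, j)) ∨ (∃ j, g i j = 0 ∧ 0 < g i (j + 1) ∧ g i (j + 2) < 0) := by
  obtain ⟨a, ha⟩ := h1
  obtain ⟨b, hb⟩ := h2
  rcases lt_trichotomy (g i (a + 1)) 0 with h | h | h
  · rcases fin3_cases a b with rfl | rfl | rfl
    · exfalso; linarith
    · exfalso; linarith
    · left
      refine ⟨a + 1, h, ?_⟩
      show 0 < g i (a + 1 + 1)
      rw [(fin3_add a).2.1]; exact hb
  · right
    rcases fin3_cases a b with rfl | rfl | rfl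
    · exfalso; linarith
    · exfalso; linarith
    · refine ⟨a + 1, h, ?_, ?_⟩
      · rw [(fin3_add a).2.1]; exact hb
      · rw [(fin3_add a).2.2.1]; exact ha
  · left
    exact ⟨a, ha, h⟩

/-- Computation on a side crossed by the barrier. -/
lemma cross_aux {A B A' B' : ℝ} (hA : A < 0) (hB : 0 < B)
    (h : ∀ t ∈ Set.Ioo (0 : ℝ) 1, SignType.sign ((1 - t) * A + t * B) =
      SignType.sign ((1 - t) * A' + t * B')) :
    A' < 0 ∧ 0 < B' ∧ A' * (B - A) = A * (B' - A') := by
  set t₀ := -A / (B - A) with ht₀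
  have hBA : 0 < B - A := by linarith
  have h0 : t₀ ∈ Set.Ioo (0 : ℝ) 1 := by
    constructor
    · exact div_pos (by linarith) hBA
    · rw [ht₀, div_lt_one hBA]; linarith
  have h1 : (1 - t₀) * A + t₀ * B = 0 := by rw [ht₀]; field_simp; ring
  have h2 := h t₀ h0
  rw [h1, sign_zero] at h2
  have h3 := sign_eq_zero_iff.mp h2.symm
  have h4 : t₀ / 2 ∈ Set.Ioo (0 : ℝ) 1 := ⟨by linarith [h0.1], by linarith [h0.1, h0.2]⟩
  have h5 := h _ h4
  have h6 : (1 - t₀ / 2) * A + t₀ / 2 * B < 0 := by nlinarith [h0.1]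
  rw [sign_neg h6] at h5
  have h7 := sign_eq_neg_one_iff.mp h5.symm
  have h8 : 0 < t₀ / 2 * (B' - A') := by linarith
  have h9 : 0 < B' - A' := by
    rcases (mul_pos_iff.mp h8) with h | h
    · exact h.2
    · linarith [h.1, h4.1]
  have h10 : A' = -t₀ * (B' - A') := by linarith
  have h11 : B' = (1 - t₀) * (B' - A') := by linarith
  refine ⟨?_, ?_, ?_⟩
  · rw [h10]; nlinarith [h0.1]
  · rw [h11]; nlinarith [h0.2]
  · have h12 : A = -t₀ * (B - A) := by linarith
    calc A' * (B - A) = (-t₀ * (B' - A')) * (B - A) := by rw [← h10]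
      _ = (-t₀ * (B - A)) * (B' - A') := by ring
      _ = A * (B' - A') := by rw [← h12]

lemma Out.glue (he : IsShape P e) (hg : IsComb P e d K g) {h : Side n} (h1 : Out g h) :
    In g (P.glue h) ∧ g (P.glue h).1 ((P.glue h).2 + 1) = ratio P e h * g h.1 h.2 ∧
      g (P.glue h).1 (P.glue h).2 = ratio P e h * g h.1 (h.2 + 1) := by
  obtain ⟨h2, h3, h4⟩ := cross_aux h1.1 h1.2 (hg.compat h)
  have hK := mem_K_of_lt hg (h1.1.trans h1.2)
  have hK' := mem_K_of_lt hg (h2.trans h3)
  have h5 := hg.grad _ hK h.2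
  have h6 := hg.grad _ hK' (P.glue h).2
  rw [show ((P.glue h).1, (P.glue h).2) = P.glue h from rfl, glue_eq he h] at h6
  rw [show ((h.1, h.2) : Side n) = h from rfl] at h5
  have h7 : det d (-((ratio P e h : ℂ) * e h)) = -(ratio P e h * det d (e h)) := by
    simp only [det, Complex.neg_re, Complex.neg_im, Complex.re_ofReal_mul, Complex.im_ofReal_mul]
    ring
  rw [h7] at h6
  have hpos : 0 < g h.1 (h.2 + 1) - g h.1 h.2 := by linarith [h1.1, h1.2]
  have h8 : g (P.glue h).1 ((P.glue h).2 + 1) = ratio P e h * g h.1 h.2 := by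
    have : g (P.glue h).1 ((P.glue h).2 + 1) * (g h.1 (h.2 + 1) - g h.1 h.2) =
        (ratio P e h * g h.1 h.2) * (g h.1 (h.2 + 1) - g h.1 h.2) := by
      rw [h4]
      have h9 : g (P.glue h).1 (P.glue h).2 - g (P.glue h).1 ((P.glue h).2 + 1) =
          ratio P e h * (g h.1 (h.2 + 1) - g h.1 h.2) := by rw [h5]; linarith
      rw [h9]; ring
    exact mul_right_cancel₀ hpos.ne' this
  refine ⟨⟨h3, h2⟩, h8, ?_⟩
  have h9 : g (P.glue h).1 (P.glue h).2 - g (P.glue h).1 ((P.glue h).2 + 1) =
      ratio P e h * (g h.1 (h.2 + 1) - g h.1 h.2) := by rw [h5]; linarith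
  rw [h8] at h9
  linarith

lemma In.glue (hg : IsComb P e d K g) {h : Side n} (h1 : In g h) : Out g (P.glue h) := by
  have := cross_aux (A := -g h.1 h.2) (B := -g h.1 (h.2 + 1))
    (A' := -g (P.glue h).1 ((P.glue h).2 + 1)) (B' := -g (P.glue h).1 (P.glue h).2)
    (by linarith [h1.1]) (by linarith [h1.2]) (by
      intro t ht
      have h2 := hg.compat h t ht
      have h3 : (1 - t) * -g h.1 h.2 + t * -g h.1 (h.2 + 1) =
          -((1 - t) * g h.1 h.2 + t * g h.1 (h.2 + 1)) := by ring
      have h4 : (1 - t) * -g (P.glue h).1 ((P.glue h).2 + 1) + t * -g (P.glue h).1 (P.glue h).2 =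
          -((1 - t) * g (P.glue h).1 ((P.glue h).2 + 1) + t * g (P.glue h).1 (P.glue h).2) := by
        ring
      rw [h3, h4, Left.sign_neg, Left.sign_neg, h2])
  exact ⟨by linarith [this.2.1], by linarith [this.1]⟩

lemma grad' (he : IsShape P e) (hg : IsComb P e d K g) {i : Fin n} (hi : i ∈ K) (j j' : Fin 3) :
    g i j - g i j' = det d (vert e i j - vert e i j') := by
  have key : ∀ j, g i j - g i 0 = det d (vert e i j - vert e i 0) := by
    have e1 := vert_succ he i 0
    have e2 := vert_succ he i 1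
    have g0 := hg.grad i hi 0
    have g1 := hg.grad i hi 1
    rw [zero_add] at e1 g0
    rw [show (1 : Fin 3) + 1 = 2 from rfl] at e2 g1
    intro j
    fin_cases j
    · show g i 0 - g i 0 = det d (vert e i 0 - vert e i 0)
      simp [det]
    · show g i 1 - g i 0 = det d (vert e i 1 - vert e i 0)
      rw [g0, e1]; congr 1; ring
    · show g i 2 - g i 0 = det d (vert e i 2 - vert e i 0)
      have : det d (vert e i 2 - vert e i 0) = det d (e (i, 0)) + det d (e (i, 1)) := by
        rw [e2, e1]
        simp only [det, Complex.add_re, Complex.add_im, Complex.sub_re, Complex.sub_im]; ring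
      rw [this]; linarith
  have h1 := key j
  have h2 := key j'
  have : det d (vert e i j - vert e i j') =
      det d (vert e i j - vert e i 0) - det d (vert e i j' - vert e i 0) := by
    simp only [det, Complex.sub_re, Complex.sub_im]; ring
  rw [this]; linarith

end Chain

end Pool.Agent.Dilation
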