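import Pool.Agent.Dilation.Chain

namespace Pool.Agent.Dilation

open Topology Filter

variable {n : ℕ} {P : Pattern n} {e : Side n → ℂ} {d : ℂ} {K : Set (Fin n)}
  {g : Fin n → Fin 3 → ℝ}

lemma det_pos_eq (he : IsShape P e) (hg : IsComb P e d K g) {i : Fin n} (hi : i ∈ K) (b b' : Tri) :
    det d (pos e i b - pos e i b') = aff (g i) b - aff (g i) b' := by
  rw [det_pos_sub]
  have h : ∀ j, g i j = det d (vert e i j) + (g i 0 - det d (vert e i 0)) := by
    intro j
    have h1 := grad' he hg hi j 0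
    have h2 : det d (vert e i j - vert e i 0) = det d (vert e i j) - det d (vert e i 0) := by
      simp only [det, Complex.sub_re, Complex.sub_im]; ring
    linarith
  have hs : b.1 0 + b.1 1 + b.1 2 = 1 := tri_sum b 0
  have hs' : b'.1 0 + b'.1 1 + b'.1 2 = 1 := tri_sum b' 0
  simp only [aff, Fin.sum_univ_three]
  rw [h 1, h 2]
  linear_combination (-(g i 0 - det d (vert e i 0))) * hs + (g i 0 - det d (vert e i 0)) * hs'

lemma pos_vtx (e : Side n → ℂ) (i : Fin n) (j : Fin 3) : pos e i (vtx j) = vert e i j := by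
  rw [pos_eq, sum_fin3 _ j, vtx_self, vtx_ne (fin3_ne j).1.symm, vtx_ne (fin3_ne j).2.1.symm]
  simp

lemma Out.exists_zero {h : Side n} (h1 : Out g h) :
    ∃ t ∈ Set.Ioo (0 : ℝ) 1, (1 - t) * g h.1 h.2 + t * g h.1 (h.2 + 1) = 0 := by
  obtain ⟨hA, hB⟩ := h1
  have hBA : 0 < g h.1 (h.2 + 1) - g h.1 h.2 := by linarith
  refine ⟨-g h.1 h.2 / (g h.1 (h.2 + 1) - g h.1 h.2), ⟨?_, ?_⟩, ?_⟩
  · exact div_pos (by linarith) hBA
  · rw [div_lt_one hBA]; linarith
  · field_simp; ring

lemma det_comm (z w : ℂ) : det z w = -det w z := by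
  simp only [det]; ring

/-- The chain of triangles crossed by a barrier. -/
structure Chain (P : Pattern n) (e : Side n → ℂ) (d : ℂ) (g : Fin n → Fin 3 → ℝ) (i₀ : Fin n)
    (j₀ : Fin 3) (k : ℕ) (seq : ℕ → Side n) (tri : ℕ → Fin n) (j₁ : Fin 3) (ρ : ℝ) : Prop where
  bound : k < 3 * n
  tri_zero : tri 0 = i₀
  seq_zero : seq 0 = (i₀, j₀ + 1)
  seq_tri : ∀ r ≤ k, (seq r).1 = tri r
  glue_tri : ∀ r ≤ k, (P.glue (seq r)).1 = tri (r + 1)
  inj : Set.InjOn tri (Set.Iic (k + 1))
  out : ∀ r ≤ k, Out g (seq r)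
  no_out : ∀ h : Side n, h.1 = tri (k + 1) → ¬ Out g h
  nonzero : ∀ r, 0 < r → r ≤ k → ∀ j, g (tri r) j ≠ 0
  end_zero : g (tri (k + 1)) j₁ = 0
  end_pos : 0 < g (tri (k + 1)) (j₁ + 1)
  end_neg : g (tri (k + 1)) (j₁ + 2) < 0
  rho_pos : 0 < ρ
  end_dev : vert e (tri (k + 1)) j₁ = dev P e (i₀, j₀) seq (k + 1) + ρ * d
  dev_eq : ∀ r ≤ k + 1, ∀ j, g (tri r) j = det d (vert e (tri r) j - dev P e (i₀, j₀) seq r)

theorem exists_chain (he : IsShape P e) (hg : IsComb P e d K g) (hd : d ≠ 0)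
    (hK : ∀ i ∈ K, (∃ j, g i j < 0) ∧ (∃ j, 0 < g i j)) {i₀ : Fin n} {j₀ : Fin 3}
    (h0 : g i₀ j₀ = 0) (h1 : g i₀ (j₀ + 1) < 0) (h2 : 0 < g i₀ (j₀ + 2)) :
    ∃ k seq tri j₁ ρ, Chain P e d g i₀ j₀ k seq tri j₁ ρ := by
  obtain ⟨k, seq, hs0, hsR, hsend, hinj⟩ := chain_aux
    (fun h h' : Side n => Out g h ∧ Out g h' ∧ h'.1 = (P.glue h).1) (by
      rintro a b c ⟨ha, hc, hac⟩ ⟨hb, _, hbc⟩
      have h3 := (ha.glue he hg).1
      have h4 := (hb.glue he hg).1
      have := h3.unique h4 (hac.symm.trans hbc)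
      rw [← P.glue_glue a, this, P.glue_glue]) (i₀, j₀ + 1) (by
      rintro a ⟨ha, _, ha'⟩
      have h3 := (ha.glue he hg).1
      obtain ⟨h4, h5⟩ := h3
      rw [← ha'] at h4 h5
      change 0 < g i₀ _ at h4
      change g i₀ _ < 0 at h5
      rcases fin3_cases j₀ (P.glue a).2 with h | h | h
      · rw [h] at h4; linarith
      · rw [h] at h4; linarith
      · rw [h, (fin3_add j₀).1] at h5; linarith)
  have hout : ∀ r ≤ k, Out g (seq r) := by
    intro r hr
    rcases Nat.eq_zero_or_pos r with h | h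
    · subst h
      rw [hs0]
      refine ⟨h1, ?_⟩
      show 0 < g i₀ (j₀ + 1 + 1)
      rw [(fin3_add j₀).2.1]; exact h2
    · obtain ⟨c, rfl⟩ : ∃ c, r = c + 1 := ⟨r - 1, by omega⟩
      exact (hsR c (by omega)).2.1
  let tri : ℕ → Fin n := fun r => match r with
    | 0 => i₀
    | (r + 1) => (P.glue (seq r)).1
  have htri0 : tri 0 = i₀ := rfl
  have htri : ∀ r, tri (r + 1) = (P.glue (seq r)).1 := fun r => rfl
  have hseq : ∀ r ≤ k, (seq r).1 = tri r := by
    intro r hr
    rcases Nat.eq_zero_or_pos r with h | h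
    · subst h; rw [hs0]
    · obtain ⟨c, rfl⟩ : ∃ c, r = c + 1 := ⟨r - 1, by omega⟩
      rw [htri, (hsR c (by omega)).2.2]
  have hno : ∀ h : Side n, h.1 = tri (k + 1) → ¬ Out g h := by
    intro h hh hho
    exact hsend h ⟨hout k le_rfl, hho, hh⟩
  have hendK : tri (k + 1) ∈ K := by
    have := ((hout k le_rfl).glue he hg).1
    exact mem_K_of_lt hg (this.2.trans this.1)
  obtain ⟨j₁, hj1, hj2, hj3⟩ : ∃ j, g (tri (k + 1)) j = 0 ∧ 0 < g (tri (k + 1)) (j + 1) ∧
      g (tri (k + 1)) (j + 2) < 0 := by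
    rcases out_or_end (hK _ hendK).1 (hK _ hendK).2 with ⟨j, hj⟩ | h
    · exact absurd hj (hno _ rfl)
    · exact h
  have htinj : Set.InjOn tri (Set.Iic (k + 1)) := by
    have key : ∀ a b, a < b → b ≤ k + 1 → tri a ≠ tri b := by
      intro a b hab hbk hh
      rcases Nat.lt_or_ge k b with hb | hb
      · have hbk' : b = k + 1 := by omega
        subst hbk'
        exact hno (seq a) (by rw [hseq a (by omega), hh]) (hout a (by omega))
      · have h3 := (hout a (by omega)).unique (hout b hb)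
          (by rw [hseq a (by omega), hseq b hb, hh])
        have := hinj (show a ∈ Set.Iic k by simp; omega) (show b ∈ Set.Iic k from hb) h3
        omega
    intro a ha b hb hab
    rcases lt_trichotomy a b with h | h | h
    · exact absurd hab (key a b h hb)
    · exact h
    · exact absurd hab.symm (key b a h ha)
  have hbound : k < 3 * n := by
    have h3 : (Finset.range (k + 1)).card ≤ (Finset.univ : Finset (Side n)).card := by
      apply Finset.card_le_card_of_injOn seq (fun _ _ => Finset.mem_coe.mpr (Finset.mem_univ _))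
      intro a ha b hb hab
      rw [Finset.coe_range] at ha hb
      exact hinj (show a ∈ Set.Iic k from Nat.lt_succ_iff.mp ha)
        (show b ∈ Set.Iic k from Nat.lt_succ_iff.mp hb) hab
    simp only [Finset.card_range, Finset.card_univ, Fintype.card_prod, Fintype.card_fin] at h3
    omega
  have hdev : ∀ r ≤ k + 1, ∀ j, g (tri r) j =
      det d (vert e (tri r) j - dev P e (i₀, j₀) seq r) := by
    intro r
    induction r with
    | zero =>
      intro _ j
      have hi₀ : i₀ ∈ K := mem_K_of_lt hg (h1.trans h2)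
      have := grad' he hg hi₀ j j₀
      rw [h0, sub_zero] at this
      exact this
    | succ r ih =>
      intro hr j
      have hrk : r ≤ k := by omega
      have ho := hout r hrk
      obtain ⟨h3, h4, _⟩ := ho.glue he hg
      have hK' : tri (r + 1) ∈ K := mem_K_of_lt hg (h3.2.trans h3.1)
      have h5 := grad' he hg hK' j ((P.glue (seq r)).2 + 1)
      have h6 := ih (by omega) (seq r).2
      rw [← hseq r hrk] at h6
      rw [show dev P e (i₀, j₀) seq (r + 1) =
        vert e (P.glue (seq r)).1 ((P.glue (seq r)).2 + 1) + ratio P e (seq r) *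
          (dev P e (i₀, j₀) seq r - vert e (seq r).1 (seq r).2) from rfl]
      have h7 : g (tri (r + 1)) j = det d (vert e (tri (r + 1)) j -
          vert e (tri (r + 1)) ((P.glue (seq r)).2 + 1)) +
          ratio P e (seq r) * det d (vert e (seq r).1 (seq r).2 - dev P e (i₀, j₀) seq r) := by
        rw [← h5, ← h6, ← h4]
        show _ = g (tri (r + 1)) j - g (tri (r + 1)) ((P.glue (seq r)).2 + 1) +
          g (tri (r + 1)) ((P.glue (seq r)).2 + 1)
        ring
      rw [h7, ← det_smul_right]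
      simp only [det, Complex.sub_re, Complex.sub_im, Complex.add_re, Complex.add_im,
        Complex.re_ofReal_mul, Complex.im_ofReal_mul, htri]
      ring
  have hfwd : ∀ r ≤ k, ∃ t ∈ Set.Ioo (0 : ℝ) 1, ∃ ρ : ℝ, 0 < ρ ∧
      (1 - t) * g (seq r).1 (seq r).2 + t * g (seq r).1 ((seq r).2 + 1) = 0 ∧
      pos e (seq r).1 (side (seq r).2 t) = dev P e (i₀, j₀) seq r + ρ * d := by
    intro r
    induction r with
    | zero =>
      intro hr
      have ho := hout 0 hr
      obtain ⟨t, ht, ht0⟩ := ho.exists_zero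
      have ht' : t ∈ Set.Icc (0 : ℝ) 1 := ⟨ht.1.le, ht.2.le⟩
      have hi₀ : (seq 0).1 ∈ K := mem_K_of_lt hg (ho.1.trans ho.2)
      have hdet : det d (pos e (seq 0).1 (vtx j₀) - pos e (seq 0).1 (side (seq 0).2 t)) = 0 := by
        rw [det_pos_eq he hg hi₀, aff_side _ _ ht', ht0, aff_vtx, hs0, sub_zero]
        exact h0
      have hb : 0 < (vtx j₀).1 ((seq 0).2 + 2) := by
        rw [hs0]
        show 0 < (vtx j₀).1 (j₀ + 1 + 2)
        rw [(fin3_add j₀).2.2.1, vtx_self]; exact one_pos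
      obtain ⟨ρ, hρ, hρ'⟩ := forward he hd (seq 0) ht' hb hdet
      have hgr := hg.grad _ hi₀ (seq 0).2
      rw [det_comm, show (((seq 0).1, (seq 0).2) : Side n) = seq 0 from rfl] at hgr
      have hneg : det (e (seq 0)) d < 0 := by linarith [ho.1, ho.2]
      refine ⟨t, ht, -ρ, ?_, ht0, ?_⟩
      · nlinarith
      · have : pos e (seq 0).1 (vtx j₀) = dev P e (i₀, j₀) seq 0 := by
          rw [pos_vtx, hs0]; rfl
        rw [← this, hρ]; push_cast; ring
    | succ r ih =>
      intro hr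
      obtain ⟨t, ht, ρ, hρ0, ht0, hpos⟩ := ih (by omega)
      have ht' : t ∈ Set.Icc (0 : ℝ) 1 := ⟨ht.1.le, ht.2.le⟩
      have ht1 : 1 - t ∈ Set.Ioo (0 : ℝ) 1 := ⟨by linarith [ht.2], by linarith [ht.1]⟩
      have ht1' : 1 - t ∈ Set.Icc (0 : ℝ) 1 := ⟨ht1.1.le, ht1.2.le⟩
      have hor := hout r (by omega)
      obtain ⟨hin, hgl1, hgl2⟩ := hor.glue he hg
      have ho := hout (r + 1) hr
      obtain ⟨t₂, ht₂, ht₂0⟩ := ho.exists_zero
      have ht₂' : t₂ ∈ Set.Icc (0 : ℝ) 1 := ⟨ht₂.1.le, ht₂.2.le⟩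
      have hi : (seq (r + 1)).1 ∈ K := mem_K_of_lt hg (ho.1.trans ho.2)
      have hsame : (seq (r + 1)).1 = (P.glue (seq r)).1 := by rw [hseq _ hr, htri]
      have hne : (P.glue (seq r)).2 ≠ (seq (r + 1)).2 := by
        intro hh
        have : P.glue (seq r) = seq (r + 1) := Prod.ext hsame.symm hh
        rw [this] at hin
        linarith [hin.1, ho.1]
      have hb : 0 < (side (P.glue (seq r)).2 (1 - t)).1 ((seq (r + 1)).2 + 2) := by
        rcases eq_or_lt_of_le (tri_nonneg (side (P.glue (seq r)).2 (1 - t))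
          ((seq (r + 1)).2 + 2)) with h | h
        · exact absurd (side_unique (not_isVertex_side _ ht1) (side_apply _ ht1').2.2 h.symm) hne
        · exact h
      have hdet : det d (pos e (seq (r + 1)).1 (side (P.glue (seq r)).2 (1 - t)) -
          pos e (seq (r + 1)).1 (side (seq (r + 1)).2 t₂)) = 0 := by
        rw [det_pos_eq he hg hi, aff_side _ _ ht₂', ht₂0, aff_side _ _ ht1', hsame, hgl1, hgl2]
        linear_combination ratio P e (seq r) * ht0
      obtain ⟨ρ₂, hρ₂, hρ₂'⟩ := forward he hd (seq (r + 1)) ht₂' hb hdet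
      have hgr := hg.grad _ hi (seq (r + 1)).2
      rw [det_comm, show (((seq (r + 1)).1, (seq (r + 1)).2) : Side n) = seq (r + 1) from rfl]
        at hgr
      have hneg : det (e (seq (r + 1))) d < 0 := by linarith [ho.1, ho.2]
      have hρ₂neg : ρ₂ < 0 := by nlinarith
      have hr0 := ratio_pos he (seq r)
      refine ⟨t₂, ht₂, ratio P e (seq r) * ρ - ρ₂, ?_, ht₂0, ?_⟩
      · nlinarith [mul_pos hr0 hρ0]
      · have h8 : pos e (seq (r + 1)).1 (side (P.glue (seq r)).2 (1 - t)) =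
            dev P e (i₀, j₀) seq (r + 1) + ratio P e (seq r) * ρ * d := by
          rw [hsame, ← trans_pos_side he _ ht', hpos]
          show vert e (P.glue (seq r)).1 ((P.glue (seq r)).2 + 1) + ratio P e (seq r) *
            (dev P e (i₀, j₀) seq r + ρ * d - vert e (seq r).1 (seq r).2) =
            vert e (P.glue (seq r)).1 ((P.glue (seq r)).2 + 1) + ratio P e (seq r) *
            (dev P e (i₀, j₀) seq r - vert e (seq r).1 (seq r).2) + ratio P e (seq r) * ρ * d
          ring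
        rw [h8] at hρ₂
        push_cast
        linear_combination -hρ₂
  -- the last triangle
  obtain ⟨t, ht, ρ, hρ0, ht0, hpos⟩ := hfwd k le_rfl
  have ht' : t ∈ Set.Icc (0 : ℝ) 1 := ⟨ht.1.le, ht.2.le⟩
  have ht1 : 1 - t ∈ Set.Ioo (0 : ℝ) 1 := ⟨by linarith [ht.2], by linarith [ht.1]⟩
  have ht1' : 1 - t ∈ Set.Icc (0 : ℝ) 1 := ⟨ht1.1.le, ht1.2.le⟩
  obtain ⟨hin, hgl1, hgl2⟩ := (hout k le_rfl).glue he hg
  have hj₁ : j₁ = (P.glue (seq k)).2 + 2 := by
    rcases fin3_cases (P.glue (seq k)).2 j₁ with h | h | h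
    · exfalso; have := hin.1; rw [← h] at this; linarith
    · exfalso; have := hin.2; rw [← h] at this; linarith
    · exact h
  have hb : 0 < (vtx j₁).1 ((P.glue (seq k)).2 + 2) := by
    rw [← hj₁, vtx_self]; exact one_pos
  have hdet : det d (pos e (P.glue (seq k)).1 (vtx j₁) -
      pos e (P.glue (seq k)).1 (side (P.glue (seq k)).2 (1 - t))) = 0 := by
    rw [det_pos_eq he hg hendK, aff_vtx, aff_side _ _ ht1', hgl1, hgl2, show
      g (P.glue (seq k)).1 j₁ = 0 from hj1]
    linear_combination -ratio P e (seq k) * ht0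
  obtain ⟨ρ₂, hρ₂, hρ₂'⟩ := forward he hd (P.glue (seq k)) ht1' hb hdet
  have hgr := hg.grad _ hendK (P.glue (seq k)).2
  rw [det_comm] at hgr
  change _ = -det (e (P.glue (seq k))) d at hgr
  have hpos' : 0 < det (e (P.glue (seq k))) d := by
    have h3 : g (tri (k + 1)) ((P.glue (seq k)).2 + 1) < 0 := hin.2
    have h4 : 0 < g (tri (k + 1)) (P.glue (seq k)).2 := hin.1
    linarith
  have hρ₂pos : 0 < ρ₂ := by
    rcases mul_pos_iff.mp hρ₂' with h | h
    · exact h.1
    · linarith [h.2]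
  have hr0 := ratio_pos he (seq k)
  refine ⟨k, seq, tri, j₁, ratio P e (seq k) * ρ + ρ₂, ?_⟩
  refine ⟨hbound, htri0, hs0, hseq, fun r _ => rfl, htinj, hout, hno, ?_, hj1, hj2, hj3, ?_, ?_,
    hdev⟩
  · intro r hr hrk j
    obtain ⟨c, rfl⟩ : ∃ c, r = c + 1 := ⟨r - 1, by omega⟩
    have h3 := ((hout c (by omega)).glue he hg).1
    have h4 := hout (c + 1) hrk
    have hsame : (seq (c + 1)).1 = (P.glue (seq c)).1 := by rw [hseq _ hrk, htri]
    rw [← hseq _ hrk]
    obtain ⟨h5, h6⟩ := h3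
    obtain ⟨h7, h8⟩ := h4
    rw [← hsame] at h5 h6
    rcases fin3_cases (seq (c + 1)).2 j with rfl | rfl | rfl
    · exact h7.ne
    · exact h8.ne'
    · rcases fin3_cases (seq (c + 1)).2 (P.glue (seq c)).2 with h | h | h
      · rw [h] at h5; linarith
      · rw [h, (fin3_add _).2.1] at h6; exact h6.ne
      · rw [h] at h5; exact h5.ne'
  · have := mul_pos hr0 hρ0
    linarith
  · rw [pos_vtx] at hρ₂
    show vert e (P.glue (seq k)).1 j₁ = _
    rw [hρ₂, ← trans_pos_side he _ ht', hpos]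
    show vert e (P.glue (seq k)).1 ((P.glue (seq k)).2 + 1) + ratio P e (seq k) *
            (dev P e (i₀, j₀) seq k + ρ * d - vert e (seq k).1 (seq k).2) + ρ₂ * d =
            vert e (P.glue (seq k)).1 ((P.glue (seq k)).2 + 1) + ratio P e (seq k) *
            (dev P e (i₀, j₀) seq k - vert e (seq k).1 (seq k).2) +
            ((ratio P e (seq k) * ρ + ρ₂ : ℝ) : ℂ) * d
    push_cast
    ring

end Pool.Agent.Dilation
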