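import Pool.Agent.Dilation.Barrier

namespace Pool.Agent.Dilation

open Topology Filter

/-! ### Points of the triangle -/

/-- The affine function on the triangle with given vertex values. -/
def aff (g : Fin 3 → ℝ) (b : Tri) : ℝ := ∑ j, b.1 j * g j

lemma aff_eq (g : Fin 3 → ℝ) (b : Tri) (j : Fin 3) :
    aff g b = b.1 j * g j + b.1 (j + 1) * g (j + 1) + b.1 (j + 2) * g (j + 2) := by
  rw [aff, Fin.sum_univ_three]
  fin_cases j
  · rfl
  · show _ = b.1 1 * g 1 + b.1 2 * g 2 + b.1 0 * g 0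
    ring
  · show _ = b.1 2 * g 2 + b.1 0 * g 0 + b.1 1 * g 1
    ring

lemma continuous_aff (g : Fin 3 → ℝ) : Continuous (aff g) := by
  unfold aff
  exact continuous_finsetSum _ fun j _ => (continuous_coord j).mul continuous_const

lemma tri_le_one (b : Tri) (j : Fin 3) : b.1 j ≤ 1 := by
  have h1 := tri_sum b j
  have h2 := tri_nonneg b (j + 1)
  have h3 := tri_nonneg b (j + 2)
  linarith

lemma not_isVertex_iff (b : Tri) : ¬ IsVertex b ↔ ∀ j, b.1 j < 1 := by
  unfold IsVertex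
  push Not
  exact ⟨fun h j => lt_of_le_of_ne (tri_le_one b j) (h j), fun h j => (h j).ne⟩

/-- The set of non-vertex points of the triangle lying in a convex set is preconnected. -/
lemma preconn_tri {s : Set (Fin 3 → ℝ)} (hs : Convex ℝ s) :
    IsPreconnected {b : Tri | ¬ IsVertex b ∧ b.1 ∈ s} := by
  rw [← Topology.IsInducing.subtypeVal.isPreconnected_image]
  have : Subtype.val '' {b : Tri | ¬ IsVertex b ∧ b.1 ∈ s} =
      stdSimplex ℝ (Fin 3) ∩ (⋂ j, {x : Fin 3 → ℝ | x j < 1}) ∩ s := by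
    ext x
    constructor
    · rintro ⟨b, ⟨h1, h2⟩, rfl⟩
      rw [not_isVertex_iff] at h1
      exact ⟨⟨b.2, Set.mem_iInter.mpr h1⟩, h2⟩
    · rintro ⟨⟨h1, h2⟩, h3⟩
      refine ⟨⟨x, h1⟩, ⟨?_, h3⟩, rfl⟩
      rw [not_isVertex_iff]
      exact fun j => Set.mem_iInter.mp h2 j
  rw [this]
  apply Convex.isPreconnected
  refine Convex.inter (Convex.inter (convex_stdSimplex ℝ (Fin 3)) (convex_iInter fun j => ?_)) hs
  exact convex_halfSpace_lt (LinearMap.isLinear (LinearMap.proj j)) 1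

lemma convex_aff (g : Fin 3 → ℝ) {I : Set ℝ} (hI : Convex ℝ I) :
    Convex ℝ {x : Fin 3 → ℝ | ∑ j, x j * g j ∈ I} := by
  intro x hx y hy a b ha hb hab
  have := hI hx hy ha hb hab
  show ∑ j, (a • x + b • y) j * g j ∈ I
  convert this using 1
  simp only [Pi.add_apply, Pi.smul_apply, smul_eq_mul, Finset.mul_sum]
  rw [← Finset.sum_add_distrib]
  apply Finset.sum_congr rfl
  intro j _
  ring

/-- The convex combination `(1 - t) a + t b` (for `t ∈ [0, 1]`). -/
noncomputable def mix (a b : Tri) (t : ℝ) : Tri :=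
  ⟨fun j => (1 - (Set.projIcc (0 : ℝ) 1 zero_le_one t : ℝ)) * a.1 j +
      (Set.projIcc (0 : ℝ) 1 zero_le_one t : ℝ) * b.1 j, by
    have h0 := (Set.projIcc (0 : ℝ) 1 zero_le_one t).2
    refine ⟨fun j => ?_, ?_⟩
    · have := a.2.1 j
      have := b.2.1 j
      have : 0 ≤ 1 - (Set.projIcc (0 : ℝ) 1 zero_le_one t : ℝ) := by linarith [h0.2]
      have := h0.1
      positivity
    · rw [Finset.sum_add_distrib, ← Finset.mul_sum, ← Finset.mul_sum, a.2.2, b.2.2]
      ring⟩

lemma mix_apply (a b : Tri) {t : ℝ} (ht : t ∈ Set.Icc (0 : ℝ) 1) (j : Fin 3) :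
    (mix a b t).1 j = (1 - t) * a.1 j + t * b.1 j := by
  simp only [mix, Set.projIcc_of_mem zero_le_one ht]

lemma continuous_mix (a b : Tri) : Continuous (mix a b) := by
  unfold mix
  apply Continuous.subtype_mk
  apply continuous_pi
  intro j
  have : Continuous fun t : ℝ => (Set.projIcc (0 : ℝ) 1 zero_le_one t : ℝ) :=
    continuous_subtype_val.comp continuous_projIcc
  fun_prop

lemma aff_mix (g : Fin 3 → ℝ) (a b : Tri) {t : ℝ} (ht : t ∈ Set.Icc (0 : ℝ) 1) :
    aff g (mix a b t) = (1 - t) * aff g a + t * aff g b := by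
  simp only [aff, mix_apply a b ht, Finset.mul_sum]
  rw [← Finset.sum_add_distrib]
  apply Finset.sum_congr rfl
  intro j _
  ring

lemma mix_zero (a b : Tri) : mix a b 0 = a := by
  apply Subtype.ext; funext j
  rw [mix_apply a b ⟨le_rfl, zero_le_one⟩]; ring

lemma mix_one (a b : Tri) : mix a b 1 = b := by
  apply Subtype.ext; funext j
  rw [mix_apply a b ⟨zero_le_one, le_rfl⟩]; ring

/-- Interior points of a segment are vertices only if the segment is reduced to a vertex. -/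
lemma not_isVertex_mix {a b : Tri} {t : ℝ} (ht : t ∈ Set.Ioo (0 : ℝ) 1) (hab : a ≠ b) :
    ¬ IsVertex (mix a b t) := by
  rintro ⟨j, hj⟩
  rw [mix_apply a b ⟨ht.1.le, ht.2.le⟩] at hj
  have h1 := tri_le_one a j
  have h2 := tri_le_one b j
  obtain ⟨h3, h4⟩ := ht
  have h5 : (1 - t) * (1 - a.1 j) + t * (1 - b.1 j) = 0 := by linarith
  have h6 : 0 ≤ (1 - t) * (1 - a.1 j) := mul_nonneg (by linarith) (by linarith)
  have h7 : 0 ≤ t * (1 - b.1 j) := mul_nonneg (by linarith) (by linarith)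
  have h8 : (1 - t) * (1 - a.1 j) = 0 := by linarith
  have h9 : t * (1 - b.1 j) = 0 := by linarith
  have h10 : a.1 j = 1 := by
    rcases mul_eq_zero.mp h8 with h | h <;> linarith
  have h11 : b.1 j = 1 := by
    rcases mul_eq_zero.mp h9 with h | h <;> linarith
  exact hab (isVertex_eq h10 h11)

lemma not_isVertex_mix' {a b : Tri} {t : ℝ} (ht : t ∈ Set.Ico (0 : ℝ) 1) (ha : ¬ IsVertex a) :
    ¬ IsVertex (mix a b t) := by
  rcases eq_or_lt_of_le ht.1 with h | h
  · rw [← h, mix_zero]; exact ha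
  · by_cases hab : a = b
    · rintro ⟨j, hj⟩
      apply ha
      refine ⟨j, ?_⟩
      rw [mix_apply a b ⟨ht.1, ht.2.le⟩, ← hab] at hj
      linarith
    · exact not_isVertex_mix ⟨h, ht.2⟩ hab

/-- The `j`-th vertex. -/
noncomputable def vtx (j : Fin 3) : Tri := ⟨Pi.single j 1, single_mem_stdSimplex ℝ j⟩

lemma vtx_self (j : Fin 3) : (vtx j).1 j = 1 := by simp [vtx]

lemma vtx_ne {j k : Fin 3} (h : k ≠ j) : (vtx j).1 k = 0 := by simp [vtx, h]

lemma isVertex_vtx (j : Fin 3) : IsVertex (vtx j) := ⟨j, vtx_self j⟩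

lemma aff_vtx (g : Fin 3 → ℝ) (j : Fin 3) : aff g (vtx j) = g j := by
  rw [aff_eq g _ j, vtx_self, vtx_ne (fin3_ne j).1.symm, vtx_ne (fin3_ne j).2.1.symm]
  ring

/-- The point of the `j`-th side with parameter `t`. -/
noncomputable def side (j : Fin 3) (t : ℝ) : Tri := mix (vtx j) (vtx (j + 1)) t

lemma vtx_injective {j k : Fin 3} (h : vtx j = vtx k) : j = k := by
  by_contra hne
  have h1 := vtx_self j
  rw [h, vtx_ne hne] at h1
  norm_num at h1

lemma side_apply (j : Fin 3) {t : ℝ} (ht : t ∈ Set.Icc (0 : ℝ) 1) :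
    (side j t).1 j = 1 - t ∧ (side j t).1 (j + 1) = t ∧ (side j t).1 (j + 2) = 0 := by
  unfold side
  rw [mix_apply _ _ ht, mix_apply _ _ ht, mix_apply _ _ ht, vtx_self, vtx_self,
    vtx_ne (fin3_ne j).1, vtx_ne (fin3_ne j).1.symm, vtx_ne (fin3_ne j).2.1.symm,
    vtx_ne (fin3_ne j).2.2.symm]
  refine ⟨by ring, by ring, by ring⟩

lemma not_isVertex_side (j : Fin 3) {t : ℝ} (ht : t ∈ Set.Ioo (0 : ℝ) 1) :
    ¬ IsVertex (side j t) :=
  not_isVertex_mix ht fun h => (fin3_ne j).1 (vtx_injective h)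

lemma aff_side (g : Fin 3 → ℝ) (j : Fin 3) {t : ℝ} (ht : t ∈ Set.Icc (0 : ℝ) 1) :
    aff g (side j t) = (1 - t) * g j + t * g (j + 1) := by
  rw [side, aff_mix _ _ _ ht, aff_vtx, aff_vtx]

/-- A non-vertex point of the `j`-th side is a point `side j t` with `0 < t < 1`. -/
lemma eq_side {b : Tri} {j : Fin 3} (hb : ¬ IsVertex b) (h : b.1 (j + 2) = 0) :
    b.1 (j + 1) ∈ Set.Ioo (0 : ℝ) 1 ∧ b = side j (b.1 (j + 1)) := by
  rw [not_isVertex_iff] at hb
  have h1 := tri_sum b j
  have h2 := hb j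
  have h3 := hb (j + 1)
  have ht : b.1 (j + 1) ∈ Set.Ioo (0 : ℝ) 1 := ⟨by linarith, h3⟩
  refine ⟨ht, ?_⟩
  obtain ⟨h4, h5, h6⟩ := side_apply j (t := b.1 (j + 1)) ⟨ht.1.le, ht.2.le⟩
  apply tri_ext j
  · rw [h4]; linarith
  · rw [h5]
  · rw [h6, h]

lemma glued_side {n : ℕ} {P : Pattern n} (h : Side n) {t : ℝ} (ht : t ∈ Set.Icc (0 : ℝ) 1) :
    Glued P (h.1, side h.2 t) ((P.glue h).1, side (P.glue h).2 (1 - t)) := by
  have ht' : 1 - t ∈ Set.Icc (0 : ℝ) 1 := ⟨by linarith [ht.2], by linarith [ht.1]⟩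
  obtain ⟨h1, h2, h3⟩ := side_apply h.2 ht
  obtain ⟨h1', h2', h3'⟩ := side_apply (P.glue h).2 ht'
  refine ⟨h, rfl, rfl, h3, h3', ?_, ?_⟩
  · show (side (P.glue h).2 (1 - t)).1 _ = (side h.2 t).1 _
    rw [h2', h1]
  · show (side (P.glue h).2 (1 - t)).1 _ = (side h.2 t).1 _
    rw [h1', h2]; ring

/-- Glued non-vertex points are corresponding points of glued sides. -/
lemma Glued.exists_side {n : ℕ} {P : Pattern n} {i i' : Fin n} {b b' : Tri}
    (hg : Glued P (i, b) (i', b')) (hb : ¬ IsVertex b) :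
    ∃ (h : Side n) (t : ℝ), t ∈ Set.Ioo (0 : ℝ) 1 ∧ i = h.1 ∧ b = side h.2 t ∧
      i' = (P.glue h).1 ∧ b' = side (P.glue h).2 (1 - t) := by
  obtain ⟨h, h1, h2, h3, h4, h5, h6⟩ := hg
  simp only at h1 h2 h3 h4 h5 h6
  obtain ⟨ht, hbt⟩ := eq_side hb h3
  refine ⟨h, b.1 (h.2 + 1), ht, h1, hbt, h2, ?_⟩
  have hg' : Glued P (h.1, side h.2 (b.1 (h.2 + 1)))
      ((P.glue h).1, side (P.glue h).2 (1 - b.1 (h.2 + 1))) := glued_side h ⟨ht.1.le, ht.2.le⟩
  have hg'' : Glued P (h.1, side h.2 (b.1 (h.2 + 1))) (i', b') := by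
    rw [← hbt]
    exact ⟨h, rfl, h2, h3, h4, h5, h6⟩
  have := hg'.unique hg'' (by show ¬ IsVertex (side _ _); rw [← hbt]; exact hb)
  rw [Prod.mk.injEq] at this
  exact this.2.symm

/-! ### Combinatorial barriers -/

/-- The position of the `j`-th vertex of the `i`-th triangle. -/
def vert {n : ℕ} (e : Side n → ℂ) (i : Fin n) (j : Fin 3) : ℂ :=
  if j = 0 then 0 else if j = 1 then e (i, 0) else e (i, 0) + e (i, 1)

lemma pos_eq {n : ℕ} (e : Side n → ℂ) (i : Fin n) (b : Tri) :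
    pos e i b = ∑ j, (b.1 j : ℂ) * vert e i j := by
  rw [Fin.sum_univ_three]
  simp [pos, vert]

lemma vert_succ {n : ℕ} {P : Pattern n} {e : Side n → ℂ} (he : IsShape P e) (i : Fin n)
    (j : Fin 3) : vert e i (j + 1) = vert e i j + e (i, j) := by
  have h := he.closed i
  fin_cases j
  · show e (i, 0) = 0 + e (i, 0)
    rw [zero_add]
  · rfl
  · show (0 : ℂ) = e (i, 0) + e (i, 1) + e (i, 2)
    exact h.symm

lemma det_pos_sub {n : ℕ} (e : Side n → ℂ) (d : ℂ) (i : Fin n) (b b' : Tri) :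
    det d (pos e i b - pos e i b') =
      aff (fun j => det d (vert e i j)) b - aff (fun j => det d (vert e i j)) b' := by
  simp only [pos_eq, aff, Fin.sum_univ_three, det, Complex.sub_re, Complex.sub_im,
    Complex.add_re, Complex.add_im, Complex.mul_re, Complex.mul_im, Complex.ofReal_re,
    Complex.ofReal_im]
  ring

/-- A combinatorial barrier: on the triangles in `K` the affine functions with vertex values `g i`
are of the form `det d (z - P)`, on the others they are `± 1`, and signs are compatible on the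
glued sides. -/
structure IsComb {n : ℕ} (P : Pattern n) (e : Side n → ℂ) (d : ℂ) (K : Set (Fin n))
    (g : Fin n → Fin 3 → ℝ) : Prop where
  grad : ∀ i ∈ K, ∀ j, g i (j + 1) - g i j = det d (e (i, j))
  off : ∀ i ∉ K, (∀ j, g i j = 1) ∨ (∀ j, g i j = -1)
  compat : ∀ h : Side n, ∀ t ∈ Set.Ioo (0 : ℝ) 1,
    SignType.sign ((1 - t) * g h.1 h.2 + t * g h.1 (h.2 + 1)) =
      SignType.sign ((1 - t) * g (P.glue h).1 ((P.glue h).2 + 1) + t * g (P.glue h).1 (P.glue h).2)

section

variable {n : ℕ} {P : Pattern n}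

open Classical in
/-- The sign function on the surface given by functions on the triangles. -/
noncomputable def signFun (P : Pattern n) (g : Fin n → Fin 3 → ℝ) (q : Space P) : SignType :=
  if h : ∃ p : Fin n × Tri, ¬ IsVertex p.2 ∧ q = point P p.1 p.2 then
    SignType.sign (aff (g h.choose.1) h.choose.2) else 1

lemma signFun_point {e : Side n → ℂ} {d : ℂ} {K : Set (Fin n)} {g : Fin n → Fin 3 → ℝ}
    (hg : IsComb P e d K g) {i : Fin n} {b : Tri} (hb : ¬ IsVertex b) :
    signFun P g (point P i b) = SignType.sign (aff (g i) b) := by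
  have h : ∃ p : Fin n × Tri, ¬ IsVertex p.2 ∧ point P i b = point P p.1 p.2 := ⟨(i, b), hb, rfl⟩
  unfold signFun
  rw [dif_pos h]
  have h1 := h.choose_spec
  set p := h.choose with hp
  rcases point_eq hb h1.2 with h2 | h2
  · rw [Prod.mk.injEq] at h2
    rw [h2.1, h2.2]
  · obtain ⟨h, t, ht, h3, h4, h5, h6⟩ := h2.exists_side hb
    have ht' : t ∈ Set.Icc (0 : ℝ) 1 := ⟨ht.1.le, ht.2.le⟩
    have ht'' : 1 - t ∈ Set.Icc (0 : ℝ) 1 := ⟨by linarith [ht.2], by linarith [ht.1]⟩
    rw [h3, h4, h5, h6, aff_side _ _ ht', aff_side _ _ ht'', hg.compat h t ht]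
    congr 1
    ring

/-- Combinatorial barriers which are connected through a chain of triangles give barriers. -/
theorem comb_barrier {e : Side n → ℂ} (he : IsShape P e) {d : ℂ} {K : Set (Fin n)}
    {g : Fin n → Fin 3 → ℝ} (hg : IsComb P e d K g) (hd : d ≠ 0)
    (m : ℕ) (c : ℕ → Fin n) (hK : ∀ i, i ∈ K ↔ ∃ r ≤ m, c r = i)
    (hc : ∀ r < m, ∃ h : Side n, h.1 = c r ∧ (P.glue h).1 = c (r + 1) ∧
      ∃ t ∈ Set.Ioo (0 : ℝ) 1, (1 - t) * g h.1 h.2 + t * g h.1 (h.2 + 1) = 0)
    {i₀ : Fin n} {j₀ : Fin 3} (hz : g i₀ j₀ = 0) {b₀ : Tri} (hb₀ : ¬ IsVertex b₀)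
    (hb₀' : aff (g i₀) b₀ = 0) :
    IsBarrier ⟨⟨n, P⟩, e, he⟩ d (signFun P g) := by
  have hKof : ∀ i b, aff (g i) b = 0 → i ∈ K := by
    intro i b h
    by_contra hi
    have hsum : b.1 0 + b.1 1 + b.1 2 = 1 := tri_sum b 0
    rcases hg.off i hi with h' | h'
    · simp only [aff, Fin.sum_univ_three, h'] at h; linarith
    · simp only [aff, Fin.sum_univ_three, h'] at h; linarith
  have hgrad : ∀ i ∈ K, ∀ b b', aff (g i) b - aff (g i) b' =
      det d (pos e i b - pos e i b') := by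
    intro i hi b b'
    rw [det_pos_sub]
    have h0 : ∀ j, g i j = det d (vert e i j) + g i 0 := by
      have e0 : det d (vert e i 0) = 0 := by simp [vert, det]
      have e1 := vert_succ he i 0
      have e2 := vert_succ he i 1
      have g0 := hg.grad i hi 0
      have g1 := hg.grad i hi 1
      have hdet : ∀ z w, det d (z + w) = det d z + det d w := by
        intro z w; simp only [det, Complex.add_re, Complex.add_im]; ring
      rw [zero_add] at e1 g0
      rw [show (1 : Fin 3) + 1 = 2 from rfl] at e2 g1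
      intro j
      fin_cases j
      · show g i 0 = det d (vert e i 0) + g i 0
        rw [e0, zero_add]
      · show g i 1 = det d (vert e i 1) + g i 0
        rw [e1, hdet, e0]; linarith
      · show g i 2 = det d (vert e i 2) + g i 0
        rw [e2, hdet, e1, hdet, e0]; linarith
    have hs : b.1 0 + b.1 1 + b.1 2 = 1 := tri_sum b 0
    have hs' : b'.1 0 + b'.1 1 + b'.1 2 = 1 := tri_sum b' 0
    simp only [aff, Fin.sum_univ_three]
    rw [h0 0, h0 1, h0 2]
    linear_combination g i 0 * hs - g i 0 * hs'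
  have hset : {q | q ∉ conePoints P ∧ signFun P g q = 0} =
      ⋃ r ∈ Set.Iic m, point P (c r) '' {b : Tri | ¬ IsVertex b ∧ aff (g (c r)) b ∈ ({0} : Set ℝ)} := by
    ext q
    constructor
    · rintro ⟨h1, h2⟩
      obtain ⟨i, b, rfl⟩ := exists_point q
      rw [point_mem_conePoints] at h1
      rw [signFun_point hg h1, sign_eq_zero_iff] at h2
      obtain ⟨r, hr, hri⟩ := (hK i).mp (hKof i b h2)
      refine Set.mem_biUnion hr ?_
      rw [hri]
      exact ⟨b, ⟨h1, h2⟩, rfl⟩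
    · intro h
      simp only [Set.mem_iUnion] at h
      obtain ⟨r, hr, b, ⟨h1, h2⟩, rfl⟩ := h
      refine ⟨by rw [point_mem_conePoints]; exact h1, ?_⟩
      rw [signFun_point hg h1, sign_eq_zero_iff]
      exact h2
  refine ⟨hd, ?_, ?_, ?_, ?_⟩
  · intro i b hb hS
    change signFun P g (point P i b) = 0 at hS
    rw [signFun_point hg hb, sign_eq_zero_iff] at hS
    filter_upwards [eventually_not_isVertex hb] with b₁ hb₁
    show signFun P g (point P i b₁) = SignType.sign (det d (pos e i b₁ - pos e i b))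
    rw [signFun_point hg hb₁, ← hgrad i (hKof i b hS), hS, sub_zero]
  · intro i b hb hS
    change signFun P g (point P i b) ≠ 0 at hS
    show ∀ᶠ b₁ in 𝓝 b, signFun P g (point P i b₁) = signFun P g (point P i b)
    rw [signFun_point hg hb] at hS ⊢
    have hcont := (continuous_aff (g i)).continuousAt (x := b)
    rcases lt_trichotomy (aff (g i) b) 0 with h | h | h
    · filter_upwards [eventually_not_isVertex hb, hcont.eventually (gt_mem_nhds h)] with b₁ h1 h2
      rw [signFun_point hg h1, sign_neg h, sign_neg h2]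
    · rw [h] at hS; simp at hS
    · filter_upwards [eventually_not_isVertex hb, hcont.eventually (lt_mem_nhds h)] with b₁ h1 h2
      rw [signFun_point hg h1, sign_pos h, sign_pos h2]
  · show IsPreconnected {q | q ∉ conePoints P ∧ signFun P g q = 0}
    rw [hset]
    apply IsPreconnected.biUnion_of_chain Set.ordConnected_Iic
    · intro r _
      apply IsPreconnected.image _ _ (continuous_point _).continuousOn
      exact preconn_tri (convex_aff (g (c r)) (convex_singleton 0))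
    · intro r _ hr
      obtain ⟨h, h1, h2, t, ht, h3⟩ := hc r (Nat.lt_of_succ_le hr)
      have ht' : t ∈ Set.Icc (0 : ℝ) 1 := ⟨ht.1.le, ht.2.le⟩
      have ht1 : 1 - t ∈ Set.Ioo (0 : ℝ) 1 := ⟨by linarith [ht.2], by linarith [ht.1]⟩
      have ht'' : 1 - t ∈ Set.Icc (0 : ℝ) 1 := ⟨ht1.1.le, ht1.2.le⟩
      refine ⟨point P (c r) (side h.2 t), ⟨_, ⟨not_isVertex_side _ ht, ?_⟩, rfl⟩, ?_⟩
      · rw [← h1, aff_side _ _ ht', h3]; rfl
      · rw [← h1, (glued_side h ht').point_eq, h2]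
        refine ⟨_, ⟨not_isVertex_side _ ht1, ?_⟩, rfl⟩
        have hcm := hg.compat h t ht
        rw [h3, sign_zero] at hcm
        have := sign_eq_zero_iff.mp hcm.symm
        change aff (g (c (r + 1))) _ = 0
        rw [← h2, aff_side _ _ ht'']
        linarith
  · intro hcl
    have hcl' : IsClosed (point P i₀ ⁻¹' {q | q ∉ conePoints P ∧ signFun P g q = 0}) :=
      hcl.preimage (continuous_point i₀)
    have hmem : vtx j₀ ∈ closure (point P i₀ ⁻¹' {q | q ∉ conePoints P ∧ signFun P g q = 0}) := by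
      have htend : Tendsto (fun t => mix (vtx j₀) b₀ t) (𝓝[>] 0) (𝓝 (vtx j₀)) := by
        have := (continuous_mix (vtx j₀) b₀).tendsto' 0 (vtx j₀) (mix_zero _ _)
        exact this.mono_left nhdsWithin_le_nhds
      refine mem_closure_of_tendsto htend ?_
      have h1 : ∀ᶠ t in 𝓝[>] (0 : ℝ), t ∈ Set.Ioo (0 : ℝ) 1 := Ioo_mem_nhdsGT zero_lt_one
      filter_upwards [h1] with t ht
      have hne : vtx j₀ ≠ b₀ := fun h => hb₀ (h ▸ isVertex_vtx j₀)
      have hv := not_isVertex_mix ht hne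
      refine ⟨by rw [point_mem_conePoints]; exact hv, ?_⟩
      rw [signFun_point hg hv, aff_mix _ _ _ ⟨ht.1.le, ht.2.le⟩, aff_vtx, hz, hb₀']
      simp
    rw [hcl'.closure_eq] at hmem
    exact hmem.1 (point_mem_conePoints.mpr (isVertex_vtx j₀))

end

end Pool.Agent.Dilation
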