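import Mathlib

/-!
# Triangulated dilation surfaces and the triangulable locus of a stratum
-/

namespace Pool.Agent.Dilation

open Topology

/-- The sides of `n` triangles: `(i, j)` is the `j`-th side of the `i`-th triangle; it goes from the
`j`-th to the `(j+1)`-st vertex of that triangle. -/
abbrev Side (n : ℕ) : Type := Fin n × Fin 3

/-- A gluing pattern for `n` oriented triangles: the sides are glued in pairs. -/
structure Pattern (n : ℕ) where
  glue : Side n → Side n
  glue_glue : ∀ h, glue (glue h) = h
  glue_ne : ∀ h, glue h ≠ h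

/-- The determinant of two vectors of the plane `ℂ = ℝ²`. -/
def det (z w : ℂ) : ℝ := z.re * w.im - z.im * w.re

/-- A shape for a gluing pattern: the side vectors of `n` nondegenerate positively oriented
triangles in the plane, such that glued sides are parallel with opposite orientations (their
lengths may differ: the gluing is a dilation). -/
structure IsShape {n : ℕ} (P : Pattern n) (e : Side n → ℂ) : Prop where
  closed : ∀ i, e (i, 0) + e (i, 1) + e (i, 2) = 0
  pos : ∀ i, 0 < det (e (i, 0)) (e (i, 1))
  parallel : ∀ h, ∃ r : ℝ, 0 < r ∧ e (P.glue h) = -((r : ℂ) * e h)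

/-- The topological space of triangulated dilation surfaces: the disjoint union over all gluing
patterns of the spaces of shapes (with the topology of `ℂ^(3n)`). -/
abbrev TriSurf : Type := (N : (n : ℕ) × Pattern n) × {e : Side N.1 → ℂ // IsShape N.2 e}

/-- The closed triangle, in barycentric coordinates. -/
abbrev Tri : Type := stdSimplex ℝ (Fin 3)

/-- The gluing relation on the disjoint union of `n` triangles: the side `h = (i, j)` is glued with
the side `P.glue h`, reversing the orientation. -/
def Glued {n : ℕ} (P : Pattern n) (p q : Fin n × Tri) : Prop :=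
  ∃ h : Side n, p.1 = h.1 ∧ q.1 = (P.glue h).1 ∧
    p.2.1 (h.2 + 2) = 0 ∧ q.2.1 ((P.glue h).2 + 2) = 0 ∧
    q.2.1 ((P.glue h).2 + 1) = p.2.1 h.2 ∧ q.2.1 (P.glue h).2 = p.2.1 (h.2 + 1)

/-- The closed surface obtained by gluing the triangles, with the quotient topology. -/
abbrev Space {n : ℕ} (P : Pattern n) : Type := Quot (Glued P)

/-- The point of the surface given by a point of the `i`-th triangle. -/
def point {n : ℕ} (P : Pattern n) (i : Fin n) (b : Tri) : Space P := Quot.mk _ (i, b)

/-- A point of the triangle is a vertex. -/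
def IsVertex (b : Tri) : Prop := ∃ j, b.1 j = 1

/-- The cone points: the vertices of the triangles. -/
def conePoints {n : ℕ} (P : Pattern n) : Set (Space P) :=
  {q | ∃ i b, IsVertex b ∧ q = point P i b}

/-- The point of the plane with given barycentric coordinates in the `i`-th triangle, which is
placed with its `0`-th vertex at the origin. -/
def pos {n : ℕ} (e : Side n → ℂ) (i : Fin n) (b : Tri) : ℂ :=
  (b.1 1 : ℂ) * e (i, 0) + (b.1 2 : ℂ) * (e (i, 0) + e (i, 1))

/-- The homeomorphism `F` of the glued surfaces is an isomorphism of dilation surfaces: it maps the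
cone points onto the cone points, and it is locally, in the coordinates of the triangles, of the
form `z ↦ a z + β` with `a > 0`, near all points which are not cone points. -/
abbrev IsDilation {n n' : ℕ} (P : Pattern n) (e : Side n → ℂ) (P' : Pattern n')
    (e' : Side n' → ℂ) (F : Space P ≃ₜ Space P') : Prop :=
  F '' conePoints P = conePoints P' ∧
    ∀ i b i' b', ¬ IsVertex b → F (point P i b) = point P' i' b' →
      ∃ (a : ℝ) (β : ℂ), 0 < a ∧ ∀ᶠ p : Tri × Tri in 𝓝 (b, b'),
        F (point P i p.1) = point P' i' p.2 → pos e' i' p.2 = a * pos e i p.1 + β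

/-- Two triangulated dilation surfaces are isomorphic, as dilation surfaces (not as triangulated
surfaces). -/
def Iso (s s' : TriSurf) : Prop :=
  ∃ F : Space s.1.2 ≃ₜ Space s'.1.2, IsDilation s.1.2 s.2.1 s'.1.2 s'.2.1 F

/-- The glued surface is connected. -/
def Pattern.Connected {n : ℕ} (P : Pattern n) : Prop :=
  ∀ i i', Relation.ReflTransGen (fun k l => ∃ j, (P.glue (k, j)).1 = l) i i'

/-- The vertices of the glued surface, as classes of corners: the corner of a triangle at the
initial point of its side `h = (i, j)` is denoted `h`; it is adjacent, across the side `h`, to the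
corner `(i', j' + 1)`, where `(i', j') = P.glue h`. -/
def Pattern.Vertex {n : ℕ} (P : Pattern n) : Type :=
  Quot fun h h' : Side n => h' = ((P.glue h).1, (P.glue h).2 + 1)

instance {n : ℕ} (P : Pattern n) : Finite P.Vertex :=
  inferInstanceAs (Finite (Quot _))

/-- The angle of the `i`-th triangle at its `j`-th vertex. -/
noncomputable def cornerAngle {n : ℕ} (e : Side n → ℂ) (h : Side n) : ℝ :=
  InnerProductGeometry.angle (e h) (-e (h.1, h.2 + 2))

open Classical in
/-- The cone angle at a vertex. -/
noncomputable def coneAngle {n : ℕ} (P : Pattern n) (e : Side n → ℂ) (v : P.Vertex) : ℝ :=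
  ∑ h with Quot.mk _ h = v, cornerAngle e h

open Classical in
/-- The list of the cone angles. -/
noncomputable def coneAngles {n : ℕ} (P : Pattern n) (e : Side n → ℂ) : Multiset ℝ :=
  letI := Fintype.ofFinite P.Vertex
  (Finset.univ : Finset P.Vertex).val.map (coneAngle P e)

/-- The glued surface is connected, of genus `g` (its Euler characteristic is `V - 3n/2 + n`, where
`V` is the number of vertices) and with list of cone angles `κ`. -/
abbrev HasType {n : ℕ} (P : Pattern n) (e : Side n → ℂ) (g : ℕ) (κ : Multiset ℝ) : Prop :=
  P.Connected ∧ 2 * (Nat.card P.Vertex : ℤ) - n = 2 * (2 - 2 * g) ∧ coneAngles P e = κ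

/-- The triangulated dilation surfaces which are connected, of genus `g` and with list of cone
angles `κ`. -/
def stratum (g : ℕ) (κ : Multiset ℝ) : Set TriSurf :=
  {s | HasType s.1.2 s.2.1 g κ}

/-- The triangulable locus `𝒯` of a stratum: the space of isomorphism classes of triangulable
dilation surfaces of genus `g` with cone angles `κ`, with the quotient topology. -/
abbrev Moduli (g : ℕ) (κ : Multiset ℝ) : Type :=
  Quot fun s s' : stratum g κ => Iso s.1 s'.1

/-- The linear action of `SL₂(ℝ)` on the plane `ℂ = ℝ²`. -/
def lin (A : Matrix.SpecialLinearGroup (Fin 2) ℝ) (z : ℂ) : ℂ :=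
  ⟨A.1 0 0 * z.re + A.1 0 1 * z.im, A.1 1 0 * z.re + A.1 1 1 * z.im⟩

lemma lin_add (A) (z w : ℂ) : lin A (z + w) = lin A z + lin A w := by
  apply Complex.ext <;> simp [lin] <;> ring

lemma lin_neg (A) (z : ℂ) : lin A (-z) = -lin A z := by
  apply Complex.ext <;> simp [lin] <;> ring

lemma lin_smul (A) (r : ℝ) (z : ℂ) : lin A (r * z) = r * lin A z := by
  apply Complex.ext <;> simp [lin] <;> ring

lemma lin_zero (A) : lin A 0 = 0 := by
  apply Complex.ext <;> simp [lin]

lemma det_lin (A) (z w : ℂ) : det (lin A z) (lin A w) = det z w := by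
  have h := A.2
  rw [Matrix.det_fin_two] at h
  simp only [det, lin]
  linear_combination (z.re * w.im - z.im * w.re) * h

/-- `SL₂(ℝ)` acts on triangulated dilation surfaces by acting on the side vectors. -/
def act (A : Matrix.SpecialLinearGroup (Fin 2) ℝ) (s : TriSurf) : TriSurf :=
  ⟨s.1, fun h => lin A (s.2.1 h), {
    closed := fun i => by rw [← lin_add, ← lin_add, s.2.2.closed, lin_zero]
    pos := fun i => by rw [det_lin]; exact s.2.2.pos i
    parallel := fun h => by
      obtain ⟨r, hr, h'⟩ := s.2.2.parallel h
      exact ⟨r, hr, by rw [h', lin_neg, lin_smul]⟩ }⟩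

/-- The `SL₂(ℝ)`-orbit of a point of the triangulable locus. -/
def orbit {g : ℕ} {κ : Multiset ℝ} (t : Moduli g κ) : Set (Moduli g κ) :=
  {t' | ∃ (s s' : stratum g κ) (A : Matrix.SpecialLinearGroup (Fin 2) ℝ),
    Quot.mk _ s = t ∧ Quot.mk _ s' = t' ∧ s'.1 = act A s.1}

/-- The statement of the question: in every connected component of the triangulable locus of every
stratum of genus at least `2` there is a dense `SL₂(ℝ)`-orbit. -/
def DenseOrbits : Prop :=
  ∀ (g : ℕ) (κ : Multiset ℝ), 2 ≤ g → ∀ t₀ : Moduli g κ,
    ∃ t ∈ connectedComponent t₀, closure (orbit t) = connectedComponent t₀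

end Pool.Agent.Dilation
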