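import Pool.Agent.Dilation.Chain2

namespace Pool.Agent.Dilation

open Topology Filter

variable {n : ℕ} {P : Pattern n} {e : Side n → ℂ}

/-- A side which separates the surface is a barrier. -/
theorem edge_barrier (he : IsShape P e) (h₀ : Side n) (l : Fin n → ℝ)
    (hl : ∀ i, l i = 1 ∨ l i = -1) (hl₀ : l h₀.1 = 1) (hl₁ : l (P.glue h₀).1 = -1)
    (hl' : ∀ h, h ≠ h₀ → h ≠ P.glue h₀ → l h.1 = l (P.glue h).1) :
    e h₀ ∈ barrierDirs ⟨⟨n, P⟩, e, he⟩ := by
  classical
  have hne : h₀.1 ≠ (P.glue h₀).1 := by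
    intro h
    rw [← h, hl₀] at hl₁
    norm_num at hl₁
  set h₁ := P.glue h₀ with hh₁
  have hh₀ : P.glue h₁ = h₀ := P.glue_glue h₀
  set d := e h₀ with hd
  have hd0 : d ≠ 0 := shape_ne_zero he h₀
  let g : Fin n → Fin 3 → ℝ := fun i j =>
    if i = h₀.1 then det d (vert e i j - vert e i h₀.2)
    else if i = h₁.1 then det d (vert e i j - vert e i h₁.2)
    else l i
  have g0 : ∀ j, g h₀.1 j = det d (vert e h₀.1 j - vert e h₀.1 h₀.2) := fun j => if_pos rfl
  have g1 : ∀ j, g h₁.1 j = det d (vert e h₁.1 j - vert e h₁.1 h₁.2) := fun j => by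
    show (if h₁.1 = h₀.1 then _ else _) = _
    rw [if_neg hne.symm, if_pos rfl]
  have g2 : ∀ i, i ≠ h₀.1 → i ≠ h₁.1 → ∀ j, g i j = l i := fun i hi hi' j => by
    show (if i = h₀.1 then _ else _) = _
    rw [if_neg hi, if_neg hi']
  have hdd : det d d = 0 := by simp only [det]; ring
  have hde1 : e h₁ = -((ratio P e h₀ : ℂ) * d) := glue_eq he h₀
  have a00 : g h₀.1 h₀.2 = 0 := by rw [g0, sub_self]; simp [det]
  have a01 : g h₀.1 (h₀.2 + 1) = 0 := by
    rw [g0, vert_succ he, show ((h₀.1, h₀.2) : Side n) = h₀ from rfl, add_sub_cancel_left]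
    exact hdd
  have a02 : 0 < g h₀.1 (h₀.2 + 2) := by
    have h1 := vert_succ he h₀.1 (h₀.2 + 1)
    rw [(fin3_add h₀.2).2.1] at h1
    rw [g0, h1, vert_succ he, show ((h₀.1, h₀.2) : Side n) = h₀ from rfl]
    have h2 := det_cyc he h₀.1 h₀.2
    rw [show ((h₀.1, h₀.2) : Side n) = h₀ from rfl] at h2
    have : det d (vert e h₀.1 h₀.2 + e h₀ + e (h₀.1, h₀.2 + 1) - vert e h₀.1 h₀.2) =
        det (e h₀) (e (h₀.1, h₀.2 + 1)) := by
      rw [hd]
      simp only [det, Complex.sub_re, Complex.sub_im, Complex.add_re, Complex.add_im]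
      ring
    rw [this]; exact h2
  have a10 : g h₁.1 h₁.2 = 0 := by rw [g1, sub_self]; simp [det]
  have a11 : g h₁.1 (h₁.2 + 1) = 0 := by
    rw [g1, vert_succ he, show ((h₁.1, h₁.2) : Side n) = h₁ from rfl, add_sub_cancel_left, hde1]
    simp only [det, Complex.neg_re, Complex.neg_im, Complex.re_ofReal_mul, Complex.im_ofReal_mul]
    ring
  have a12 : g h₁.1 (h₁.2 + 2) < 0 := by
    have h1 := vert_succ he h₁.1 (h₁.2 + 1)
    rw [(fin3_add h₁.2).2.1] at h1
    rw [g1, h1, vert_succ he, show ((h₁.1, h₁.2) : Side n) = h₁ from rfl]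
    have h2 := det_cyc he h₁.1 h₁.2
    rw [show ((h₁.1, h₁.2) : Side n) = h₁ from rfl, hde1] at h2
    have h3 : det (-((ratio P e h₀ : ℂ) * d)) (e (h₁.1, h₁.2 + 1)) =
        -(ratio P e h₀ * det d (e (h₁.1, h₁.2 + 1))) := by
      simp only [det, Complex.neg_re, Complex.neg_im, Complex.re_ofReal_mul, Complex.im_ofReal_mul]
      ring
    rw [h3] at h2
    have h4 : det d (vert e h₁.1 h₁.2 + e h₁ + e (h₁.1, h₁.2 + 1) - vert e h₁.1 h₁.2) =
        det d (e (h₁.1, h₁.2 + 1)) := by
      rw [hde1]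
      simp only [det, Complex.sub_re, Complex.sub_im, Complex.add_re, Complex.add_im,
        Complex.neg_re, Complex.neg_im, Complex.re_ofReal_mul, Complex.im_ofReal_mul]
      ring
    rw [h4]
    have h5 := ratio_pos he h₀
    by_contra hc
    push Not at hc
    nlinarith [mul_nonneg h5.le hc]
  -- the sign on the sides different from `h₀` and `h₁`
  have hsgn : ∀ h : Side n, h ≠ h₀ → h ≠ h₁ → ∀ t ∈ Set.Ioo (0 : ℝ) 1,
      SignType.sign ((1 - t) * g h.1 h.2 + t * g h.1 (h.2 + 1)) = SignType.sign (l h.1) := by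
    intro h hn0 hn1 t ht
    obtain ⟨i, j⟩ := h
    show SignType.sign ((1 - t) * g i j + t * g i (j + 1)) = SignType.sign (l i)
    by_cases hi0 : i = h₀.1
    · have hj : h₀.2 ≠ j := fun hj => hn0 (Prod.ext hi0 hj.symm)
      rw [hi0, hl₀, sign_pos one_pos]
      apply sign_pos
      rcases fin3_cases h₀.2 j with h | h | h
      · exact absurd h.symm hj
      · rw [h, a01, (fin3_add h₀.2).2.1]
        have := mul_pos ht.1 a02
        linarith
      · rw [h, (fin3_add h₀.2).1, a00]
        have := mul_pos (show 0 < 1 - t by linarith [ht.2]) a02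
        linarith
    · by_cases hi1 : i = h₁.1
      · have hj : h₁.2 ≠ j := fun hj => hn1 (Prod.ext hi1 hj.symm)
        rw [hi1, hl₁, sign_neg (show (-1 : ℝ) < 0 by norm_num)]
        apply sign_neg
        rcases fin3_cases h₁.2 j with h | h | h
        · exact absurd h.symm hj
        · rw [h, a11, (fin3_add h₁.2).2.1]
          have := mul_neg_of_pos_of_neg ht.1 a12
          linarith
        · rw [h, (fin3_add h₁.2).1, a10]
          have := mul_neg_of_pos_of_neg (show 0 < 1 - t by linarith [ht.2]) a12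
          linarith
      · rw [g2 i hi0 hi1, g2 i hi0 hi1]
        congr 1
        ring
  have hcomb : IsComb P e d {h₀.1, h₁.1} g := by
    have hsub : ∀ z w u : ℂ, det d (z - u) - det d (w - u) = det d (z - w) := by
      intro z w u
      simp only [det, Complex.sub_re, Complex.sub_im]; ring
    refine ⟨?_, ?_, ?_⟩
    · rintro i (rfl | rfl) j
      · rw [g0, g0, hsub, vert_succ he, add_sub_cancel_left]
      · rw [g1, g1, hsub, vert_succ he, add_sub_cancel_left]
    · intro i hi
      rw [Set.mem_insert_iff, Set.mem_singleton_iff, not_or] at hi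
      rcases hl i with h | h
      · exact Or.inl fun j => by rw [g2 i hi.1 hi.2, h]
      · exact Or.inr fun j => by rw [g2 i hi.1 hi.2, h]
    · intro h t ht
      by_cases hc0 : h = h₀
      · rw [hc0, a00, a01, ← hh₁, a10, a11]
      · by_cases hc1 : h = h₁
        · rw [hc1, hh₀, a00, a01, a10, a11]
        · have ht1 : 1 - t ∈ Set.Ioo (0 : ℝ) 1 := ⟨by linarith [ht.2], by linarith [ht.1]⟩
          have hc2 : P.glue h ≠ h₀ := fun hh => hc1 (by rw [hh₁, ← hh, P.glue_glue])
          have hc3 : P.glue h ≠ h₁ := fun hh => hc0 (by rw [← hh₀, ← hh, P.glue_glue])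
          have h2 := hsgn _ hc2 hc3 _ ht1
          rw [hsgn h hc0 hc1 t ht, hl' h hc0 hc1, ← h2]
          congr 1
          ring
  refine ⟨_, comb_barrier he hcomb hd0 1 (fun r => if r = 0 then h₀.1 else h₁.1) ?_ ?_ a00
    (b₀ := side h₀.2 (1 / 2)) (not_isVertex_side _ (by norm_num)) ?_⟩
  · intro i
    rw [Set.mem_insert_iff, Set.mem_singleton_iff]
    constructor
    · rintro (rfl | rfl)
      · exact ⟨0, by norm_num, by simp⟩
      · exact ⟨1, le_rfl, by simp⟩
    · rintro ⟨r, hr, rfl⟩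
      by_cases h : r = 0
      · left; simp [h]
      · right; simp [h]
  · intro r hr
    have : r = 0 := by omega
    subst this
    refine ⟨h₀, by simp, by simp [hh₁], 1 / 2, by norm_num, ?_⟩
    rw [a00, a01]; norm_num
  · rw [aff_side _ _ (by norm_num), a00, a01]; norm_num

end Pool.Agent.Dilation
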