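import Pool.Agent.Dilation.Persist

namespace Pool.Agent.Dilation

open Topology Filter

/-- The gluing table: triangles `0` and `1` form a quadrilateral, to the sides of which are glued
four one-holed tori `(2, 3, 4)`, `(5, 6, 7)`, `(8, 9, 10)`, `(11, 12, 13)`. -/
def glueTable : Fin 14 → Fin 3 → Side 14 :=
  ![![(2, 0), (5, 0), (1, 0)], ![(0, 2), (8, 0), (11, 0)],
    ![(0, 0), (4, 1), (3, 0)], ![(2, 2), (4, 2), (4, 0)], ![(3, 2), (2, 1), (3, 1)],
    ![(0, 1), (7, 1), (6, 0)], ![(5, 2), (7, 2), (7, 0)], ![(6, 2), (5, 1), (6, 1)],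
    ![(1, 1), (10, 1), (9, 0)], ![(8, 2), (10, 2), (10, 0)], ![(9, 2), (8, 1), (9, 1)],
    ![(1, 2), (13, 1), (12, 0)], ![(11, 2), (13, 2), (13, 0)], ![(12, 2), (11, 1), (12, 1)]]

/-- The pattern of the example. -/
def exPattern : Pattern 14 where
  glue h := glueTable h.1 h.2
  glue_glue := by decide
  glue_ne := by decide

/-- The side vectors of a one-holed torus attached to a side with vector `w`. -/
noncomputable def torus (w : ℂ) (k : Fin 3) (j : Fin 3) : ℂ :=
  -w * (2 + Complex.I) *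
    ![![2 - Complex.I, 2, -4 + Complex.I], ![4 - Complex.I, 2 * Complex.I, -4 - Complex.I],
      ![4 + Complex.I, -4, -Complex.I]] k j

/-- The sides of the quadrilateral. -/
noncomputable def quad (t : ℝ) : Fin 4 → ℂ :=
  ![1, t + Complex.I, -1 - t + Complex.I, -2 * Complex.I]

/-- The side vectors of the example. -/
noncomputable def exShape (t : ℝ) (h : Side 14) : ℂ :=
  (![![quad t 0, quad t 1, -1 - t - Complex.I], ![1 + t + Complex.I, quad t 2, quad t 3],
    torus (quad t 0) 0, torus (quad t 0) 1, torus (quad t 0) 2,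
    torus (quad t 1) 0, torus (quad t 1) 1, torus (quad t 1) 2,
    torus (quad t 2) 0, torus (quad t 2) 1, torus (quad t 2) 2,
    torus (quad t 3) 0, torus (quad t 3) 1, torus (quad t 3) 2] : Fin 14 → Fin 3 → ℂ) h.1 h.2

/-- The dilation ratios of the example. -/
noncomputable def exRatio : Fin 14 → Fin 3 → ℝ :=
  ![![5, 5, 1], ![1, 5, 5],
    ![1 / 5, 2, 1], ![1, 1 / 2, 1], ![1, 1 / 2, 2],
    ![1 / 5, 2, 1], ![1, 1 / 2, 1], ![1, 1 / 2, 2],
    ![1 / 5, 2, 1], ![1, 1 / 2, 1], ![1, 1 / 2, 2],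
    ![1 / 5, 2, 1], ![1, 1 / 2, 1], ![1, 1 / 2, 2]]

lemma torus_closed (w : ℂ) (k : Fin 3) : torus w k 0 + torus w k 1 + torus w k 2 = 0 := by
  fin_cases k <;> simp [torus] <;> ring

lemma det_mul_left (c z w : ℂ) : det (c * z) (c * w) = Complex.normSq c * det z w := by
  simp only [det, Complex.mul_re, Complex.mul_im, Complex.normSq_apply]; ring

lemma torus_pos {w : ℂ} (hw : w ≠ 0) (k : Fin 3) : 0 < det (torus w k 0) (torus w k 1) := by
  have hc : 0 < Complex.normSq (-w * (2 + Complex.I)) := by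
    rw [Complex.normSq_pos]
    refine mul_ne_zero (neg_ne_zero.mpr hw) ?_
    intro h
    have := congrArg Complex.im h
    simp at this
  have h : ∀ k, 0 < det ((![![2 - Complex.I, 2, -4 + Complex.I],
      ![4 - Complex.I, 2 * Complex.I, -4 - Complex.I],
      ![4 + Complex.I, -4, -Complex.I]] : Fin 3 → Fin 3 → ℂ) k 0)
      ((![![2 - Complex.I, 2, -4 + Complex.I], ![4 - Complex.I, 2 * Complex.I, -4 - Complex.I],
      ![4 + Complex.I, -4, -Complex.I]] : Fin 3 → Fin 3 → ℂ) k 1) := by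
    intro k
    fin_cases k <;> simp [det]
  unfold torus
  rw [det_mul_left]
  exact mul_pos hc (h k)

lemma quad_ne_zero (t : ℝ) (k : Fin 4) : quad t k ≠ 0 := by
  intro h
  fin_cases k
  · simp [quad] at h
  · have := congrArg Complex.im h
    simp [quad] at this
  · have := congrArg Complex.im h
    simp [quad] at this
  · simp [quad] at h

lemma tr1 (w : ℂ) : torus w 0 0 = -(5 * w) := by
  have hI : Complex.I * Complex.I = -1 := Complex.I_mul_I
  show -w * (2 + Complex.I) * (2 - Complex.I) = _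
  linear_combination w * hI

lemma tr2 (w : ℂ) : w = -(1 / 5 * torus w 0 0) := by rw [tr1]; ring

lemma tr3 (w : ℂ) : torus w 2 1 = -(2 * torus w 0 1) := by
  show -w * (2 + Complex.I) * (-4) = -(2 * (-w * (2 + Complex.I) * 2))
  ring

lemma tr4 (w : ℂ) : torus w 1 0 = -(1 * torus w 0 2) := by
  show -w * (2 + Complex.I) * (4 - Complex.I) = -(1 * (-w * (2 + Complex.I) * (-4 + Complex.I)))
  ring

lemma tr5 (w : ℂ) : torus w 0 2 = -(1 * torus w 1 0) := by rw [tr4]; ring

lemma tr6 (w : ℂ) : torus w 2 2 = -(1 / 2 * torus w 1 1) := by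
  show -w * (2 + Complex.I) * (-Complex.I) = -(1 / 2 * (-w * (2 + Complex.I) * (2 * Complex.I)))
  ring

lemma tr7 (w : ℂ) : torus w 2 0 = -(1 * torus w 1 2) := by
  show -w * (2 + Complex.I) * (4 + Complex.I) = -(1 * (-w * (2 + Complex.I) * (-4 - Complex.I)))
  ring

lemma tr8 (w : ℂ) : torus w 1 2 = -(1 * torus w 2 0) := by rw [tr7]; ring

lemma tr9 (w : ℂ) : torus w 0 1 = -(1 / 2 * torus w 2 1) := by rw [tr3]; ring

lemma tr10 (w : ℂ) : torus w 1 1 = -(2 * torus w 2 2) := by rw [tr6]; ring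

lemma tr1' (w : ℂ) : torus w 0 0 = -(((5 : ℝ) : ℂ) * w) := by
  rw [tr1]; push_cast; ring

lemma tr2' (w : ℂ) : w = -(((1 / 5 : ℝ) : ℂ) * torus w 0 0) := by
  rw [tr1]; push_cast; ring

lemma tr3' (w : ℂ) : torus w 2 1 = -(((2 : ℝ) : ℂ) * torus w 0 1) := by
  rw [tr3]; push_cast; ring

lemma tr4' (w : ℂ) : torus w 1 0 = -(((1 : ℝ) : ℂ) * torus w 0 2) := by
  rw [tr4]; push_cast; ring

lemma tr5' (w : ℂ) : torus w 0 2 = -(((1 : ℝ) : ℂ) * torus w 1 0) := by
  rw [tr4]; push_cast; ring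

lemma tr6' (w : ℂ) : torus w 2 2 = -(((1 / 2 : ℝ) : ℂ) * torus w 1 1) := by
  rw [tr6]; push_cast; ring

lemma tr7' (w : ℂ) : torus w 2 0 = -(((1 : ℝ) : ℂ) * torus w 1 2) := by
  rw [tr7]; push_cast; ring

lemma tr8' (w : ℂ) : torus w 1 2 = -(((1 : ℝ) : ℂ) * torus w 2 0) := by
  rw [tr7]; push_cast; ring

lemma tr9' (w : ℂ) : torus w 0 1 = -(((1 / 2 : ℝ) : ℂ) * torus w 2 1) := by
  rw [tr3]; push_cast; ring

lemma tr10' (w : ℂ) : torus w 1 1 = -(((2 : ℝ) : ℂ) * torus w 2 2) := by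
  rw [tr6]; push_cast; ring

lemma exShape_parallel (t : ℝ) (i : Fin 14) (j : Fin 3) :
    exShape t (glueTable i j) = -((exRatio i j : ℂ) * exShape t (i, j)) := by
  fin_cases i <;> fin_cases j
  · exact tr1' (quad t 0)
  · exact tr1' (quad t 1)
  · show 1 + t + Complex.I = -(((1 : ℝ) : ℂ) * (-1 - t - Complex.I)); push_cast; ring
  · show -1 - t - Complex.I = -(((1 : ℝ) : ℂ) * (1 + t + Complex.I)); push_cast; ring
  · exact tr1' (quad t 2)
  · exact tr1' (quad t 3)
  · exact tr2' (quad t 0)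
  · exact tr3' (quad t 0)
  · exact tr4' (quad t 0)
  · exact tr5' (quad t 0)
  · exact tr6' (quad t 0)
  · exact tr7' (quad t 0)
  · exact tr8' (quad t 0)
  · exact tr9' (quad t 0)
  · exact tr10' (quad t 0)
  · exact tr2' (quad t 1)
  · exact tr3' (quad t 1)
  · exact tr4' (quad t 1)
  · exact tr5' (quad t 1)
  · exact tr6' (quad t 1)
  · exact tr7' (quad t 1)
  · exact tr8' (quad t 1)
  · exact tr9' (quad t 1)
  · exact tr10' (quad t 1)
  · exact tr2' (quad t 2)
  · exact tr3' (quad t 2)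
  · exact tr4' (quad t 2)
  · exact tr5' (quad t 2)
  · exact tr6' (quad t 2)
  · exact tr7' (quad t 2)
  · exact tr8' (quad t 2)
  · exact tr9' (quad t 2)
  · exact tr10' (quad t 2)
  · exact tr2' (quad t 3)
  · exact tr3' (quad t 3)
  · exact tr4' (quad t 3)
  · exact tr5' (quad t 3)
  · exact tr6' (quad t 3)
  · exact tr7' (quad t 3)
  · exact tr8' (quad t 3)
  · exact tr9' (quad t 3)
  · exact tr10' (quad t 3)

lemma exRatio_pos (i : Fin 14) (j : Fin 3) : 0 < exRatio i j := by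
  fin_cases i <;> fin_cases j <;> simp [exRatio]

lemma exShape_isShape {t : ℝ} (ht : 0 < t) : IsShape exPattern (exShape t) := by
  refine ⟨?_, ?_, fun h => ⟨exRatio h.1 h.2, exRatio_pos _ _, exShape_parallel t h.1 h.2⟩⟩
  · intro i
    fin_cases i
    · show quad t 0 + quad t 1 + (-1 - t - Complex.I) = 0
      simp [quad]; ring
    · show 1 + t + Complex.I + quad t 2 + quad t 3 = 0
      simp [quad]; ring
    all_goals exact torus_closed _ _
  · intro i
    fin_cases i
    · show 0 < det (quad t 0) (quad t 1)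
      simp [quad, det]
    · show 0 < det (1 + t + Complex.I) (quad t 2)
      simp [quad, det]; linarith
    all_goals exact torus_pos (quad_ne_zero _ _) _

end Pool.Agent.Dilation
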