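import Pool.Agent.Dilation.Example

namespace Pool.Agent.Dilation

open Topology Filter

/-- The sides of the quadrilateral, as sides of the triangulation. -/
def exSide : Fin 4 → Side 14 := ![(0, 0), (0, 1), (1, 1), (1, 2)]

/-- The labels of the two parts of the surface separated by the `m`-th side of the
quadrilateral. -/
def lab (m : Fin 4) (i : Fin 14) : Bool :=
  !((i.1 == 2 + 3 * m.1) || (i.1 == 3 + 3 * m.1) || (i.1 == 4 + 3 * m.1))

lemma lab_spec : ∀ m, lab m (exSide m).1 = true ∧
    lab m (exPattern.glue (exSide m)).1 = false ∧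
    ∀ h, h ≠ exSide m → h ≠ exPattern.glue (exSide m) →
      lab m h.1 = lab m (exPattern.glue h).1 := by
  decide +kernel

lemma exShape_side (t : ℝ) (m : Fin 4) : exShape t (exSide m) = quad t m := by
  fin_cases m <;> rfl

lemma quad_mem_barrierDirs {t : ℝ} (ht : 0 < t) (m : Fin 4) :
    quad t m ∈ barrierDirs ⟨⟨14, exPattern⟩, exShape t, exShape_isShape ht⟩ := by
  obtain ⟨h1, h2, h3⟩ := lab_spec m
  rw [← exShape_side t m]
  refine edge_barrier (exShape_isShape ht) (exSide m) (fun i => if lab m i then 1 else -1)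
    ?_ ?_ ?_ ?_
  · intro i
    show (if lab m i then (1 : ℝ) else -1) = 1 ∨ (if lab m i then (1 : ℝ) else -1) = -1
    split_ifs
    · exact Or.inl rfl
    · exact Or.inr rfl
  · show (if lab m (exSide m).1 then (1 : ℝ) else -1) = 1
    rw [h1]; simp
  · show (if lab m (exPattern.glue (exSide m)).1 then (1 : ℝ) else -1) = -1
    rw [h2]; simp
  · intro h hn0 hn1
    show (if lab m h.1 then (1 : ℝ) else -1) = if lab m (exPattern.glue h).1 then (1 : ℝ) else -1
    rw [h3 h hn0 hn1]

/-! ### The stratum of the example -/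

def exParent : Fin 14 → Fin 14 := ![0, 0, 0, 2, 3, 0, 5, 6, 1, 8, 9, 1, 11, 12]

lemma exParent_spec : ∀ i : Fin 14, i ≠ 0 → (exParent i).1 < i.1 ∧
    (∃ j, (exPattern.glue (i, j)).1 = exParent i) ∧
    (∃ j, (exPattern.glue (exParent i, j)).1 = i) := by
  decide +kernel

lemma ex_connected : exPattern.Connected := by
  have key : ∀ m : ℕ, ∀ i : Fin 14, i.1 = m →
      Relation.ReflTransGen (fun k l => ∃ j, (exPattern.glue (k, j)).1 = l) i 0 ∧
      Relation.ReflTransGen (fun k l => ∃ j, (exPattern.glue (k, j)).1 = l) 0 i := by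
    intro m
    induction m using Nat.strong_induction_on with
    | _ m ih =>
      intro i hi
      by_cases h0 : i = 0
      · rw [h0]; exact ⟨Relation.ReflTransGen.refl, Relation.ReflTransGen.refl⟩
      · obtain ⟨h1, h2, h3⟩ := exParent_spec i h0
        obtain ⟨h4, h5⟩ := ih _ (by omega) (exParent i) rfl
        exact ⟨Relation.ReflTransGen.head h2 h4, Relation.ReflTransGen.tail h5 h3⟩
  intro i i'
  exact (key _ i rfl).1.trans (key _ i' rfl).2

def orbitList : Fin 42 → Side 14 :=
  ![(0, 0), (2, 1), (4, 2), (3, 2), (4, 1), (2, 2), (3, 1), (4, 0), (3, 0), (2, 0), (0, 1), (5, 1),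
    (7, 2), (6, 2), (7, 1), (5, 2), (6, 1), (7, 0), (6, 0), (5, 0), (0, 2), (1, 1), (8, 1), (10, 2),
    (9, 2), (10, 1), (8, 2), (9, 1), (10, 0), (9, 0), (8, 0), (1, 2), (11, 1), (13, 2), (12, 2),
    (13, 1), (11, 2), (12, 1), (13, 0), (12, 0), (11, 0), (1, 0)]

lemma orbitList_step : ∀ k : Fin 41, orbitList k.succ =
    ((exPattern.glue (orbitList k.castSucc)).1, (exPattern.glue (orbitList k.castSucc)).2 + 1) := by
  decide +kernel

lemma orbitList_surj : ∀ h : Side 14, ∃ k, orbitList k = h := by
  decide +kernel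

lemma vertex_eq (h : Side 14) : (Quot.mk _ h : exPattern.Vertex) = Quot.mk _ (0, 0) := by
  obtain ⟨k, rfl⟩ := orbitList_surj h
  induction k using Fin.induction with
  | zero => rfl
  | succ k ih =>
    exact (Quot.sound (r := fun h h' => h' = ((exPattern.glue h).1, (exPattern.glue h).2 + 1))
      (orbitList_step k)).symm.trans ih

lemma vertex_subsingleton (v w : exPattern.Vertex) : v = w := by
  obtain ⟨a, rfl⟩ := Quot.exists_rep v
  obtain ⟨b, rfl⟩ := Quot.exists_rep w
  exact (vertex_eq a).trans (vertex_eq b).symm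

lemma card_vertex : Nat.card exPattern.Vertex = 1 := by
  rw [Nat.card_eq_one_iff_unique]
  exact ⟨⟨vertex_subsingleton⟩, ⟨Quot.mk _ (0, 0)⟩⟩

lemma angle_sum {n : ℕ} {P : Pattern n} {e : Side n → ℂ} (he : IsShape P e) (i : Fin n) :
    ∑ j, cornerAngle e (i, j) = Real.pi := by
  have h0 := shape_ne_zero he (i, 0)
  have h2 := shape_ne_zero he (i, 2)
  have hs := he.closed i
  rw [Fin.sum_univ_three]
  show InnerProductGeometry.angle (e (i, 0)) (-e (i, 2)) +
    InnerProductGeometry.angle (e (i, 1)) (-e (i, 0)) +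
    InnerProductGeometry.angle (e (i, 2)) (-e (i, 1)) = Real.pi
  have key := InnerProductGeometry.angle_add_angle_sub_add_angle_sub_eq_pi (e (i, 0))
    (y := -e (i, 2)) (neg_ne_zero.mpr h2)
  have e1 : e (i, 0) - -e (i, 2) = -e (i, 1) := by linear_combination hs
  have e2 : -e (i, 2) - e (i, 0) = e (i, 1) := by linear_combination -hs
  rw [e1, e2] at key
  rw [← key]
  congr 1
  · congr 1
    rw [← InnerProductGeometry.angle_neg_neg, neg_neg, InnerProductGeometry.angle_comm]
  · rw [← InnerProductGeometry.angle_neg_neg, neg_neg]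

lemma ex_coneAngles {t : ℝ} (ht : 0 < t) : coneAngles exPattern (exShape t) = {14 * Real.pi} := by
  classical
  unfold coneAngles
  have huniv : ∀ (inst : Fintype exPattern.Vertex),
      (@Finset.univ _ inst).val.map (coneAngle exPattern (exShape t)) =
        {coneAngle exPattern (exShape t) (Quot.mk _ (0, 0))} := by
    intro inst
    have : (@Finset.univ _ inst) = {(Quot.mk _ (0, 0) : exPattern.Vertex)} := by
      ext v
      simp only [Finset.mem_univ, true_iff]
      exact Finset.mem_singleton.mpr (vertex_subsingleton _ _)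
    rw [this]
    rfl
  rw [huniv]
  congr 1
  have hf : ∀ (inst : DecidablePred fun h : Side 14 =>
      (Quot.mk _ h : exPattern.Vertex) = Quot.mk _ (0, 0)),
      (@Finset.filter _ (fun h : Side 14 => (Quot.mk _ h : exPattern.Vertex) = Quot.mk _ (0, 0))
        inst Finset.univ) = Finset.univ := by
    intro inst
    exact Finset.filter_true_of_mem (fun h _ => vertex_subsingleton _ _)
  unfold coneAngle
  rw [hf]
  rw [Fintype.sum_prod_type]
  rw [Finset.sum_congr rfl (fun i _ => angle_sum (exShape_isShape ht) i)]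
  simp

/-- The surfaces of the example belong to the stratum of genus `4` with one cone point of angle
`14 π`. -/
lemma ex_mem_stratum {t : ℝ} (ht : 0 < t) :
    (⟨⟨14, exPattern⟩, exShape t, exShape_isShape ht⟩ : TriSurf) ∈
      stratum 4 {14 * Real.pi} := by
  refine ⟨ex_connected, ?_, ex_coneAngles ht⟩
  show 2 * (Nat.card exPattern.Vertex : ℤ) - ((14 : ℕ) : ℤ) = 2 * (2 - 2 * ((4 : ℕ) : ℤ))
  rw [card_vertex]
  norm_num

end Pool.Agent.Dilation
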