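import Pool.Agent.Dilation.Example2

namespace Pool.Agent.Dilation

open Topology Filter

/-! ### Barrier directions of points of the moduli space -/

/-- The set of barrier directions of a point of the moduli space. -/
def mdirs {g : ℕ} {κ : Multiset ℝ} (t : Moduli g κ) : Set ℂ :=
  Quot.lift (fun s : stratum g κ => barrierDirs s.1) (fun _ _ h => barrierDirs_eq h) t

lemma lin_one (z : ℂ) : lin 1 z = z := by
  apply Complex.ext <;> simp [lin]

lemma lin_mul (A B : Matrix.SpecialLinearGroup (Fin 2) ℝ) (z : ℂ) :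
    lin (A * B) z = lin A (lin B z) := by
  apply Complex.ext <;> simp [lin, Matrix.mul_apply, Fin.sum_univ_two] <;> ring

lemma act_inv_act (A : Matrix.SpecialLinearGroup (Fin 2) ℝ) (s : TriSurf) :
    act A⁻¹ (act A s) = s := by
  obtain ⟨N, e, he⟩ := s
  have : (fun h => lin A⁻¹ (lin A (e h))) = e := by
    funext h
    rw [← lin_mul, inv_mul_cancel, lin_one]
  unfold act
  simp only [this]

lemma orbit_dirs {g : ℕ} {κ : Multiset ℝ} {t t' : Moduli g κ} (h : t' ∈ orbit t) :
    ∃ B, ∀ d ∈ mdirs t', lin B d ∈ mdirs t := by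
  obtain ⟨s, s', A, rfl, rfl, hA⟩ := h
  refine ⟨A⁻¹, fun d hd => ?_⟩
  have h1 : lin A⁻¹ d ∈ barrierDirs (act A⁻¹ s'.1) := mem_barrierDirs_act hd
  rw [hA, act_inv_act] at h1
  exact h1

lemma isOpen_dirs {ι : Type*} [Finite ι] {U : ι → Set ℂ} (hU : ∀ i, IsOpen (U i)) :
    IsOpen {s : TriSurf | ∀ i, ∃ d ∈ U i, d ∈ barrierDirs s} := by
  rw [isOpen_sigma_iff]
  rintro ⟨n, P⟩
  rw [isOpen_iff_mem_nhds]
  rintro ⟨e, he⟩ h
  have key : ∀ᶠ e' in 𝓝 e, ∀ i, ∀ he' : IsShape P e', ∃ d' ∈ U i,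
      d' ∈ barrierDirs ⟨⟨n, P⟩, e', he'⟩ := by
    rw [Filter.eventually_all]
    intro i
    obtain ⟨d, hdU, hd⟩ := h i
    exact persist he hd ((hU i).mem_nhds hdU)
  have := (continuous_subtype_val (p := fun e => IsShape P e)).continuousAt (x := ⟨e, he⟩)
    |>.eventually key
  filter_upwards [this] with e' he' i
  exact he' i e'.2

lemma isOpen_mdirs {g : ℕ} {κ : Multiset ℝ} {ι : Type*} [Finite ι] {U : ι → Set ℂ}
    (hU : ∀ i, IsOpen (U i)) :
    IsOpen {t : Moduli g κ | ∀ i, ∃ d ∈ U i, d ∈ mdirs t} := by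
  rw [← isQuotientMap_quot_mk.isOpen_preimage]
  exact (isOpen_dirs hU).preimage continuous_subtype_val

/-! ### The cross-ratio -/

/-- The cross-ratio of four vectors. -/
noncomputable def cr (d : Fin 4 → ℂ) : ℝ :=
  det (d 0) (d 1) * det (d 2) (d 3) / (det (d 0) (d 2) * det (d 1) (d 3))

lemma cr_smul {d v : Fin 4 → ℂ} (ρ : Fin 4 → ℝ) (hρ : ∀ i, ρ i ≠ 0)
    (h : ∀ i, v i = ρ i * d i) : cr v = cr d := by
  unfold cr
  rw [h 0, h 1, h 2, h 3]
  simp only [det_smul_left, det_smul_right]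
  have hc : ρ 0 * ρ 1 * ρ 2 * ρ 3 ≠ 0 :=
    mul_ne_zero (mul_ne_zero (mul_ne_zero (hρ 0) (hρ 1)) (hρ 2)) (hρ 3)
  rw [← mul_div_mul_left (det (d 0) (d 1) * det (d 2) (d 3)) _ hc]
  congr 1 <;> ring

lemma cr_lin (B : Matrix.SpecialLinearGroup (Fin 2) ℝ) (d : Fin 4 → ℂ) :
    cr (fun i => lin B (d i)) = cr d := by
  unfold cr
  simp only [det_lin]

lemma cr_quad (t : ℝ) : cr (quad t) = -(1 + t) / t := by
  have h0 : quad t 0 = 1 := rfl
  have h1 : quad t 1 = t + Complex.I := rfl
  have h2 : quad t 2 = -1 - t + Complex.I := rfl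
  have h3 : quad t 3 = -2 * Complex.I := rfl
  have e1 : det (quad t 0) (quad t 1) = 1 := by rw [h0, h1]; simp [det]
  have e2 : det (quad t 2) (quad t 3) = 2 * (1 + t) := by rw [h2, h3]; simp [det]; ring
  have e3 : det (quad t 0) (quad t 2) = 1 := by rw [h0, h2]; simp [det]
  have e4 : det (quad t 1) (quad t 3) = -(2 * t) := by rw [h1, h3]; simp [det]; ring
  unfold cr
  rw [e1, e2, e3, e4, one_mul, one_mul, div_neg, mul_div_mul_left _ _ (two_ne_zero), neg_div]

lemma quad_dets {t : ℝ} (ht : 0 < t) :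
    det (quad t 0) (quad t 2) * det (quad t 1) (quad t 3) ≠ 0 := by
  have h0 : quad t 0 = 1 := rfl
  have h1 : quad t 1 = t + Complex.I := rfl
  have h2 : quad t 2 = -1 - t + Complex.I := rfl
  have h3 : quad t 3 = -2 * Complex.I := rfl
  have e3 : det (quad t 0) (quad t 2) = 1 := by rw [h0, h2]; simp [det]
  have e4 : det (quad t 1) (quad t 3) = -(2 * t) := by rw [h1, h3]; simp [det]; ring
  rw [e3, e4]
  intro h
  linarith

lemma continuousAt_cr {d : Fin 4 → ℂ} (hd : det (d 0) (d 2) * det (d 1) (d 3) ≠ 0) :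
    ContinuousAt cr d := by
  have h : ∀ i j : Fin 4, ContinuousAt (fun x : Fin 4 → ℂ => det (x i) (x j)) d := fun i j =>
    continuousAt_det (continuous_apply i).continuousAt (continuous_apply j).continuousAt
  exact ((h 0 1).mul (h 2 3)).div ((h 0 2).mul (h 1 3)) hd

/-- The cross-ratios of barrier directions of a point of the moduli space take finitely many
values. -/
lemma finite_cr {g : ℕ} {κ : Multiset ℝ} (t : Moduli g κ) :
    ∃ F : Set ℝ, F.Finite ∧ ∀ d : Fin 4 → ℂ, (∀ i, d i ∈ mdirs t) →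
      det (d 0) (d 2) * det (d 1) (d 3) ≠ 0 → cr d ∈ F := by
  obtain ⟨s, rfl⟩ := Quot.exists_rep t
  obtain ⟨D, hD⟩ := finite_dirs s.1
  have hfin : (Set.pi Set.univ fun _ : Fin 4 => (D : Set ℂ)).Finite :=
    Set.Finite.pi fun _ => D.finite_toSet
  refine ⟨cr '' (Set.pi Set.univ fun _ => (D : Set ℂ)), hfin.image _, ?_⟩
  · intro d hd hdet
    have hne : ∀ i, d i ≠ 0 := by
      intro i hi
      apply hdet
      fin_cases i <;> simp at hi <;> simp [det, hi]
    have h1 : ∀ i, ∃ ρ : ℝ, ρ ≠ 0 ∧ (ρ : ℂ) * d i ∈ D := by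
      intro i
      obtain ⟨v, hv, hv0, hdv⟩ := hD (d i) (hd i)
      obtain ⟨ρ, hρ⟩ := exists_real_of_det (hne i) hdv
      refine ⟨ρ, ?_, ?_⟩
      · rintro rfl
        apply hv0
        rw [hρ]; simp
      · rw [← hρ]; exact hv
    choose ρ hρ hρD using h1
    exact ⟨fun i => ρ i * d i, fun i _ => hρD i, cr_smul ρ hρ (fun _ => rfl)⟩

/-- The points of the moduli space given by the example. -/
noncomputable def exPoint (τ : Set.Ioi (0 : ℝ)) : Moduli 4 {14 * Real.pi} :=
  Quot.mk _ ⟨⟨⟨14, exPattern⟩, exShape τ.1, exShape_isShape τ.2⟩, ex_mem_stratum τ.2⟩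

lemma continuous_quad (m : Fin 4) : Continuous fun t : ℝ => quad t m := by
  have h : Continuous fun t : ℝ => (t : ℂ) := Complex.continuous_ofReal
  fin_cases m
  · exact continuous_const
  · exact h.add continuous_const
  · exact (continuous_const.sub h).add continuous_const
  · exact continuous_const

lemma continuous_torus (m : Fin 4) (k j : Fin 3) :
    Continuous fun t : ℝ => torus (quad t m) k j := by
  unfold torus
  exact ((continuous_quad m).neg.mul continuous_const).mul continuous_const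

lemma continuous_exShape : Continuous fun t : ℝ => exShape t := by
  have h : Continuous fun t : ℝ => (t : ℂ) := Complex.continuous_ofReal
  refine continuous_pi ?_
  rintro ⟨i, j⟩
  fin_cases i
  · fin_cases j
    · exact continuous_quad 0
    · exact continuous_quad 1
    · exact (continuous_const.sub h).sub continuous_const
  · fin_cases j
    · exact (continuous_const.add h).add continuous_const
    · exact continuous_quad 2
    · exact continuous_quad 3
  · exact continuous_torus 0 0 j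
  · exact continuous_torus 0 1 j
  · exact continuous_torus 0 2 j
  · exact continuous_torus 1 0 j
  · exact continuous_torus 1 1 j
  · exact continuous_torus 1 2 j
  · exact continuous_torus 2 0 j
  · exact continuous_torus 2 1 j
  · exact continuous_torus 2 2 j
  · exact continuous_torus 3 0 j
  · exact continuous_torus 3 1 j
  · exact continuous_torus 3 2 j

lemma continuous_exPoint : Continuous exPoint := by
  refine continuous_quot_mk.comp ?_
  refine Continuous.subtype_mk ?_ _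
  exact continuous_sigmaMk.comp
    ((continuous_exShape.comp continuous_subtype_val).subtype_mk _)

lemma exPoint_mem (τ σ : Set.Ioi (0 : ℝ)) : exPoint τ ∈ connectedComponent (exPoint σ) := by
  have : PreconnectedSpace (Set.Ioi (0 : ℝ)) :=
    Subtype.preconnectedSpace isPreconnected_Ioi
  have h : IsPreconnected (Set.range exPoint) := isPreconnected_range continuous_exPoint
  exact h.subset_connectedComponent ⟨σ, rfl⟩ ⟨τ, rfl⟩

/-- If `[exPoint τ]` is in the closure of the orbit of `t`, the cross-ratio of `quad τ` is one of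
the cross-ratios of `t`. -/
lemma cr_mem_of_closure {t : Moduli 4 {14 * Real.pi}} {τ : Set.Ioi (0 : ℝ)}
    (h : exPoint τ ∈ closure (orbit t)) {F : Set ℝ} (hF : F.Finite)
    (hcr : ∀ d : Fin 4 → ℂ, (∀ i, d i ∈ mdirs t) →
      det (d 0) (d 2) * det (d 1) (d 3) ≠ 0 → cr d ∈ F) : cr (quad τ) ∈ F := by
  by_contra hn
  have hτ : 0 < τ.1 := τ.2
  have hd := quad_dets hτ
  have h1 : ∀ᶠ d in 𝓝 (quad τ.1), cr d ∉ F :=
    (continuousAt_cr hd).eventually (hF.isClosed.isOpen_compl.mem_nhds hn)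
  have h2 : ∀ᶠ d in 𝓝 (quad τ.1), det (d 0) (d 2) * det (d 1) (d 3) ≠ 0 := by
    have h : ∀ i j : Fin 4, ContinuousAt (fun x : Fin 4 → ℂ => det (x i) (x j)) (quad τ.1) :=
      fun i j => continuousAt_det (continuous_apply i).continuousAt
        (continuous_apply j).continuousAt
    exact ((h 0 2).mul (h 1 3)).eventually_ne hd
  have h3 := h1.and h2
  rw [nhds_pi] at h3
  obtain ⟨I, V, hV, hVs⟩ := Filter.mem_pi'.mp h3
  have h4 : ∀ i, ∃ U ⊆ V i, IsOpen U ∧ quad τ.1 i ∈ U := fun i => mem_nhds_iff.mp (hV i)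
  choose U hUV hUo hqU using h4
  have hopen := isOpen_mdirs (g := 4) (κ := {14 * Real.pi}) hUo
  have hmem : exPoint τ ∈ {t : Moduli 4 {14 * Real.pi} | ∀ i, ∃ d ∈ U i, d ∈ mdirs t} :=
    fun i => ⟨quad τ.1 i, hqU i, quad_mem_barrierDirs hτ i⟩
  obtain ⟨t', ht', hor⟩ := mem_closure_iff.mp h _ hopen hmem
  choose d hdU hdt using ht'
  obtain ⟨B, hB⟩ := orbit_dirs hor
  have h5 := hVs (fun i _ => hUV i (hdU i))
  have h6 := hcr (fun i => lin B (d i)) (fun i => hB _ (hdt i)) (by
    simp only [det_lin]; exact h5.2)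
  rw [cr_lin] at h6
  exact h5.1 h6

theorem main : (∃ t₀ : Moduli 4 {14 * Real.pi}, ∀ t ∈ connectedComponent t₀,
    closure (orbit t) ≠ connectedComponent t₀) ∧ ¬ DenseOrbits := by
  have key : ∀ t : Moduli 4 {14 * Real.pi},
      closure (orbit t) ≠ connectedComponent (exPoint ⟨1, Set.mem_Ioi.mpr one_pos⟩) := by
    intro t heq
    obtain ⟨F, hF, hcr⟩ := finite_cr t
    have h1 : ∀ τ : ℝ, 0 < τ → -(1 + τ) / τ ∈ F := by
      intro τ hτ
      rw [← cr_quad]
      refine cr_mem_of_closure (τ := ⟨τ, hτ⟩) ?_ hF hcr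
      rw [heq]
      exact exPoint_mem _ _
    have h2 : ((fun τ : ℝ => -(1 + τ) / τ) '' Set.Ioi 0).Infinite := by
      refine Set.Infinite.image ?_ (Set.Ioi_infinite 0)
      intro a ha b hb hab
      have ha : 0 < a := ha
      have hb : 0 < b := hb
      simp only at hab
      rw [div_eq_div_iff ha.ne' hb.ne'] at hab
      linarith
    exact h2 (hF.subset (by rintro _ ⟨τ, hτ, rfl⟩; exact h1 τ hτ))
  refine ⟨⟨exPoint ⟨1, Set.mem_Ioi.mpr one_pos⟩, fun t _ => key t⟩, ?_⟩
  intro h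
  obtain ⟨t, -, ht⟩ := h 4 {14 * Real.pi} (by norm_num) (exPoint ⟨1, Set.mem_Ioi.mpr one_pos⟩)
  exact key t ht

end Pool.Agent.Dilation
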