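import Pool.Agent.Dilation.EdgeBarrier

namespace Pool.Agent.Dilation

open Topology Filter

variable {n : ℕ} {P : Pattern n} {e : Side n → ℂ} {he : IsShape P e} {d : ℂ}
  {S : Space P → SignType} {K : Set (Fin n)} {g : Fin n → Fin 3 → ℝ}

lemma isClosed_space {A : Set (Space P)} (h : ∀ i, IsClosed (point P i ⁻¹' A)) : IsClosed A := by
  rw [← isQuotientMap_quot_mk.isClosed_preimage]
  have : Quot.mk (Glued P) ⁻¹' A =
      ⋃ i : Fin n, (Prod.fst ⁻¹' {i} ∩ Prod.snd ⁻¹' (point P i ⁻¹' A)) := by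
    ext ⟨k, b⟩
    simp only [Set.mem_preimage, Set.mem_iUnion, Set.mem_inter_iff, Set.mem_singleton_iff]
    constructor
    · intro h; exact ⟨k, rfl, h⟩
    · rintro ⟨i, hi, h⟩
      rw [← hi] at h; exact h
  rw [this]
  apply isClosed_iUnion_of_finite
  intro i
  exact ((isClosed_discrete _).preimage continuous_fst).inter ((h i).preimage continuous_snd)

lemma isVertex_eq_vtx {b : Tri} (hb : IsVertex b) : ∃ j, b = vtx j := by
  obtain ⟨j, hj⟩ := hb
  exact ⟨j, isVertex_eq hj (vtx_self j)⟩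

lemma aff_off {i : Fin n} (hg : IsComb P e d K g) (hi : i ∉ K) (b : Tri) : aff (g i) b ≠ 0 := by
  rcases hg.off i hi with h | h
  · rw [show g i = fun _ => 1 from funext h, aff_const]; norm_num
  · rw [show g i = fun _ => -1 from funext h, aff_const]; norm_num

/-- A barrier which does not run along a side starts or ends at a vertex of a triangle. -/
lemma exists_vertex_zero (hS : IsBarrier ⟨⟨n, P⟩, e, he⟩ d S) (hg : IsComb P e d K g)
    (hsign : ∀ i b, ¬ IsVertex b → S (point P i b) = SignType.sign (aff (g i) b)) :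
    ∃ i ∈ K, ∃ j, g i j = 0 := by
  by_contra hcon
  push Not at hcon
  apply hS.not_closed
  apply isClosed_space
  intro i
  by_cases hi : i ∈ K
  · have : point P i ⁻¹' {q | q ∉ conePoints P ∧ S q = 0} = {b | aff (g i) b = 0} := by
      ext b
      constructor
      · rintro ⟨h1, h2⟩
        rw [point_mem_conePoints] at h1
        rw [hsign i b h1, sign_eq_zero_iff] at h2
        exact h2
      · intro h
        have hb : ¬ IsVertex b := by
          intro hb
          obtain ⟨j, rfl⟩ := isVertex_eq_vtx hb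
          change aff (g i) (vtx j) = 0 at h
          rw [aff_vtx] at h
          exact hcon i hi j h
        refine ⟨by rw [point_mem_conePoints]; exact hb, ?_⟩
        rw [hsign i b hb, sign_eq_zero_iff]
        exact h
    show IsClosed (point P i ⁻¹' {q | q ∉ conePoints P ∧ S q = 0})
    rw [this]
    exact isClosed_eq (continuous_aff _) continuous_const
  · have : point P i ⁻¹' {q | q ∉ conePoints P ∧ S q = 0} = ∅ := by
      ext b
      simp only [Set.mem_empty_iff_false, iff_false]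
      rintro ⟨h1, h2⟩
      rw [point_mem_conePoints] at h1
      rw [hsign i b h1, sign_eq_zero_iff] at h2
      exact aff_off hg hi b h2
    show IsClosed (point P i ⁻¹' {q | q ∉ conePoints P ∧ S q = 0})
    rw [this]
    exact isClosed_empty

lemma IsBarrier.neg {s : TriSurf} {S : Space s.1.2 → SignType} (hS : IsBarrier s d S) :
    IsBarrier s (-d) (fun q => -S q) := by
  have h0 : ∀ x : SignType, -x = 0 ↔ x = 0 := by decide
  refine ⟨neg_ne_zero.mpr hS.dir, ?_, ?_, ?_, ?_⟩
  · intro i b hb hz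
    rw [h0] at hz
    filter_upwards [hS.zero i b hb hz] with b₁ hb₁
    rw [hb₁, ← Left.sign_neg]
    congr 1
    simp only [det, Complex.neg_re, Complex.neg_im]
    ring
  · intro i b hb hz
    rw [Ne, h0] at hz
    filter_upwards [hS.ne_zero i b hb hz] with b₁ hb₁
    rw [hb₁]
  · simp only [h0]; exact hS.conn
  · simp only [h0]; exact hS.not_closed

lemma IsBarrier.smul {s : TriSurf} {S : Space s.1.2 → SignType} (hS : IsBarrier s d S) {a : ℝ}
    (ha : 0 < a) : IsBarrier s (a * d) S := by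
  refine ⟨mul_ne_zero (by exact_mod_cast ha.ne') hS.dir, ?_, hS.ne_zero, hS.conn, hS.not_closed⟩
  intro i b hb hz
  filter_upwards [hS.zero i b hb hz] with b₁ hb₁
  rw [hb₁, det_smul_left, sign_pos_mul ha]

lemma neg_mem_barrierDirs {s : TriSurf} (h : d ∈ barrierDirs s) : -d ∈ barrierDirs s := by
  obtain ⟨S, hS⟩ := h
  exact ⟨_, hS.neg⟩

lemma smul_mem_barrierDirs {s : TriSurf} (h : d ∈ barrierDirs s) {a : ℝ} (ha : 0 < a) :
    (a : ℂ) * d ∈ barrierDirs s := by
  obtain ⟨S, hS⟩ := h
  exact ⟨_, hS.smul ha⟩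

lemma IsComb.neg (hg : IsComb P e d K g) : IsComb P e (-d) K (fun i j => -g i j) := by
  refine ⟨?_, ?_, ?_⟩
  · intro i hi j
    have h1 := hg.grad i hi j
    have h2 : det (-d) (e (i, j)) = -det d (e (i, j)) := by
      simp only [det, Complex.neg_re, Complex.neg_im]; ring
    rw [h2, ← h1]; ring
  · intro i hi
    rcases hg.off i hi with h | h
    · exact Or.inr fun j => by rw [h]
    · exact Or.inl fun j => by rw [h, neg_neg]
  · intro h t ht
    have h2 := hg.compat h t ht
    have h3 : (1 - t) * -g h.1 h.2 + t * -g h.1 (h.2 + 1) =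
        -((1 - t) * g h.1 h.2 + t * g h.1 (h.2 + 1)) := by ring
    have h4 : (1 - t) * -g (P.glue h).1 ((P.glue h).2 + 1) + t * -g (P.glue h).1 (P.glue h).2 =
        -((1 - t) * g (P.glue h).1 ((P.glue h).2 + 1) + t * g (P.glue h).1 (P.glue h).2) := by
      ring
    rw [h3, h4, Left.sign_neg, Left.sign_neg, h2]

/-- The structure of a barrier which does not run along a side. -/
theorem exists_structure (hS : IsBarrier ⟨⟨n, P⟩, e, he⟩ d S)
    (hN : ∀ h, det d (e h) = 0 → ∀ t ∈ Set.Ioo (0 : ℝ) 1, S (point P h.1 (side h.2 t)) ≠ 0) :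
    ∃ (d' : ℂ) (S' : Space P → SignType) (K : Set (Fin n)) (g : Fin n → Fin 3 → ℝ) (i₀ : Fin n)
      (j₀ : Fin 3) (k : ℕ) (seq : ℕ → Side n) (tri : ℕ → Fin n) (j₁ : Fin 3) (ρ : ℝ),
      (d' = d ∨ d' = -d) ∧ IsBarrier ⟨⟨n, P⟩, e, he⟩ d' S' ∧ IsComb P e d' K g ∧
      (∀ i b, ¬ IsVertex b → S' (point P i b) = SignType.sign (aff (g i) b)) ∧
      (∀ i ∈ K, (∃ j, g i j < 0) ∧ (∃ j, 0 < g i j)) ∧
      g i₀ j₀ = 0 ∧ g i₀ (j₀ + 1) < 0 ∧ 0 < g i₀ (j₀ + 2) ∧
      Chain P e d' g i₀ j₀ k seq tri j₁ ρ := by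
  obtain ⟨K, g, hg, hsign, hK⟩ := exists_comb hS hN
  obtain ⟨i, hi, j, hj⟩ := exists_vertex_zero hS hg hsign
  have hcases : (g i (j + 1) < 0 ∧ 0 < g i (j + 2)) ∨ (0 < g i (j + 1) ∧ g i (j + 2) < 0) := by
    obtain ⟨⟨a, ha⟩, ⟨b, hb⟩⟩ := hK i hi
    have ha' : a = j + 1 ∨ a = j + 2 := by
      rcases fin3_cases j a with h | h | h
      · rw [h] at ha; linarith
      · exact Or.inl h
      · exact Or.inr h
    have hb' : b = j + 1 ∨ b = j + 2 := by
      rcases fin3_cases j b with h | h | h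
      · rw [h] at hb; linarith
      · exact Or.inl h
      · exact Or.inr h
    rcases ha' with h | h <;> rcases hb' with h' | h' <;> rw [h] at ha <;> rw [h'] at hb
    · exfalso; linarith
    · left; exact ⟨ha, hb⟩
    · right; exact ⟨hb, ha⟩
    · exfalso; linarith
  rcases hcases with ⟨h1, h2⟩ | ⟨h1, h2⟩
  · obtain ⟨k, seq, tri, j₁, ρ, hch⟩ := exists_chain he hg hS.dir hK hj h1 h2
    exact ⟨d, S, K, g, i, j, k, seq, tri, j₁, ρ, Or.inl rfl, hS, hg, hsign, hK, hj, h1, h2, hch⟩
  · have hK' : ∀ i ∈ K, (∃ j, -g i j < 0) ∧ (∃ j, 0 < -g i j) := by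
      intro i hi
      obtain ⟨⟨a, ha⟩, ⟨b, hb⟩⟩ := hK i hi
      exact ⟨⟨b, by linarith⟩, ⟨a, by linarith⟩⟩
    obtain ⟨k, seq, tri, j₁, ρ, hch⟩ := exists_chain he hg.neg (neg_ne_zero.mpr hS.dir) hK'
      (i₀ := i) (j₀ := j) (by linarith) (by linarith) (by linarith)
    refine ⟨-d, _, K, _, i, j, k, seq, tri, j₁, ρ, Or.inr rfl, hS.neg, hg.neg, ?_, hK',
      by linarith, by linarith, by linarith, hch⟩
    intro i b hb
    rw [hsign i b hb, ← Left.sign_neg]
    congr 1
    simp only [aff, Fin.sum_univ_three]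
    ring

/-- In a triangle crossed by the barrier there is a point of the barrier which is not a vertex. -/
lemma exists_zero_point {i : Fin n} (h : (∃ j, g i j < 0) ∧ (∃ j, 0 < g i j)) :
    ∃ b, ¬ IsVertex b ∧ aff (g i) b = 0 := by
  obtain ⟨⟨a, ha⟩, ⟨b, hb⟩⟩ := h
  have hBA : 0 < g i b - g i a := by linarith
  have ht : -g i a / (g i b - g i a) ∈ Set.Ioo (0 : ℝ) 1 := by
    constructor
    · exact div_pos (by linarith) hBA
    · rw [div_lt_one hBA]; linarith
  have hab : vtx a ≠ vtx b := by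
    intro h
    have := vtx_injective h
    rw [this] at ha; linarith
  refine ⟨mix (vtx a) (vtx b) (-g i a / (g i b - g i a)), not_isVertex_mix ht hab, ?_⟩
  rw [aff_mix _ _ _ ⟨ht.1.le, ht.2.le⟩, aff_vtx, aff_vtx]
  field_simp
  ring

/-- All the triangles crossed by the barrier belong to the chain. -/
theorem chain_all (hS : IsBarrier ⟨⟨n, P⟩, e, he⟩ d S) (hg : IsComb P e d K g)
    (hsign : ∀ i b, ¬ IsVertex b → S (point P i b) = SignType.sign (aff (g i) b))
    (hK : ∀ i ∈ K, (∃ j, g i j < 0) ∧ (∃ j, 0 < g i j))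
    {i₀ : Fin n} {j₀ : Fin 3} {k : ℕ} {seq : ℕ → Side n} {tri : ℕ → Fin n} {j₁ : Fin 3} {ρ : ℝ}
    (h0 : g i₀ j₀ = 0) (h1 : g i₀ (j₀ + 1) < 0)
    (hch : Chain P e d g i₀ j₀ k seq tri j₁ ρ) :
    ∀ i, i ∈ K ↔ ∃ r ≤ k + 1, tri r = i := by
  have hmem : ∀ r ≤ k + 1, tri r ∈ K := by
    intro r hr
    rcases Nat.lt_or_ge k r with h | h
    · have : r = k + 1 := by omega
      subst this
      exact mem_K_of_lt hg (hch.end_neg.trans hch.end_pos)
    · rw [← hch.seq_tri r h]
      exact mem_K_of_lt hg ((hch.out r h).1.trans (hch.out r h).2)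
  set K₀ : Set (Fin n) := {i | ∃ r ≤ k + 1, tri r = i} with hK₀
  -- zeros on sides
  have hstep : ∀ h : Side n, h.1 ∈ K₀ → ∀ t ∈ Set.Ioo (0 : ℝ) 1,
      (1 - t) * g h.1 h.2 + t * g h.1 (h.2 + 1) = 0 → (P.glue h).1 ∈ K₀ := by
    rintro h ⟨r, hr, hrh⟩ t ht hz
    have hKh : h.1 ∈ K := hrh ▸ hmem r hr
    have hcase : Out g h ∨ In g h := by
      rcases lt_trichotomy (g h.1 h.2) 0 with hA | hA | hA
      · left
        refine ⟨hA, ?_⟩
        by_contra hc
        push Not at hc
        have e1 := mul_neg_of_pos_of_neg (show 0 < 1 - t by linarith [ht.2]) hA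
        have e2 := mul_nonpos_of_nonneg_of_nonpos ht.1.le hc
        linarith
      · exfalso
        rw [hA, mul_zero, zero_add] at hz
        have hB : g h.1 (h.2 + 1) = 0 := by
          rcases mul_eq_zero.mp hz with h | h
          · linarith [ht.1]
          · exact h
        obtain ⟨⟨a, ha⟩, ⟨b, hb⟩⟩ := hK _ hKh
        rcases fin3_cases h.2 a with rfl | rfl | rfl
        · linarith
        · linarith
        · rcases fin3_cases h.2 b with rfl | rfl | rfl <;> linarith
      · right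
        refine ⟨hA, ?_⟩
        by_contra hc
        push Not at hc
        have e1 := mul_pos (show 0 < 1 - t by linarith [ht.2]) hA
        have e2 := mul_nonneg ht.1.le hc
        linarith
    rcases hcase with hc | hc
    · have hrk : r ≤ k := by
        by_contra hcon
        have : r = k + 1 := by omega
        subst this
        exact hch.no_out h hrh.symm hc
      have := (hch.out r hrk).unique hc (by rw [hch.seq_tri r hrk, hrh])
      rw [← this]
      exact ⟨r + 1, by omega, (hch.glue_tri r hrk).symm⟩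
    · have hr0 : r ≠ 0 := by
        rintro rfl
        rw [hch.tri_zero] at hrh
        obtain ⟨e1, e2⟩ := hc
        rw [← hrh] at e1 e2
        rcases fin3_cases j₀ h.2 with h' | h' | h'
        · rw [h'] at e1; linarith
        · rw [h'] at e1; linarith
        · rw [h', (fin3_add j₀).1] at e2; linarith
      obtain ⟨c, rfl⟩ : ∃ c, r = c + 1 := ⟨r - 1, by omega⟩
      have hin := ((hch.out c (by omega)).glue he hg).1
      have := hin.unique hc (by rw [hch.glue_tri c (by omega), hrh])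
      rw [← this, P.glue_glue]
      exact ⟨c, by omega, (hch.seq_tri c (by omega)).symm⟩
  -- the property of belonging to the chain is well defined on the zero set
  have hwd : ∀ i b i' b', ¬ IsVertex b → aff (g i) b = 0 → point P i b = point P i' b' →
      i ∈ K₀ → i' ∈ K₀ := by
    intro i b i' b' hb hz hpt hi
    rcases point_eq hb hpt with h | h
    · rw [Prod.mk.injEq] at h; rw [← h.1]; exact hi
    · obtain ⟨h, t, ht, h3, h4, h5, h6⟩ := h.exists_side hb
      rw [h5]
      refine hstep h (h3 ▸ hi) t ht ?_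
      rw [← aff_side _ _ ⟨ht.1.le, ht.2.le⟩, ← h4, ← h3]
      exact hz
  intro i
  constructor
  swap
  · rintro ⟨r, hr, rfl⟩; exact hmem r hr
  intro hi
  by_contra hni
  change i ∉ K₀ at hni
  let C : Set (Fin n) → Set (Space P) := fun A =>
    {q | ∃ i b, i ∈ A ∧ ¬ IsVertex b ∧ aff (g i) b = 0 ∧ q = point P i b}
  have hCsub : ∀ A, ∀ q ∈ C A, q ∉ conePoints P ∧ S q = 0 := by
    rintro A q ⟨i, b, _, hb, hz, rfl⟩
    refine ⟨by rw [point_mem_conePoints]; exact hb, ?_⟩
    rw [hsign i b hb, hz, sign_zero]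
  have hCclosed : ∀ A : Set (Fin n), (∀ i b i' b', ¬ IsVertex b → aff (g i) b = 0 →
      point P i b = point P i' b' → i ∈ A → i' ∈ A) → IsClosed (C A ∪ conePoints P) := by
    intro A hA
    apply isClosed_space
    intro i
    have hpre : point P i ⁻¹' (C A ∪ conePoints P) =
        {b | IsVertex b} ∪ {b | i ∈ A ∧ aff (g i) b = 0} := by
      ext b
      constructor
      · rintro (⟨i', b', hi', hb', hz, hq⟩ | h)
        · right
          refine ⟨hA i' b' i b hb' hz hq.symm hi', ?_⟩
          have hb : ¬ IsVertex b := fun hb => hb' (isVertex_of_point_eq hq hb)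
          have h5 := hsign i b hb
          rw [hq, hsign i' b' hb', hz, sign_zero] at h5
          exact sign_eq_zero_iff.mp h5.symm
        · left; exact point_mem_conePoints.mp h
      · rintro (h | ⟨hiA, hz⟩)
        · right; exact point_mem_conePoints.mpr h
        · by_cases hb : IsVertex b
          · right; exact point_mem_conePoints.mpr hb
          · left; exact ⟨i, b, hiA, hb, hz, rfl⟩
    rw [hpre]
    refine isClosed_isVertex.union ?_
    by_cases hiA : i ∈ A
    · simp only [hiA, true_and]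
      exact isClosed_eq (continuous_aff _) continuous_const
    · simp only [hiA, false_and]
      exact isClosed_empty
  have hwd' : ∀ i b i' b', ¬ IsVertex b → aff (g i) b = 0 → point P i b = point P i' b' →
      i ∈ K₀ᶜ → i' ∈ K₀ᶜ := by
    intro i b i' b' hb hz hpt hi hi'
    have hb' : ¬ IsVertex b' := fun h => hb (isVertex_of_point_eq hpt.symm h)
    have hz' : aff (g i') b' = 0 := by
      have h5 := hsign i' b' hb'
      rw [← hpt, hsign i b hb, hz, sign_zero] at h5
      exact sign_eq_zero_iff.mp h5.symm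
    exact hi (hwd i' b' i b hb' hz' hpt.symm hi')
  have hpc := isPreconnected_closed_iff.mp hS.conn (C K₀ ∪ conePoints P) (C K₀ᶜ ∪ conePoints P)
    (hCclosed K₀ hwd) (hCclosed K₀ᶜ hwd') (by
      rintro q ⟨hq1, hq2⟩
      obtain ⟨i, b, rfl⟩ := exists_point q
      rw [point_mem_conePoints] at hq1
      rw [hsign i b hq1, sign_eq_zero_iff] at hq2
      by_cases hiK : i ∈ K₀
      · exact Or.inl (Or.inl ⟨i, b, hiK, hq1, hq2, rfl⟩)
      · exact Or.inr (Or.inl ⟨i, b, hiK, hq1, hq2, rfl⟩)) (by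
      obtain ⟨b, hb, hz⟩ := exists_zero_point (hK _ (hmem 0 (by omega)))
      have hq : point P (tri 0) b ∈ C K₀ := ⟨_, b, ⟨0, by omega, rfl⟩, hb, hz, rfl⟩
      exact ⟨_, hCsub _ _ hq, Or.inl hq⟩) (by
      obtain ⟨b, hb, hz⟩ := exists_zero_point (hK _ hi)
      have hq : point P i b ∈ C K₀ᶜ := ⟨_, b, hni, hb, hz, rfl⟩
      exact ⟨_, hCsub _ _ hq, Or.inl hq⟩)
  obtain ⟨q, ⟨hq1, hq2⟩, hq3, hq4⟩ := hpc
  rcases hq3 with ⟨i, b, hi', hb, hz, rfl⟩ | h
  · rcases hq4 with ⟨i', b', hi'', hb', hz', hq⟩ | h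
    · exact hi'' (hwd i b i' b' hb hz hq hi')
    · exact hq1 h
  · exact hq1 h

end Pool.Agent.Dilation
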