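import Pool.Agent.Dilation.CaseE

namespace Pool.Agent.Dilation

open Topology Filter

variable {n : ℕ} {P : Pattern n} {e : Side n → ℂ} {d : ℂ} {K : Set (Fin n)}
  {g : Fin n → Fin 3 → ℝ}

lemma continuousAt_ratio (he : IsShape P e) (h : Side n) :
    ContinuousAt (fun e' : Side n → ℂ => ratio P e' h) e := by
  unfold ratio
  refine ContinuousAt.div (continuous_apply (P.glue h)).norm.continuousAt
    (continuous_apply h).norm.continuousAt ?_
  exact (norm_pos_iff.mpr (shape_ne_zero he h)).ne'

lemma continuous_vert (i : Fin n) (j : Fin 3) :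
    Continuous (fun e' : Side n → ℂ => vert e' i j) := by
  unfold vert
  split_ifs <;> fun_prop

lemma continuousAt_dev (he : IsShape P e) (v₀ : Side n) (seq : ℕ → Side n) (r : ℕ) :
    ContinuousAt (fun e' : Side n → ℂ => dev P e' v₀ seq r) e := by
  induction r with
  | zero => exact (continuous_vert v₀.1 v₀.2).continuousAt
  | succ r ih =>
    show ContinuousAt (fun e' : Side n → ℂ =>
      vert e' (P.glue (seq r)).1 ((P.glue (seq r)).2 + 1) + ratio P e' (seq r) *
        (dev P e' v₀ seq r - vert e' (seq r).1 (seq r).2)) e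
    refine ContinuousAt.add (continuous_vert _ _).continuousAt (ContinuousAt.mul ?_ ?_)
    · exact Complex.continuous_ofReal.continuousAt.comp (continuousAt_ratio he _)
    · exact ih.sub (continuous_vert _ _).continuousAt

lemma continuousAt_det {X : Type*} [TopologicalSpace X] {x : X} {f g : X → ℂ}
    (hf : ContinuousAt f x) (hg : ContinuousAt g x) :
    ContinuousAt (fun y => det (f y) (g y)) x := by
  unfold det
  have h1 := Complex.continuous_re.continuousAt.comp hf
  have h2 := Complex.continuous_im.continuousAt.comp hf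
  have h3 := Complex.continuous_re.continuousAt.comp hg
  have h4 := Complex.continuous_im.continuousAt.comp hg
  exact (h1.mul h4).sub (h2.mul h3)

lemma eventually_sign {X : Type*} [TopologicalSpace X] {x : X} {f : X → ℝ}
    (hf : ContinuousAt f x) (h : f x ≠ 0) :
    ∀ᶠ y in 𝓝 x, SignType.sign (f y) = SignType.sign (f x) := by
  rcases lt_or_gt_of_ne h with h | h
  · filter_upwards [hf.eventually (gt_mem_nhds h)] with y hy
    rw [sign_neg h, sign_neg hy]
  · filter_upwards [hf.eventually (lt_mem_nhds h)] with y hy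
    rw [sign_pos h, sign_pos hy]

/-- The sign along a side is determined by the signs at the end points, unless these are
opposite. -/
lemma sign_mix {A B A' B' t : ℝ} (ht : t ∈ Set.Ioo (0 : ℝ) 1)
    (hA : SignType.sign A' = SignType.sign A) (hB : SignType.sign B' = SignType.sign B)
    (h1 : ¬ (A < 0 ∧ 0 < B)) (h2 : ¬ (0 < A ∧ B < 0)) :
    SignType.sign ((1 - t) * A' + t * B') = SignType.sign ((1 - t) * A + t * B) := by
  have ht1 : 0 < 1 - t := by linarith [ht.2]
  have key : ∀ A B : ℝ, ¬ (A < 0 ∧ 0 < B) → ¬ (0 < A ∧ B < 0) →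
      SignType.sign ((1 - t) * A + t * B) =
        if SignType.sign A = 0 then SignType.sign B else SignType.sign A := by
    intro A B h1 h2
    rcases lt_trichotomy A 0 with hA | hA | hA
    · have hB : B ≤ 0 := by
        by_contra hc
        push Not at hc
        exact h1 ⟨hA, hc⟩
      rw [sign_neg hA, if_neg (by decide)]
      apply sign_neg
      have e1 := mul_neg_of_pos_of_neg ht1 hA
      have e2 := mul_nonpos_of_nonneg_of_nonpos ht.1.le hB
      linarith
    · rw [hA, sign_zero, if_pos rfl, mul_zero, zero_add, sign_pos_mul ht.1]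
    · have hB : 0 ≤ B := by
        by_contra hc
        push Not at hc
        exact h2 ⟨hA, hc⟩
      rw [sign_pos hA, if_neg (by decide)]
      apply sign_pos
      have e1 := mul_pos ht1 hA
      have e2 := mul_nonneg ht.1.le hB
      linarith
  have hneg : ∀ {x y : ℝ}, SignType.sign y = SignType.sign x → (y < 0 ↔ x < 0) := by
    intro x y h
    rw [← sign_eq_neg_one_iff, h, sign_eq_neg_one_iff]
  have hpos : ∀ {x y : ℝ}, SignType.sign y = SignType.sign x → (0 < y ↔ 0 < x) := by
    intro x y h
    rw [← sign_eq_one_iff, h, sign_eq_one_iff]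
  rw [key A B h1 h2, key A' B' (by rw [hneg hA, hpos hB]; exact h1)
    (by rw [hpos hA, hneg hB]; exact h2), hA, hB]

/-- A barrier which does not run along a side persists under small deformations. -/
theorem persist_N (he : IsShape P e) (hd : d ≠ 0) (hg : IsComb P e d K g)
    {i₀ : Fin n} {j₀ : Fin 3} {k : ℕ} {seq : ℕ → Side n} {tri : ℕ → Fin n} {j₁ : Fin 3} {ρ : ℝ}
    (h0 : g i₀ j₀ = 0) (h1 : g i₀ (j₀ + 1) < 0) (h2 : 0 < g i₀ (j₀ + 2))
    (hch : Chain P e d g i₀ j₀ k seq tri j₁ ρ) (hK : ∀ i, i ∈ K ↔ ∃ r ≤ k + 1, tri r = i)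
    {U : Set ℂ} (hU : U ∈ 𝓝 d) :
    ∀ᶠ e' in 𝓝 e, ∀ he' : IsShape P e', ∃ d' ∈ U, d' ∈ barrierDirs ⟨⟨n, P⟩, e', he'⟩ := by
  classical
  let dir : (Side n → ℂ) → ℂ := fun e' =>
    (ρ⁻¹ : ℝ) * (vert e' (tri (k + 1)) j₁ - dev P e' (i₀, j₀) seq (k + 1))
  let G : (Side n → ℂ) → ℕ → Fin 3 → ℝ := fun e' r j =>
    det (dir e') (vert e' (tri r) j - dev P e' (i₀, j₀) seq r)
  have hρ := hch.rho_pos
  have hρC : (ρ : ℂ) ≠ 0 := by exact_mod_cast hρ.ne'
  have hdir : dir e = d := by
    show (ρ⁻¹ : ℝ) * (vert e (tri (k + 1)) j₁ - dev P e (i₀, j₀) seq (k + 1)) = d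
    rw [hch.end_dev]
    push_cast
    field_simp
    ring
  have hdirc : ContinuousAt dir e :=
    ContinuousAt.mul continuousAt_const
      ((continuous_vert _ _).continuousAt.sub (continuousAt_dev he _ _ _))
  have hGc : ∀ r j, ContinuousAt (fun e' => G e' r j) e := fun r j =>
    continuousAt_det hdirc ((continuous_vert _ _).continuousAt.sub (continuousAt_dev he _ _ _))
  have hGe : ∀ r ≤ k + 1, ∀ j, G e r j = g (tri r) j := by
    intro r hr j
    rw [hch.dev_eq r hr j]
    show det (dir e) _ = _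
    rw [hdir]
  have ev1 : ∀ᶠ e' in 𝓝 e, dir e' ∈ U := hdirc.eventually (by rw [hdir]; exact hU)
  have ev2 : ∀ᶠ e' in 𝓝 e, dir e' ≠ 0 := hdirc.eventually_ne (by rw [hdir]; exact hd)
  have ev3 : ∀ᶠ e' in 𝓝 e, ∀ r ∈ Set.Iic (k + 1), ∀ j, g (tri r) j ≠ 0 →
      SignType.sign (G e' r j) = SignType.sign (g (tri r) j) := by
    rw [Filter.eventually_all_finite (Set.finite_Iic (k + 1))]
    intro r hr
    rw [Filter.eventually_all]
    intro j
    by_cases hz : g (tri r) j = 0
    · exact Filter.Eventually.of_forall fun _ h => absurd hz h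
    · have := eventually_sign (hGc r j) (by rw [hGe r hr]; exact hz)
      filter_upwards [this] with e' he' _
      rw [he', hGe r hr]
  filter_upwards [ev1, ev2, ev3] with e' hU' hne hsg he'
  refine ⟨dir e', hU', ?_⟩
  let g' : Fin n → Fin 3 → ℝ := fun i j =>
    if h : ∃ r ≤ k + 1, tri r = i then G e' h.choose j else g i j
  have hg'1 : ∀ r ≤ k + 1, ∀ j, g' (tri r) j = G e' r j := by
    intro r hr j
    have h : ∃ r' ≤ k + 1, tri r' = tri r := ⟨r, hr, rfl⟩
    show (if h : ∃ r' ≤ k + 1, tri r' = tri r then G e' h.choose j else g (tri r) j) = _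
    rw [dif_pos h]
    have : h.choose = r := hch.inj (show h.choose ∈ Set.Iic (k + 1) from h.choose_spec.1)
      (show r ∈ Set.Iic (k + 1) from hr) h.choose_spec.2
    rw [this]
  have hg'2 : ∀ i ∉ K, ∀ j, g' i j = g i j := by
    intro i hi j
    show (if h : ∃ r' ≤ k + 1, tri r' = i then G e' h.choose j else g i j) = _
    rw [dif_neg (fun h => hi ((hK i).mpr h))]
  -- the signs at the vertices do not change
  have hs : ∀ i j, SignType.sign (g' i j) = SignType.sign (g i j) := by
    intro i j
    by_cases hi : i ∈ K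
    · obtain ⟨r, hr, rfl⟩ := (hK i).mp hi
      rw [hg'1 r hr]
      by_cases hz : g (tri r) j = 0
      · rw [hz, sign_zero, sign_eq_zero_iff]
        rcases Nat.eq_zero_or_pos r with hr0 | hr0
        · subst hr0
          rw [hch.tri_zero] at hz
          have hj : j = j₀ := by
            rcases fin3_cases j₀ j with h | h | h
            · exact h
            · rw [h] at hz; linarith
            · rw [h] at hz; linarith
          show det (dir e') (vert e' (tri 0) j - vert e' i₀ j₀) = 0
          rw [hj, hch.tri_zero, sub_self]; simp [det]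
        · rcases Nat.lt_or_ge k r with hrk | hrk
          · have hrk' : r = k + 1 := by omega
            subst hrk'
            have hj : j = j₁ := by
              rcases fin3_cases j₁ j with h | h | h
              · exact h
              · rw [h] at hz; linarith [hch.end_pos]
              · rw [h] at hz; linarith [hch.end_neg]
            rw [hj]
            show det ((ρ⁻¹ : ℝ) * (vert e' (tri (k + 1)) j₁ - dev P e' (i₀, j₀) seq (k + 1)))
              (vert e' (tri (k + 1)) j₁ - dev P e' (i₀, j₀) seq (k + 1)) = 0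
            rw [det_smul_left]
            have : ∀ z : ℂ, det z z = 0 := fun z => by simp only [det]; ring
            rw [this, mul_zero]
          · exact absurd hz (hch.nonzero r hr0 hrk j)
      · exact hsg r hr j hz
    · rw [hg'2 i hi]
  -- the compatibility across the sides crossed by the barrier
  have hcross : ∀ r ≤ k, G e' (r + 1) ((P.glue (seq r)).2 + 1) =
      ratio P e' (seq r) * G e' r (seq r).2 ∧
      G e' (r + 1) (P.glue (seq r)).2 = ratio P e' (seq r) * G e' r ((seq r).2 + 1) := by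
    intro r hr
    have t1 := hch.seq_tri r hr
    have t2 := hch.glue_tri r hr
    have v1 := vert_succ he' (seq r).1 (seq r).2
    have v2 := vert_succ he' (P.glue (seq r)).1 (P.glue (seq r)).2
    rw [show (((seq r).1, (seq r).2) : Side n) = seq r from rfl] at v1
    rw [show (((P.glue (seq r)).1, (P.glue (seq r)).2) : Side n) = P.glue (seq r) from rfl,
      glue_eq he'] at v2
    constructor
    · show det (dir e') (vert e' (tri (r + 1)) ((P.glue (seq r)).2 + 1) -
        (vert e' (P.glue (seq r)).1 ((P.glue (seq r)).2 + 1) + ratio P e' (seq r) *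
        (dev P e' (i₀, j₀) seq r - vert e' (seq r).1 (seq r).2))) =
        ratio P e' (seq r) * det (dir e') (vert e' (tri r) (seq r).2 - dev P e' (i₀, j₀) seq r)
      rw [← t1, ← t2, ← det_smul_right]
      congr 1
      ring
    · show det (dir e') (vert e' (tri (r + 1)) (P.glue (seq r)).2 -
        (vert e' (P.glue (seq r)).1 ((P.glue (seq r)).2 + 1) + ratio P e' (seq r) *
        (dev P e' (i₀, j₀) seq r - vert e' (seq r).1 (seq r).2))) =
        ratio P e' (seq r) *
          det (dir e') (vert e' (tri r) ((seq r).2 + 1) - dev P e' (i₀, j₀) seq r)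
      rw [← t1, ← t2, ← det_smul_right, v1, v2]
      congr 1
      ring
  have hOut : ∀ h : Side n, Out g h → ∃ r ≤ k, h = seq r := by
    intro h ho
    have hKh : h.1 ∈ K := mem_K_of_lt hg (ho.1.trans ho.2)
    obtain ⟨r, hr, hrh⟩ := (hK _).mp hKh
    have hrk : r ≤ k := by
      by_contra hcon
      have : r = k + 1 := by omega
      subst this
      exact hch.no_out h hrh.symm ho
    exact ⟨r, hrk, ho.unique (hch.out r hrk) (by rw [hch.seq_tri r hrk, hrh])⟩
  have hcompOut : ∀ h : Side n, Out g h → ∀ t ∈ Set.Ioo (0 : ℝ) 1,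
      SignType.sign ((1 - t) * g' h.1 h.2 + t * g' h.1 (h.2 + 1)) =
      SignType.sign ((1 - t) * g' (P.glue h).1 ((P.glue h).2 + 1) +
        t * g' (P.glue h).1 (P.glue h).2) := by
    intro h ho t ht
    obtain ⟨r, hr, rfl⟩ := hOut h ho
    obtain ⟨c1, c2⟩ := hcross r hr
    rw [hch.glue_tri r hr, hg'1 (r + 1) (by omega), hg'1 (r + 1) (by omega), hch.seq_tri r hr,
      hg'1 r (by omega), hg'1 r (by omega), c1, c2]
    rw [show (1 - t) * (ratio P e' (seq r) * G e' r (seq r).2) +
      t * (ratio P e' (seq r) * G e' r ((seq r).2 + 1)) = ratio P e' (seq r) *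
      ((1 - t) * G e' r (seq r).2 + t * G e' r ((seq r).2 + 1)) by ring,
      sign_pos_mul (ratio_pos he' _)]
  have hcomb : IsComb P e' (dir e') K g' := by
    refine ⟨?_, ?_, ?_⟩
    · intro i hi j
      obtain ⟨r, hr, rfl⟩ := (hK i).mp hi
      rw [hg'1 r hr, hg'1 r hr]
      show det (dir e') (vert e' (tri r) (j + 1) - dev P e' (i₀, j₀) seq r) -
        det (dir e') (vert e' (tri r) j - dev P e' (i₀, j₀) seq r) = _
      rw [vert_succ he']
      simp only [det, Complex.sub_re, Complex.sub_im, Complex.add_re, Complex.add_im]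
      ring
    · intro i hi
      rcases hg.off i hi with h | h
      · exact Or.inl fun j => by rw [hg'2 i hi, h]
      · exact Or.inr fun j => by rw [hg'2 i hi, h]
    · intro h t ht
      by_cases ho : Out g h
      · exact hcompOut h ho t ht
      · by_cases hi : In g h
        · have ho' := hi.glue hg
          have ht1 : 1 - t ∈ Set.Ioo (0 : ℝ) 1 := ⟨by linarith [ht.2], by linarith [ht.1]⟩
          have := hcompOut (P.glue h) ho' (1 - t) ht1
          rw [P.glue_glue] at this
          rw [show (1 - t) * g' h.1 h.2 + t * g' h.1 (h.2 + 1) =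
            (1 - (1 - t)) * g' h.1 (h.2 + 1) + (1 - t) * g' h.1 h.2 by ring, ← this]
          congr 1
          ring
        · have ho' : ¬ Out g (P.glue h) := by
            intro hc
            have := (hc.glue he hg).1
            rw [P.glue_glue] at this
            exact hi this
          have hi' : ¬ In g (P.glue h) := by
            intro hc
            have := hc.glue hg
            rw [P.glue_glue] at this
            exact ho this
          rw [sign_mix ht (hs _ _) (hs _ _) ho hi, hg.compat h t ht]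
          exact (sign_mix ht (hs _ _) (hs _ _) (fun hc => hi' ⟨hc.2, hc.1⟩)
            (fun hc => ho' ⟨hc.2, hc.1⟩)).symm
  have hneg : ∀ {i j}, g i j < 0 → g' i j < 0 := by
    intro i j h
    rw [← sign_eq_neg_one_iff, hs, sign_eq_neg_one_iff]; exact h
  have hposi : ∀ {i j}, 0 < g i j → 0 < g' i j := by
    intro i j h
    rw [← sign_eq_one_iff, hs, sign_eq_one_iff]; exact h
  have hOut' : ∀ h, Out g h → Out g' h := fun h ho => ⟨hneg ho.1, hposi ho.2⟩
  obtain ⟨b₀, hb₀, hb₀'⟩ := exists_zero_point (g := g') (i := i₀)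
    ⟨⟨_, hneg h1⟩, ⟨_, hposi h2⟩⟩
  refine ⟨_, comb_barrier he' hcomb hne (k + 1) tri hK ?_ (i₀ := i₀) (j₀ := j₀) ?_ hb₀ hb₀'⟩
  · intro r hr
    have hrk : r ≤ k := by omega
    obtain ⟨t, ht, ht0⟩ := (hOut' _ (hch.out r hrk)).exists_zero
    exact ⟨seq r, hch.seq_tri r hrk, hch.glue_tri r hrk, t, ht, ht0⟩
  · rw [← sign_eq_zero_iff, hs, sign_eq_zero_iff]; exact h0

/-- Barriers persist under small deformations. -/
theorem persist (he : IsShape P e) (hd : d ∈ barrierDirs ⟨⟨n, P⟩, e, he⟩)
    {U : Set ℂ} (hU : U ∈ 𝓝 d) :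
    ∀ᶠ e' in 𝓝 e, ∀ he' : IsShape P e', ∃ d' ∈ U, d' ∈ barrierDirs ⟨⟨n, P⟩, e', he'⟩ := by
  obtain ⟨S, hS⟩ := hd
  by_cases hN : ∀ h, det d (e h) = 0 → ∀ t ∈ Set.Ioo (0 : ℝ) 1,
      S (point P h.1 (side h.2 t)) ≠ 0
  · obtain ⟨d', S', K, g, i₀, j₀, k, seq, tri, j₁, ρ, hdd', hS', hg, hsign, hK, h0, h1, h2, hch⟩ :=
      exists_structure hS hN
    have hK' := chain_all hS' hg hsign hK h0 h1 hch
    rcases hdd' with rfl | rfl
    · exact persist_N he hS'.dir hg h0 h1 h2 hch hK' hU
    · have hU' : {z : ℂ | -z ∈ U} ∈ 𝓝 (-d) := by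
        have : Tendsto (fun z : ℂ => -z) (𝓝 (-d)) (𝓝 d) := by
          have := (continuous_neg (G := ℂ)).tendsto (-d)
          rwa [neg_neg] at this
        exact this hU
      filter_upwards [persist_N he hS'.dir hg h0 h1 h2 hch hK' hU'] with e' h he'
      obtain ⟨d', hd', hd''⟩ := h he'
      exact ⟨-d', hd', neg_mem_barrierDirs hd''⟩
  · push Not at hN
    obtain ⟨h₀, hdet, t₀, ht₀, hz⟩ := hN
    obtain ⟨c, hc⟩ := exists_real_of_det (shape_ne_zero he h₀)
      (show det (e h₀) d = 0 by rw [det_comm, hdet, neg_zero])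
    have hc0 : c ≠ 0 := by
      rintro rfl
      apply hS.dir
      rw [hc]; simp
    -- reduce to a side with the same orientation
    have key : ∀ (h : Side n) (ρ : ℝ), 0 < ρ → d = ρ * e h → ∀ t ∈ Set.Ioo (0 : ℝ) 1,
        S (point P h.1 (side h.2 t)) = 0 →
        ∀ᶠ e' in 𝓝 e, ∀ he' : IsShape P e', ∃ d' ∈ U, d' ∈ barrierDirs ⟨⟨n, P⟩, e', he'⟩ := by
      intro h ρ hρ hdρ t ht hz
      obtain ⟨l, hl, hl0, hl1, hl'⟩ := exists_labels hS hρ hdρ ht hz
      have hcont : ContinuousAt (fun e' : Side n → ℂ => (ρ : ℂ) * e' h) e :=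
        continuousAt_const.mul (continuous_apply h).continuousAt
      have hev : ∀ᶠ e' in 𝓝 e, (ρ : ℂ) * e' h ∈ U := hcont.eventually (by
        show U ∈ 𝓝 ((ρ : ℂ) * e h)
        rw [← hdρ]; exact hU)
      filter_upwards [hev] with e' he1 he'
      exact ⟨_, he1, smul_mem_barrierDirs (edge_barrier he' h l hl hl0 hl1 hl') hρ⟩
    rcases lt_or_gt_of_ne hc0 with hneg | hpos
    · have hr := ratio_pos he h₀
      have ht1 : 1 - t₀ ∈ Set.Ioo (0 : ℝ) 1 := ⟨by linarith [ht₀.2], by linarith [ht₀.1]⟩
      refine key (P.glue h₀) (-c / ratio P e h₀) (div_pos (by linarith) hr) ?_ (1 - t₀) ht1 ?_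
      · rw [glue_eq he h₀, hc]
        have : (ratio P e h₀ : ℂ) ≠ 0 := by exact_mod_cast hr.ne'
        push_cast
        field_simp
      · rw [← (glued_side (P := P) h₀ ⟨ht₀.1.le, ht₀.2.le⟩).point_eq]
        exact hz
    · exact key h₀ c hpos hc t₀ ht₀ hz

open Classical in
/-- The developed images of the vertices after `r` steps. -/
noncomputable def reach (P : Pattern n) (e : Side n → ℂ) : ℕ → Finset ℂ
  | 0 => Finset.univ.image fun h : Side n => vert e h.1 h.2
  | (r + 1) => Finset.image₂ (fun h z => trans P e h z) Finset.univ (reach P e r)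

lemma dev_mem_reach (v₀ : Side n) (seq : ℕ → Side n) (r : ℕ) :
    dev P e v₀ seq r ∈ reach P e r := by
  classical
  induction r with
  | zero => exact Finset.mem_image_of_mem _ (Finset.mem_univ v₀)
  | succ r ih => exact Finset.mem_image₂_of_mem (Finset.mem_univ (seq r)) ih

/-- A triangulated surface has barriers in finitely many directions only. -/
theorem finite_dirs (s : TriSurf) :
    ∃ D : Finset ℂ, ∀ d ∈ barrierDirs s, ∃ v ∈ D, v ≠ 0 ∧ det d v = 0 := by
  classical
  obtain ⟨⟨n, P⟩, e, he⟩ := s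
  refine ⟨Finset.univ.image e ∪ (Finset.range (3 * n + 1)).biUnion fun r =>
    Finset.image₂ (fun (h : Side n) z => vert e h.1 h.2 - z) Finset.univ (reach P e r), ?_⟩
  rintro d ⟨S, hS⟩
  by_cases hE : ∃ h, det d (e h) = 0
  · obtain ⟨h, hh⟩ := hE
    exact ⟨e h, Finset.mem_union_left _ (Finset.mem_image_of_mem _ (Finset.mem_univ h)),
      shape_ne_zero he h, hh⟩
  · push Not at hE
    obtain ⟨d', S', K, g, i₀, j₀, k, seq, tri, j₁, ρ, hdd', hS', hg, hsign, hK, h0, h1, h2, hch⟩ :=
      exists_structure hS (fun h hh => absurd hh (hE h))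
    have hv : vert e (tri (k + 1)) j₁ - dev P e (i₀, j₀) seq (k + 1) = ρ * d' := by
      rw [hch.end_dev]; ring
    have hdd : ∀ z : ℂ, det z z = 0 := fun z => by simp only [det]; ring
    refine ⟨vert e (tri (k + 1)) j₁ - dev P e (i₀, j₀) seq (k + 1), ?_, ?_, ?_⟩
    · apply Finset.mem_union_right
      rw [Finset.mem_biUnion]
      refine ⟨k + 1, Finset.mem_range.mpr (by have := hch.bound; omega), ?_⟩
      exact Finset.mem_image₂_of_mem (f := fun (h : Side n) z => vert e h.1 h.2 - z)
        (Finset.mem_univ ((tri (k + 1), j₁) : Side n)) (dev_mem_reach _ _ _)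
    · rw [hv]
      exact mul_ne_zero (by exact_mod_cast hch.rho_pos.ne') hS'.dir
    · rw [hv, det_smul_right]
      rcases hdd' with h | h
      · rw [h, hdd, mul_zero]
      · rw [h]
        have : det d (-d) = -det d d := by simp only [det, Complex.neg_re, Complex.neg_im]; ring
        rw [this, hdd, neg_zero, mul_zero]

end Pool.Agent.Dilation
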