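import Pool.Agent.Dilation.Defs

namespace Pool.Agent.Dilation

open Topology Filter

section Fin3

lemma fin3_cases (j k : Fin 3) : k = j ∨ k = j + 1 ∨ k = j + 2 := by
  revert j k; decide

lemma fin3_add (j : Fin 3) : j + 2 + 1 = j ∧ j + 1 + 1 = j + 2 ∧ j + 1 + 2 = j ∧ j + 2 + 2 = j + 1 := by
  revert j; decide

lemma fin3_ne (j : Fin 3) : j ≠ j + 1 ∧ j ≠ j + 2 ∧ j + 1 ≠ j + 2 := by
  revert j; decide

end Fin3

lemma tri_sum (b : Tri) (j : Fin 3) : b.1 j + b.1 (j + 1) + b.1 (j + 2) = 1 := by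
  have h := b.2.2
  rw [Fin.sum_univ_three] at h
  fin_cases j
  · exact h
  · show b.1 1 + b.1 2 + b.1 0 = 1
    linarith
  · show b.1 2 + b.1 0 + b.1 1 = 1
    linarith

lemma tri_nonneg (b : Tri) (j : Fin 3) : 0 ≤ b.1 j := b.2.1 j

lemma tri_ext {b b' : Tri} (j : Fin 3) (h0 : b.1 j = b'.1 j) (h1 : b.1 (j + 1) = b'.1 (j + 1))
    (h2 : b.1 (j + 2) = b'.1 (j + 2)) : b = b' := by
  apply Subtype.ext
  funext k
  rcases fin3_cases j k with rfl | rfl | rfl
  · exact h0
  · exact h1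
  · exact h2

lemma isVertex_iff (b : Tri) : IsVertex b ↔ ∃ j, b.1 (j + 1) = 0 ∧ b.1 (j + 2) = 0 := by
  constructor
  · rintro ⟨j, hj⟩
    refine ⟨j, ?_⟩
    have := tri_sum b j
    have h1 := tri_nonneg b (j + 1)
    have h2 := tri_nonneg b (j + 2)
    constructor <;> linarith
  · rintro ⟨j, h1, h2⟩
    refine ⟨j, ?_⟩
    have := tri_sum b j
    linarith

variable {n : ℕ} {P : Pattern n}

lemma Glued.symm {p q : Fin n × Tri} (h : Glued P p q) : Glued P q p := by
  obtain ⟨h, h1, h2, h3, h4, h5, h6⟩ := h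
  refine ⟨P.glue h, h2, ?_, h4, ?_, ?_, ?_⟩ <;> rw [P.glue_glue]
  · exact h1
  · exact h3
  · exact h6.symm
  · exact h5.symm

lemma Glued.isVertex {p q : Fin n × Tri} (h : Glued P p q) (hp : IsVertex p.2) :
    IsVertex q.2 := by
  obtain ⟨h, h1, h2, h3, h4, h5, h6⟩ := h
  obtain ⟨k, hk⟩ := hp
  rcases fin3_cases h.2 k with rfl | rfl | rfl
  · exact ⟨_, h5.trans hk⟩
  · exact ⟨_, h6.trans hk⟩
  · rw [h3] at hk
    norm_num at hk

/-- A point which is not a vertex lies on at most one side. -/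
lemma side_unique {b : Tri} (hb : ¬ IsVertex b) {j k : Fin 3} (hj : b.1 (j + 2) = 0)
    (hk : b.1 (k + 2) = 0) : j = k := by
  rcases fin3_cases j k with rfl | rfl | rfl
  · rfl
  · exfalso
    apply hb
    rw [isVertex_iff]
    refine ⟨j + 1, ?_, ?_⟩
    · rw [(fin3_add j).2.1]; exact hj
    · exact hk
  · exfalso
    apply hb
    rw [isVertex_iff]
    refine ⟨j, ?_, hj⟩
    rw [(fin3_add j).2.2.2] at hk
    exact hk

lemma Glued.unique {p q r : Fin n × Tri} (h : Glued P p q) (h' : Glued P p r)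
    (hp : ¬ IsVertex p.2) : q = r := by
  obtain ⟨h, h1, h2, h3, h4, h5, h6⟩ := h
  obtain ⟨h', h1', h2', h3', h4', h5', h6'⟩ := h'
  have hh : h = h' := by
    apply Prod.ext
    · rw [← h1, ← h1']
    · exact side_unique hp h3 h3'
  subst hh
  apply Prod.ext
  · rw [h2, h2']
  · apply tri_ext (P.glue h).2
    · rw [h6, h6']
    · rw [h5, h5']
    · rw [h4, h4']

lemma point_eq_aux {p q : Fin n × Tri} (h : Relation.EqvGen (Glued P) p q) :
    p = q ∨ Glued P p q ∨ (IsVertex p.2 ∧ IsVertex q.2) := by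
  induction h with
  | rel x y h => exact Or.inr (Or.inl h)
  | refl x => exact Or.inl rfl
  | symm x y _ ih =>
    rcases ih with h | h | h
    · exact Or.inl h.symm
    · exact Or.inr (Or.inl h.symm)
    · exact Or.inr (Or.inr h.symm)
  | trans x y z _ _ ih1 ih2 =>
    rcases ih1 with h1 | h1 | h1
    · rw [h1]; exact ih2
    · rcases ih2 with h2 | h2 | h2
      · rw [← h2]; exact Or.inr (Or.inl h1)
      · by_cases hy : IsVertex y.2
        · exact Or.inr (Or.inr ⟨h1.symm.isVertex hy, h2.isVertex hy⟩)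
        · exact Or.inl (h1.symm.unique h2 hy)
      · exact Or.inr (Or.inr ⟨h1.symm.isVertex h2.1, h2.2⟩)
    · rcases ih2 with h2 | h2 | h2
      · rw [← h2]; exact Or.inr (Or.inr h1)
      · exact Or.inr (Or.inr ⟨h1.1, h2.isVertex h1.2⟩)
      · exact Or.inr (Or.inr ⟨h1.1, h2.2⟩)

lemma point_eq {i i' : Fin n} {b b' : Tri} (hb : ¬ IsVertex b)
    (h : point P i b = point P i' b') : (i, b) = (i', b') ∨ Glued P (i, b) (i', b') := by
  rcases point_eq_aux (Quot.eqvGen_exact h) with h | h | h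
  · exact Or.inl h
  · exact Or.inr h
  · exact absurd h.1 hb

lemma Glued.point_eq {i i' : Fin n} {b b' : Tri} (h : Glued P (i, b) (i', b')) :
    point P i b = point P i' b' := Quot.sound h

lemma isVertex_of_point_eq {i i' : Fin n} {b b' : Tri} (h : point P i b = point P i' b')
    (hb : IsVertex b) : IsVertex b' := by
  rcases point_eq_aux (Quot.eqvGen_exact h) with h | h | h
  · rw [Prod.mk.injEq] at h; rw [← h.2]; exact hb
  · exact h.isVertex hb
  · exact h.2

lemma point_mem_conePoints {i : Fin n} {b : Tri} : point P i b ∈ conePoints P ↔ IsVertex b := by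
  constructor
  · rintro ⟨i', b', hb', h⟩
    exact isVertex_of_point_eq h.symm hb'
  · intro h
    exact ⟨i, b, h, rfl⟩

lemma exists_point (q : Space P) : ∃ i b, q = point P i b := by
  induction q using Quot.ind with
  | mk x => exact ⟨x.1, x.2, rfl⟩

lemma continuous_point (i : Fin n) : Continuous (point P i) :=
  continuous_quot_mk.comp (by fun_prop)

lemma continuous_coord (j : Fin 3) : Continuous fun b : Tri => b.1 j :=
  (continuous_apply j).comp continuous_subtype_val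

lemma isClosed_isVertex : IsClosed {b : Tri | IsVertex b} := by
  have : {b : Tri | IsVertex b} = ⋃ j : Fin 3, {b : Tri | b.1 j = 1} := by
    ext b; simp [IsVertex]
  rw [this]
  apply isClosed_iUnion_of_finite
  intro j
  exact isClosed_eq (continuous_coord j) continuous_const

lemma eventually_not_isVertex {b : Tri} (hb : ¬ IsVertex b) : ∀ᶠ b' in 𝓝 b, ¬ IsVertex b' :=
  isClosed_isVertex.isOpen_compl.mem_nhds hb

lemma isVertex_eq {b b' : Tri} {j : Fin 3} (h : b.1 j = 1) (h' : b'.1 j = 1) : b = b' := by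
  have h1 := tri_sum b j
  have h2 := tri_nonneg b (j + 1)
  have h3 := tri_nonneg b (j + 2)
  have h1' := tri_sum b' j
  have h2' := tri_nonneg b' (j + 1)
  have h3' := tri_nonneg b' (j + 2)
  apply tri_ext j
  · rw [h, h']
  · linarith
  · linarith

lemma finite_vertices (n : ℕ) : {p : Fin n × Tri | IsVertex p.2}.Finite := by
  have : {p : Fin n × Tri | IsVertex p.2} =
      ⋃ x : Fin n × Fin 3, {p : Fin n × Tri | p.1 = x.1 ∧ p.2.1 x.2 = 1} := by
    ext p
    simp only [IsVertex, Set.mem_ofPred_eq, Set.mem_iUnion, Prod.exists]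
    constructor
    · rintro ⟨j, hj⟩; exact ⟨p.1, j, rfl, hj⟩
    · rintro ⟨_, j, _, hj⟩; exact ⟨j, hj⟩
  rw [this]
  apply Set.finite_iUnion
  intro x
  apply Set.Subsingleton.finite
  rintro p ⟨hp1, hp2⟩ q ⟨hq1, hq2⟩
  exact Prod.ext (hp1.trans hq1.symm) (isVertex_eq hp2 hq2)

lemma isClosed_glued : IsClosed {x : (Fin n × Tri) × (Fin n × Tri) | Glued P x.1 x.2} := by
  have : {x : (Fin n × Tri) × (Fin n × Tri) | Glued P x.1 x.2} =
      ⋃ h : Side n, {x : (Fin n × Tri) × (Fin n × Tri) | x.1.1 = h.1 ∧ x.2.1 = (P.glue h).1 ∧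
        x.1.2.1 (h.2 + 2) = 0 ∧ x.2.2.1 ((P.glue h).2 + 2) = 0 ∧
        x.2.2.1 ((P.glue h).2 + 1) = x.1.2.1 h.2 ∧ x.2.2.1 (P.glue h).2 = x.1.2.1 (h.2 + 1)} := by
    ext x
    simp only [Glued, Set.mem_ofPred_eq, Set.mem_iUnion]
  rw [this]
  apply isClosed_iUnion_of_finite
  intro h
  have c1 : ∀ j, Continuous fun x : (Fin n × Tri) × (Fin n × Tri) => x.1.2.1 j := fun j =>
    (continuous_coord j).comp (by fun_prop)
  have c2 : ∀ j, Continuous fun x : (Fin n × Tri) × (Fin n × Tri) => x.2.2.1 j := fun j =>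
    (continuous_coord j).comp (by fun_prop)
  refine IsClosed.inter (isClosed_eq (by fun_prop) continuous_const) ?_
  refine IsClosed.inter (isClosed_eq (by fun_prop) continuous_const) ?_
  refine IsClosed.inter (isClosed_eq (c1 _) continuous_const) ?_
  refine IsClosed.inter (isClosed_eq (c2 _) continuous_const) ?_
  exact IsClosed.inter (isClosed_eq (c2 _) (c1 _)) (isClosed_eq (c2 _) (c1 _))

instance : CompactSpace Tri := isCompact_iff_compactSpace.mp (isCompact_stdSimplex ℝ (Fin 3))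

lemma isClosedMap_mk : IsClosedMap (Quot.mk (Glued P)) := by
  intro K hK
  have key : Quot.mk (Glued P) ⁻¹' (Quot.mk (Glued P) '' K) =
      K ∪ Prod.snd '' ({x : (Fin n × Tri) × (Fin n × Tri) | Glued P x.1 x.2} ∩ Prod.fst ⁻¹' K) ∪
      ({p : Fin n × Tri | IsVertex p.2} ∩ Quot.mk (Glued P) ⁻¹' (Quot.mk (Glued P) '' K)) := by
    ext q
    constructor
    · rintro ⟨p, hp, hpq⟩
      rcases point_eq_aux (Quot.eqvGen_exact hpq) with h | h | h
      · subst h; exact Or.inl (Or.inl hp)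
      · exact Or.inl (Or.inr ⟨(p, q), ⟨h, hp⟩, rfl⟩)
      · exact Or.inr ⟨h.2, p, hp, hpq⟩
    · rintro ((h | ⟨⟨p, q'⟩, ⟨h, hp⟩, rfl⟩) | h)
      · exact ⟨q, h, rfl⟩
      · exact ⟨p, hp, Quot.sound h⟩
      · exact h.2
  show IsClosed (Quot.mk (Glued P) '' K)
  rw [← isQuotientMap_quot_mk.isClosed_preimage, key]
  refine IsClosed.union (IsClosed.union hK ?_) ?_
  · exact isClosedMap_snd_of_compactSpace _ (isClosed_glued.inter (hK.preimage continuous_fst))
  · exact ((finite_vertices n).inter_of_left _).isClosed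

/-- A description of the neighbourhoods of a point which is not a vertex. -/
lemma mem_nhds_point {U : Set (Space P)} {i : Fin n} {b : Tri} (hb : ¬ IsVertex b)
    (h1 : ∀ᶠ b₁ in 𝓝 b, point P i b₁ ∈ U)
    (h2 : ∀ i' b', Glued P (i, b) (i', b') → ∀ᶠ b₁ in 𝓝 b', point P i' b₁ ∈ U) :
    U ∈ 𝓝 (point P i b) := by
  set O : Set (Fin n × Tri) := interior (Quot.mk (Glued P) ⁻¹' U) with hO
  have hmem : ∀ i' b', (∀ᶠ b₁ in 𝓝 b', point P i' b₁ ∈ U) → (i', b') ∈ O := by
    intro i' b' h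
    rw [hO, mem_interior_iff_mem_nhds, nhds_prod_eq, nhds_discrete]
    rw [Filter.mem_prod_iff]
    refine ⟨{i'}, by simp, {b₁ | point P i' b₁ ∈ U}, h, ?_⟩
    rintro ⟨k, b₁⟩ ⟨hk, hb₁⟩
    rw [Set.mem_singleton_iff] at hk
    subst hk
    exact hb₁
  have hV : IsOpen (Quot.mk (Glued P) '' Oᶜ)ᶜ :=
    (isClosedMap_mk _ isOpen_interior.isClosed_compl).isOpen_compl
  refine Filter.mem_of_superset (hV.mem_nhds ?_) ?_
  · rintro ⟨⟨k, b₁⟩, hk, hkb⟩
    rcases point_eq hb hkb.symm with h | h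
    · rw [Prod.mk.injEq] at h
      apply hk
      rw [← h.1, ← h.2]
      exact hmem _ _ h1
    · exact hk (hmem _ _ (h2 _ _ h))
  · intro q hq
    obtain ⟨k, b₁, rfl⟩ := exists_point q
    by_contra hc
    apply hq
    refine ⟨(k, b₁), ?_, rfl⟩
    intro hk
    have hk' : (k, b₁) ∈ Quot.mk (Glued P) ⁻¹' U := interior_subset (hO ▸ hk)
    exact hc hk'

/-- If a property holds near all points of the triangles representing a point `q` of the surface,
then it is satisfied by some representative of all points near `q`. -/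
lemma eventually_exists_point {i : Fin n} {b : Tri} (hb : ¬ IsVertex b)
    {R : Fin n → Tri → Prop} (h1 : ∀ᶠ b₁ in 𝓝 b, R i b₁)
    (h2 : ∀ i' b', Glued P (i, b) (i', b') → ∀ᶠ b₁ in 𝓝 b', R i' b₁) :
    ∀ᶠ q in 𝓝 (point P i b), ∃ k b₁, q = point P k b₁ ∧ R k b₁ := by
  refine mem_nhds_point hb ?_ ?_
  · filter_upwards [h1] with b₁ hb₁
    exact ⟨i, b₁, rfl, hb₁⟩
  · intro i' b' hg
    filter_upwards [h2 i' b' hg] with b₁ hb₁
    exact ⟨i', b₁, rfl, hb₁⟩

end Pool.Agent.Dilation
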