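import Pool.Agent.Dilation.Comb

namespace Pool.Agent.Dilation

open Topology Filter

variable {n : ℕ} {P : Pattern n} {e : Side n → ℂ} {he : IsShape P e} {d : ℂ}
  {S : Space P → SignType}

lemma const_on (hS : IsBarrier ⟨⟨n, P⟩, e, he⟩ d S) {i : Fin n} {W : Set Tri}
    (hW : IsPreconnected W) (hv : ∀ b ∈ W, ¬ IsVertex b)
    (h0 : ∀ b ∈ W, S (point P i b) = 0 → ∀ b' ∈ W, det d (pos e i b' - pos e i b) = 0)
    {b b' : Tri} (hb : b ∈ W) (hb' : b' ∈ W) : S (point P i b) = S (point P i b') := by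
  refine hW.constant (f := fun b => S (point P i b)) ?_ hb hb'
  intro x hx
  refine continuousWithinAt_const.congr_of_eventuallyEq (f := fun _ => S (point P i x)) ?_ rfl
  by_cases hz : S (point P i x) = 0
  · have h1 := hS.zero i x (hv x hx) hz
    filter_upwards [self_mem_nhdsWithin, nhdsWithin_le_nhds h1] with y hy h2
    refine h2.trans ?_
    rw [hz]
    show SignType.sign (det d (pos e i y - pos e i x)) = 0
    rw [h0 x hx hz y hy, sign_zero]
  · exact nhdsWithin_le_nhds (hS.ne_zero i x (hv x hx) hz)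

lemma pos_side_sub (he : IsShape P e) (d : ℂ) (h : Side n) {t t' : ℝ}
    (ht : t ∈ Set.Icc (0 : ℝ) 1) (ht' : t' ∈ Set.Icc (0 : ℝ) 1) :
    det d (pos e h.1 (side h.2 t') - pos e h.1 (side h.2 t)) = (t' - t) * det d (e h) := by
  have h1 := vert_succ he h.1 h.2
  rw [det_pos_sub, aff_side _ _ ht, aff_side _ _ ht', h1]
  have hdet : ∀ z w, det d (z + w) = det d z + det d w := by
    intro z w; simp only [det, Complex.add_re, Complex.add_im]; ring
  rw [hdet]
  ring

/-- A side which is not parallel to a barrier crosses it at most once. -/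
lemma side_unique_zero (hS : IsBarrier ⟨⟨n, P⟩, e, he⟩ d S) (h : Side n) (hD : det d (e h) ≠ 0)
    {t₁ t₂ : ℝ} (ht₁ : t₁ ∈ Set.Ioo (0 : ℝ) 1) (ht₂ : t₂ ∈ Set.Ioo (0 : ℝ) 1) (hlt : t₁ < t₂)
    (h₁ : S (point P h.1 (side h.2 t₁)) = 0) (h₂ : S (point P h.1 (side h.2 t₂)) = 0) : False := by
  set σ : ℝ → SignType := fun t => S (point P h.1 (side h.2 t)) with hσ
  have hcont : Continuous (side h.2) := continuous_mix _ _
  have hz : ∀ t ∈ Set.Ioo (0 : ℝ) 1, σ t = 0 → ∀ᶠ t' in 𝓝 t,
      σ t' = SignType.sign ((t' - t) * det d (e h)) := by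
    intro t ht h0
    have h1 := hcont.continuousAt.eventually (hS.zero h.1 _ (not_isVertex_side h.2 ht) h0)
    filter_upwards [h1, Ioo_mem_nhds ht.1 ht.2] with t' h2 h3
    refine h2.trans ?_
    congr 1
    exact pos_side_sub he d h ⟨ht.1.le, ht.2.le⟩ ⟨h3.1.le, h3.2.le⟩
  have hn : ∀ t ∈ Set.Ioo (0 : ℝ) 1, σ t ≠ 0 → ∀ᶠ t' in 𝓝 t, σ t' = σ t := by
    intro t ht h0
    exact hcont.continuousAt.eventually (hS.ne_zero h.1 _ (not_isVertex_side h.2 ht) h0)
  set ε := SignType.sign (det d (e h)) with hε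
  have hε0 : ε ≠ 0 := by rw [hε, Ne, sign_eq_zero_iff]; exact hD
  set B : Set ℝ := {t | t ∈ Set.Ioc t₁ t₂ ∧ σ t ≠ ε} with hB
  have hbdd : BddBelow B := ⟨t₁, fun t ht => ht.1.1.le⟩
  have ht₂B : t₂ ∈ B := ⟨⟨hlt, le_rfl⟩, by
    show σ t₂ ≠ ε
    rw [show σ t₂ = 0 from h₂]; exact hε0.symm⟩
  set T := sInf B with hT
  have hT2 : T ≤ t₂ := csInf_le hbdd ht₂B
  have hT1 : t₁ < T := by
    have h1 := hz t₁ ht₁ h₁
    obtain ⟨δ, hδ, hδ'⟩ := Metric.eventually_nhds_iff.mp h1
    have : t₁ + δ ≤ T := by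
      apply le_csInf ⟨t₂, ht₂B⟩
      intro t ht
      by_contra hc
      push Not at hc
      apply ht.2
      have h3 := hδ' (y := t) (by
        rw [Real.dist_eq, abs_lt]
        constructor <;> linarith [ht.1.1])
      rw [h3, sign_mul, sign_pos (by linarith [ht.1.1]), one_mul]
    linarith
  have hTmem : T ∈ Set.Ioo (0 : ℝ) 1 := ⟨ht₁.1.trans hT1, hT2.trans_lt ht₂.2⟩
  have hbelow : ∀ t ∈ Set.Ioo t₁ T, σ t = ε := by
    intro t ht
    by_contra hc
    exact notMem_of_lt_csInf ht.2 hbdd ⟨⟨ht.1, ht.2.le.trans hT2⟩, hc⟩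
  have hleft : ∀ᶠ t in 𝓝[<] T, t ∈ Set.Ioo t₁ T := Ioo_mem_nhdsLT hT1
  by_cases h0 : σ T = 0
  · have h1 := nhdsWithin_le_nhds (s := Set.Iio T) (hz T hTmem h0)
    obtain ⟨t, ht1, ht2⟩ := (hleft.and h1).exists
    rw [hbelow t ht1, sign_mul, sign_neg (by linarith [ht1.2])] at ht2
    have : ∀ x : SignType, x ≠ 0 → x ≠ -1 * x := by decide
    exact this ε hε0 ht2
  · have h1 := hn T hTmem h0
    obtain ⟨t, ht1, ht2⟩ := (hleft.and (nhdsWithin_le_nhds (s := Set.Iio T) h1)).exists
    have hTε : σ T = ε := by rw [← ht2]; exact hbelow t ht1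
    obtain ⟨δ, hδ, hδ'⟩ := Metric.eventually_nhds_iff.mp h1
    obtain ⟨t', ht', ht'2⟩ := exists_lt_of_csInf_lt (s := B) ⟨t₂, ht₂B⟩
      (show sInf B < T + δ by rw [← hT]; linarith)
    apply ht'.2
    rw [← hTε]
    apply hδ'
    rw [Real.dist_eq, abs_lt]
    have := csInf_le hbdd ht'
    constructor <;> linarith

/-- Linear algebra: `d` is not parallel to two independent vectors. -/
lemma eq_zero_of_det {d u v : ℂ} (h : 0 < det u v) (hu : det d u = 0) (hv : det d v = 0) :
    d = 0 := by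
  have h1 : d.re * det u v = 0 := by
    have : d.re * det u v = det d v * u.re - det d u * v.re := by simp only [det]; ring
    rw [this, hu, hv]; ring
  have h2 : d.im * det u v = 0 := by
    have : d.im * det u v = det d v * u.im - det d u * v.im := by simp only [det]; ring
    rw [this, hu, hv]; ring
  apply Complex.ext
  · simpa [h.ne'] using h1
  · simpa [h.ne'] using h2

lemma exists_middle (L : Fin 3 → ℝ) : ∃ j, (L j ≤ L (j + 2) ∧ L (j + 2) ≤ L (j + 1)) ∨
    (L (j + 1) ≤ L (j + 2) ∧ L (j + 2) ≤ L j) := by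
  rcases le_total (L 0) (L 1) with h1 | h1 <;> rcases le_total (L 1) (L 2) with h2 | h2 <;>
    rcases le_total (L 0) (L 2) with h3 | h3
  · exact ⟨2, Or.inr ⟨h1, h2⟩⟩
  · exact ⟨2, Or.inr ⟨h1, h2⟩⟩
  · exact ⟨0, Or.inl ⟨h3, h2⟩⟩
  · exact ⟨1, Or.inr ⟨h3, h1⟩⟩
  · exact ⟨1, Or.inl ⟨h1, h3⟩⟩
  · exact ⟨0, Or.inr ⟨h2, h3⟩⟩
  · exact ⟨2, Or.inl ⟨h2, h1⟩⟩
  · exact ⟨2, Or.inl ⟨h2, h1⟩⟩

lemma vert_succ2 (he : IsShape P e) (i : Fin n) (j : Fin 3) :
    det d (vert e i (j + 1)) - det d (vert e i j) = det d (e (i, j)) := by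
  rw [vert_succ he]
  simp only [det, Complex.add_re, Complex.add_im]; ring

/-- The zero set of a barrier in a triangle, when the barrier does not run along a side. -/
lemma triangle_zero (hS : IsBarrier ⟨⟨n, P⟩, e, he⟩ d S)
    (hN : ∀ h, det d (e h) = 0 → ∀ t ∈ Set.Ioo (0 : ℝ) 1, S (point P h.1 (side h.2 t)) ≠ 0)
    {i : Fin n} {b₀ : Tri} (hb₀ : ¬ IsVertex b₀) (h₀ : S (point P i b₀) = 0) :
    (∃ j, det d (vert e i j) < aff (fun j => det d (vert e i j)) b₀) ∧
    (∃ j, aff (fun j => det d (vert e i j)) b₀ < det d (vert e i j)) ∧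
    ∀ b, ¬ IsVertex b → S (point P i b) =
      SignType.sign (aff (fun j => det d (vert e i j)) b -
        aff (fun j => det d (vert e i j)) b₀) := by
  set L : Fin 3 → ℝ := fun j => det d (vert e i j) with hL
  set c := aff L b₀ with hc
  obtain ⟨j, hj⟩ := exists_middle L
  have e0 := vert_succ2 (d := d) he i j
  have e1 := vert_succ2 (d := d) he i (j + 1)
  have e2 := vert_succ2 (d := d) he i (j + 2)
  rw [(fin3_add j).2.1] at e1
  rw [(fin3_add j).1] at e2
  set A := L j with hA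
  set B := L (j + 1) with hB
  set C := L (j + 2) with hC
  change B - A = _ at e0
  change C - B = _ at e1
  change A - C = _ at e2
  have hAB : B - A ≠ 0 := by
    intro hAB
    have h1 : C = A := by rcases hj with h | h <;> linarith [h.1, h.2]
    have h2 : ∀ k, det d (e (i, k)) = 0 := by
      intro k
      rcases fin3_cases j k with rfl | rfl | rfl
      · rw [← e0]; linarith
      · rw [← e1]; linarith
      · rw [← e2]; linarith
    exact hS.dir (eq_zero_of_det (he.pos i) (h2 0) (h2 1))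
  have hD2 : 0 < (B - A) * (B - A) := mul_self_pos.mpr hAB
  have hCA : 0 ≤ (C - A) * (B - A) := by
    rcases hj with h | h
    · exact mul_nonneg (by linarith [h.1]) (by linarith [h.1, h.2])
    · exact mul_nonneg_of_nonpos_of_nonpos (by linarith [h.2]) (by linarith [h.1, h.2])
  have hBC : 0 ≤ (B - C) * (B - A) := by
    rcases hj with h | h
    · exact mul_nonneg (by linarith [h.2]) (by linarith [h.1, h.2])
    · exact mul_nonneg_of_nonpos_of_nonpos (by linarith [h.1]) (by linarith [h.1, h.2])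
  have hlevel : ∀ b b' : Tri, ¬ IsVertex b → ¬ IsVertex b' → aff L b = aff L b' →
      S (point P i b) = 0 → S (point P i b') = 0 := by
    intro b b' hb hb' hbb hSb
    rw [← hSb]
    refine (const_on (i := i) (W := {x : Tri | ¬ IsVertex x ∧ x.1 ∈ {x : Fin 3 → ℝ |
      ∑ j, x j * L j ∈ ({aff L b} : Set ℝ)}}) hS
      (preconn_tri (convex_aff L (convex_singleton _))) (fun x hx => hx.1) ?_ ⟨hb, rfl⟩
      ⟨hb', hbb.symm⟩).symm
    intro x hx _ y hy
    rw [det_pos_sub]
    have h1 : aff L x = aff L b := hx.2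
    have h2 : aff L y = aff L b := hy.2
    show aff L y - aff L x = 0
    rw [h1, h2, sub_self]
  have hmid : ∀ b : Tri, ¬ IsVertex b → S (point P i b) = 0 →
      0 < (aff L b - A) * (B - A) ∧ 0 < (B - aff L b) * (B - A) ∧
      (aff L b - A) / (B - A) ∈ Set.Ioo (0 : ℝ) 1 ∧
      S (point P i (side j ((aff L b - A) / (B - A)))) = 0 := by
    intro b hb hSb
    have ha := aff_eq L b j
    have hs := tri_sum b j
    have hb0 := tri_nonneg b j
    have hb1 := tri_nonneg b (j + 1)
    have hb2 := tri_nonneg b (j + 2)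
    have r1 : aff L b - A = b.1 (j + 1) * (B - A) + b.1 (j + 2) * (C - A) := by
      rw [ha]; linear_combination A * hs
    have r2 : B - aff L b = b.1 j * (B - A) + b.1 (j + 2) * (B - C) := by
      rw [ha]; linear_combination -B * hs
    have q1 : 0 < (aff L b - A) * (B - A) := by
      have h1 : (aff L b - A) * (B - A) = b.1 (j + 1) * ((B - A) * (B - A)) +
          b.1 (j + 2) * ((C - A) * (B - A)) := by rw [r1]; ring
      have h2 : 0 ≤ b.1 (j + 1) * ((B - A) * (B - A)) := mul_nonneg hb1 hD2.le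
      have h3 : 0 ≤ b.1 (j + 2) * ((C - A) * (B - A)) := mul_nonneg hb2 hCA
      rw [h1]
      by_contra hcon
      have h4 : b.1 (j + 1) * ((B - A) * (B - A)) = 0 := by linarith
      have h5 : b.1 (j + 2) * ((C - A) * (B - A)) = 0 := by linarith
      have h6 : b.1 (j + 1) = 0 := by
        rcases mul_eq_zero.mp h4 with h | h
        · exact h
        · exact absurd h hD2.ne'
      have h7 : b.1 (j + 2 + 2) = 0 := by rw [(fin3_add j).2.2.2]; exact h6
      obtain ⟨ht, hbt⟩ := eq_side hb h7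
      rw [(fin3_add j).1] at ht hbt
      have h8 : b.1 (j + 2) ≠ 0 := by linarith [ht.2]
      have h9 : C - A = 0 := by
        rcases mul_eq_zero.mp h5 with h | h
        · exact absurd h h8
        · rcases mul_eq_zero.mp h with h | h
          · exact h
          · exact absurd h hAB
      refine hN (i, j + 2) (by rw [← e2]; linarith) _ ht ?_
      show S (point P i (side (j + 2) (b.1 j))) = 0
      rw [← hbt]; exact hSb
    have q2 : 0 < (B - aff L b) * (B - A) := by
      have h1 : (B - aff L b) * (B - A) = b.1 j * ((B - A) * (B - A)) +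
          b.1 (j + 2) * ((B - C) * (B - A)) := by rw [r2]; ring
      have h2 : 0 ≤ b.1 j * ((B - A) * (B - A)) := mul_nonneg hb0 hD2.le
      have h3 : 0 ≤ b.1 (j + 2) * ((B - C) * (B - A)) := mul_nonneg hb2 hBC
      rw [h1]
      by_contra hcon
      have h4 : b.1 j * ((B - A) * (B - A)) = 0 := by linarith
      have h5 : b.1 (j + 2) * ((B - C) * (B - A)) = 0 := by linarith
      have h6 : b.1 j = 0 := by
        rcases mul_eq_zero.mp h4 with h | h
        · exact h
        · exact absurd h hD2.ne'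
      have h7 : b.1 (j + 1 + 2) = 0 := by rw [(fin3_add j).2.2.1]; exact h6
      obtain ⟨ht, hbt⟩ := eq_side hb h7
      rw [(fin3_add j).2.1] at ht hbt
      have h8 : b.1 (j + 2) ≠ 0 := by linarith [ht.1]
      have h9 : B - C = 0 := by
        rcases mul_eq_zero.mp h5 with h | h
        · exact absurd h h8
        · rcases mul_eq_zero.mp h with h | h
          · exact h
          · exact absurd h hAB
      refine hN (i, j + 1) (by rw [← e1]; linarith) _ ht ?_
      show S (point P i (side (j + 1) (b.1 (j + 2)))) = 0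
      rw [← hbt]; exact hSb
    have q3 : (aff L b - A) / (B - A) ∈ Set.Ioo (0 : ℝ) 1 := by
      have h1 : (aff L b - A) / (B - A) = ((aff L b - A) * (B - A)) / ((B - A) * (B - A)) := by
        field_simp
      constructor
      · rw [h1]; exact div_pos q1 hD2
      · have h2 : 1 - (aff L b - A) / (B - A) =
            ((B - aff L b) * (B - A)) / ((B - A) * (B - A)) := by
          field_simp; ring
        have h3 : 0 < 1 - (aff L b - A) / (B - A) := by rw [h2]; exact div_pos q2 hD2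
        linarith
    refine ⟨q1, q2, q3, ?_⟩
    refine hlevel b _ hb (not_isVertex_side _ q3) ?_ hSb
    rw [aff_side _ _ ⟨q3.1.le, q3.2.le⟩]
    show aff L b = (1 - (aff L b - A) / (B - A)) * A + (aff L b - A) / (B - A) * B
    field_simp
    ring
  obtain ⟨p1, p2, p3, p4⟩ := hmid b₀ hb₀ h₀
  have hzero : ∀ b : Tri, ¬ IsVertex b → S (point P i b) = 0 → aff L b = c := by
    intro b hb hSb
    obtain ⟨r1, r2, r3, r4⟩ := hmid b hb hSb
    have hDe : det d (e (i, j)) ≠ 0 := by rw [← e0]; exact hAB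
    by_contra hne
    rcases lt_or_gt_of_ne (show (aff L b - A) / (B - A) ≠ (aff L b₀ - A) / (B - A) from by
      intro h
      apply hne
      have h2 := (div_left_inj' hAB).mp h
      rw [hc]; linarith) with h | h
    · exact side_unique_zero hS (i, j) hDe r3 p3 h r4 p4
    · exact side_unique_zero hS (i, j) hDe p3 r3 h p4 r4
  set τ := (aff L b₀ - A) / (B - A) with hτ
  have hEv : ¬ IsVertex (side j τ) := not_isVertex_side _ p3
  have hEc : aff L (side j τ) = c := by
    rw [aff_side _ _ ⟨p3.1.le, p3.2.le⟩, hτ]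
    show (1 - (aff L b₀ - A) / (B - A)) * A + (aff L b₀ - A) / (B - A) * B = c
    rw [hc]
    field_simp
    ring
  refine ⟨?_, ?_, ?_⟩
  · rcases lt_or_gt_of_ne hAB with h | h
    · refine ⟨j + 1, ?_⟩
      show B < c
      rw [hc]; nlinarith
    · refine ⟨j, ?_⟩
      show A < c
      rw [hc]; nlinarith
  · rcases lt_or_gt_of_ne hAB with h | h
    · refine ⟨j, ?_⟩
      show c < A
      rw [hc]; nlinarith
    · refine ⟨j + 1, ?_⟩
      show c < B
      rw [hc]; nlinarith
  · intro b hb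
    -- near the point `side j τ`
    have hnear : ∀ᶠ t in 𝓝[>] (0 : ℝ), S (point P i (mix (side j τ) b t)) =
        SignType.sign (aff L (mix (side j τ) b t) - c) := by
      have h1 := hS.zero i _ hEv p4
      have h2 : Tendsto (fun t => mix (side j τ) b t) (𝓝[>] 0) (𝓝 (side j τ)) :=
        ((continuous_mix (side j τ) b).tendsto' 0 _ (mix_zero _ _)).mono_left nhdsWithin_le_nhds
      filter_upwards [h2.eventually h1] with t ht
      refine ht.trans ?_
      show SignType.sign (det d (pos e i (mix (side j τ) b t) - pos e i (side j τ))) = _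
      rw [det_pos_sub]
      show SignType.sign (aff L (mix (side j τ) b t) - aff L (side j τ)) = _
      rw [hEc]
    have hIoo : ∀ᶠ t in 𝓝[>] (0 : ℝ), t ∈ Set.Ioo (0 : ℝ) 1 := Ioo_mem_nhdsGT zero_lt_one
    obtain ⟨t, ht1, ht2⟩ := (hnear.and hIoo).exists
    have hmixv : ¬ IsVertex (mix (side j τ) b t) := not_isVertex_mix' ⟨ht2.1.le, ht2.2⟩ hEv
    have hmixa : aff L (mix (side j τ) b t) - c = t * (aff L b - c) := by
      rw [aff_mix _ _ _ ⟨ht2.1.le, ht2.2.le⟩, hEc]; ring
    rw [hmixa, sign_pos_mul ht2.1] at ht1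
    rcases lt_trichotomy (aff L b) c with h | h | h
    · rw [← ht1]
      refine (const_on (i := i) (W := {x : Tri | ¬ IsVertex x ∧ x.1 ∈ {x : Fin 3 → ℝ |
        ∑ j, x j * L j ∈ Set.Iio c}}) hS
        (preconn_tri (convex_aff L (convex_Iio c))) (fun x hx => hx.1) ?_ ⟨hb, h⟩
        ⟨hmixv, ?_⟩)
      · intro x hx hx0
        exact absurd (hzero x hx.1 hx0) (ne_of_lt hx.2)
      · show aff L (mix (side j τ) b t) < c
        nlinarith [ht2.1]
    · rw [h, sub_self, sign_zero]
      exact hlevel b₀ b hb₀ hb h.symm h₀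
    · rw [← ht1]
      refine (const_on (i := i) (W := {x : Tri | ¬ IsVertex x ∧ x.1 ∈ {x : Fin 3 → ℝ |
        ∑ j, x j * L j ∈ Set.Ioi c}}) hS
        (preconn_tri (convex_aff L (convex_Ioi c))) (fun x hx => hx.1) ?_ ⟨hb, h⟩
        ⟨hmixv, ?_⟩)
      · intro x hx hx0
        exact absurd (hzero x hx.1 hx0) (ne_of_gt hx.2)
      · show c < aff L (mix (side j τ) b t)
        nlinarith [ht2.1]

lemma aff_sub_const (g : Fin 3 → ℝ) (c : ℝ) (b : Tri) :
    aff (fun j => g j - c) b = aff g b - c := by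
  have h : b.1 0 + b.1 1 + b.1 2 = 1 := tri_sum b 0
  simp only [aff, Fin.sum_univ_three]
  linear_combination (-c) * h

lemma aff_const (c : ℝ) (b : Tri) : aff (fun _ => c) b = c := by
  have h : b.1 0 + b.1 1 + b.1 2 = 1 := tri_sum b 0
  simp only [aff, Fin.sum_univ_three]
  linear_combination c * h

/-- A barrier which does not run along a side is described by affine functions. -/
theorem exists_comb (hS : IsBarrier ⟨⟨n, P⟩, e, he⟩ d S)
    (hN : ∀ h, det d (e h) = 0 → ∀ t ∈ Set.Ioo (0 : ℝ) 1, S (point P h.1 (side h.2 t)) ≠ 0) :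
    ∃ (K : Set (Fin n)) (g : Fin n → Fin 3 → ℝ), IsComb P e d K g ∧
      (∀ i b, ¬ IsVertex b → S (point P i b) = SignType.sign (aff (g i) b)) ∧
      (∀ i ∈ K, (∃ j, g i j < 0) ∧ (∃ j, 0 < g i j)) := by
  classical
  have hmid : ¬ IsVertex (side 0 (1 / 2)) := not_isVertex_side _ (by norm_num)
  set K : Set (Fin n) := {i | ∃ b, ¬ IsVertex b ∧ S (point P i b) = 0} with hK
  let g : Fin n → Fin 3 → ℝ := fun i =>
    if h : ∃ b, ¬ IsVertex b ∧ S (point P i b) = 0 then
      fun j => det d (vert e i j) - aff (fun j => det d (vert e i j)) h.choose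
    else if S (point P i (side 0 (1 / 2))) = 1 then fun _ => 1 else fun _ => -1
  have hgK : ∀ i (h : ∃ b, ¬ IsVertex b ∧ S (point P i b) = 0),
      g i = fun j => det d (vert e i j) - aff (fun j => det d (vert e i j)) h.choose := by
    intro i h
    show (if h : ∃ b, ¬ IsVertex b ∧ S (point P i b) = 0 then _ else _) = _
    rw [dif_pos h]
  have hgn : ∀ i (_ : ¬ ∃ b, ¬ IsVertex b ∧ S (point P i b) = 0),
      g i = if S (point P i (side 0 (1 / 2))) = 1 then fun _ => 1 else fun _ => -1 := by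
    intro i h
    show (if h : ∃ b, ¬ IsVertex b ∧ S (point P i b) = 0 then _ else _) = _
    rw [dif_neg h]
  have hsign : ∀ i b, ¬ IsVertex b → S (point P i b) = SignType.sign (aff (g i) b) := by
    intro i b hb
    by_cases h : ∃ b, ¬ IsVertex b ∧ S (point P i b) = 0
    · rw [hgK i h, aff_sub_const]
      exact (triangle_zero hS hN h.choose_spec.1 h.choose_spec.2).2.2 b hb
    · have h1 : S (point P i b) = S (point P i (side 0 (1 / 2))) := by
        refine const_on (i := i) (W := {x : Tri | ¬ IsVertex x ∧ x.1 ∈ Set.univ}) hS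
          (preconn_tri convex_univ) (fun x hx => hx.1) ?_ ⟨hb, trivial⟩ ⟨hmid, trivial⟩
        intro x hx hx0
        exact absurd ⟨x, hx.1, hx0⟩ h
      have h2 : S (point P i (side 0 (1 / 2))) ≠ 0 := fun h3 => h ⟨_, hmid, h3⟩
      rw [hgn i h, h1]
      split_ifs with h3
      · rw [h3, aff_const, sign_pos one_pos]
      · rw [aff_const, sign_neg (by norm_num)]
        revert h2 h3
        generalize S (point P i (side 0 (1 / 2))) = x
        revert x
        decide
  refine ⟨K, g, ⟨?_, ?_, ?_⟩, hsign, ?_⟩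
  · intro i hi j
    rw [hgK i hi]
    show det d (vert e i (j + 1)) - _ - (det d (vert e i j) - _) = _
    rw [← vert_succ2 (d := d) he i j]
    ring
  · intro i hi
    rw [hgn i hi]
    split_ifs
    · exact Or.inl fun _ => rfl
    · exact Or.inr fun _ => rfl
  · intro h t ht
    have ht' : t ∈ Set.Icc (0 : ℝ) 1 := ⟨ht.1.le, ht.2.le⟩
    have ht1 : 1 - t ∈ Set.Ioo (0 : ℝ) 1 := ⟨by linarith [ht.2], by linarith [ht.1]⟩
    have ht'' : 1 - t ∈ Set.Icc (0 : ℝ) 1 := ⟨ht1.1.le, ht1.2.le⟩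
    have h1 := hsign h.1 _ (not_isVertex_side h.2 ht)
    have h2 := hsign (P.glue h).1 _ (not_isVertex_side (P.glue h).2 ht1)
    rw [← (glued_side h ht').point_eq, h1, aff_side _ _ ht', aff_side _ _ ht''] at h2
    rw [h2]
    congr 1
    ring
  · intro i hi
    rw [hgK i hi]
    obtain ⟨⟨j, hj⟩, ⟨k, hk⟩, _⟩ := triangle_zero hS hN hi.choose_spec.1 hi.choose_spec.2
    exact ⟨⟨j, sub_neg.mpr hj⟩, ⟨k, sub_pos.mpr hk⟩⟩

end Pool.Agent.Dilation
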